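import Mathlib
import Pool.Agent.Lib.MP_87d05f_lc.HG.Defs
import Pool.Agent.Lib.MP_87d05f_lc.SP.Stm
import Pool.Agent.Lib.MP_87d05f_lc.SP.Seq

set_option autoImplicit false

/-!
# MP_87d05f_lc, thresholds: definitions

A language consists of payoffs `φ` and of relations `R` on a finite domain. The gap problem with
parameters `c`, `s`: accept if some assignment satisfies all constraints with respect to `R` and has
average payoff at least `c`; reject if all assignments have average payoff less than `s`.
-/

namespace Pool.Agent.Lib.MP_87d05f_lc.TH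

open Pool.Agent.Lib.MP_87d05f_lc Pool.Agent.Lib.MP_87d05f_lc.HG

variable {l d : ℕ} {ar : Fin l → ℕ}

/-- no constraint contains a variable twice -/
def Prp {V : Type} (F : List (CV ar V)) : Prop := ∀ c ∈ F, (vsC c).Nodup

/-- the value of an assignment -/
def valV {V : Type} (φ : (i : Fin l) → (Fin (ar i) → Fin d) → ℕ) (a : V → Fin d)
    (F : List (CV ar V)) : ℕ := (F.map (fun c => φ c.1 (fun j => a (c.2 j)))).sum

/-- accept -/
def YT (φ : (i : Fin l) → (Fin (ar i) → Fin d) → ℕ) (R : (i : Fin l) → (Fin (ar i) → Fin d) → Bool)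
    (c : ℚ) (F : List (Con ar)) : Prop :=
  ∃ a : ℕ → Fin d, satV R a F ∧ c * (F.length : ℚ) ≤ ((valV φ a F : ℕ) : ℚ)

/-- reject -/
def NT (φ : (i : Fin l) → (Fin (ar i) → Fin d) → ℕ) (s : ℚ) (F : List (Con ar)) : Prop :=
  ∀ a : ℕ → Fin d, ((valV φ a F : ℕ) : ℚ) < s * (F.length : ℚ)

/-- the sum of the payoffs of a constraint over all choices of the values of its variables in the
table `a'` -/
def avgC {V : Type} (φ : (i : Fin l) → (Fin (ar i) → Fin d) → ℕ) {L : ℕ} (k : ℕ)
    (hk : ∀ i, ar i ≤ k) (a' : V → Fin L → Fin d) (c : CV ar V) : ℕ :=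
  ∑ i : Fin k → Fin L, φ c.1 (fun j => a' (c.2 j) (i (Fin.castLE (hk _) j)))

/-! ### The regular instance -/

/-- the number of occurrences of a variable -/
def dgV (F : List (Con ar)) (v : ℕ) : ℕ := (F.flatMap vsC).count v

/-- all lists of length `k` of numbers less than `L` -/
def tup (L : ℕ) : ℕ → List (List ℕ)
  | 0 => [[]]
  | k + 1 => (List.range L).flatMap (fun i => (tup L k).map (fun t => i :: t))

/-- The regular instance: a variable `v` with `Δ` occurrences is replaced by the variables
`(v, 0), …, (v, Δ - 1)`, and a constraint by `L ^ k` constraints, for `i ∈ [L] ^ k` the one using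
the copies `i_a % Δ`. -/
def blo (L k : ℕ) (F : List (Con ar)) : List (CV ar (ℕ × ℕ)) :=
  F.flatMap (fun c => (tup L k).map (fun t =>
    ⟨c.1, fun a => (c.2 a, t.getD (a : ℕ) 0 % dgV F (c.2 a))⟩))

/-- the regular instance with numbers as variables -/
def bloN (L k : ℕ) (F : List (Con ar)) : List (Con ar) := (blo L k F).map (mapC nu3)

/-- the number of constraints with a variable in the set -/
def orV {V : Type} (S : V → Bool) (F : List (CV ar V)) : ℕ :=
  F.countP (fun c => decide (∃ j, S (c.2 j) = true))

/-- the payoffs on `Fin (2 * d)`: the quotient by `2` is the value, the remainder tells whether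
the variable is in a set -/
def hat (φ : (i : Fin l) → (Fin (ar i) → Fin d) → ℕ) (i : Fin l)
    (z : Fin (ar i) → Fin (2 * d)) : ℕ :=
  φ i (fun j => ⟨(z j : ℕ) / 2, by have := (z j).2; omega⟩) + (if ∃ j, (z j : ℕ) % 2 = 1 then 1 else 0)

/-- the constraints without variables with more than `K` occurrences -/
def lgt (K : ℕ) (F : List (Con ar)) : List (Con ar) :=
  F.filter (fun c => (vsC c).all (fun v => decide (dgV F v ≤ K)))

end Pool.Agent.Lib.MP_87d05f_lc.TH
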