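import Pool.Agent.Lib.MP_87d05f_lc.TH.Defs
import Pool.Agent.Lib.MP_87d05f_lc.HG.Stm

set_option autoImplicit false

/-!
# MP_87d05f_lc, THRESHOLDS: the statements of the pieces

Aim (`Results/MP_87d05f_lc/Thresholds.lean`, `S_TH`): let `φ` be any finite language of payoffs (with
relations `R`) on a finite domain. If for some `b` no machine separates, in time
`C (L + 1) ^ e * 2 ^ (n / b)`, `n` the number of variables, the instances (with pairwise different
variables in every constraint) having an assignment with all relations true and average payoff at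
least `c` from those with all average payoffs less than `s`, then for every `η > 0` there is `K` such
that for every `g`, for some `b'`, no machine separates `c - η` from `s + η` on the instances in which
every variable occurs at most `K` times and whose incidence graph has girth more than `g`, in time
`2 ^ (m / b')`. So the thresholds of subexponential time approximation are the same for arbitrary
instances and for locally tree-like instances of bounded degree.

Plan. (1) `S_T1`: a sample (sparsifier `SpmS`) has `O(n)` constraints. (2) `S_T2`: the instance is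
replaced by the regular instance `bloN` (exact values, polynomial size, number of variables at most
`k m`); its sample keeps for every set of variables the number of the constraints meeting it, so few
constraints meet the variables with more than `K` occurrences: these are deleted. (3) `S_T3`: the lift
by a pattern of large girth (`HG.S_PAT`) keeps the values.
-/

namespace Pool.Agent.Lib.MP_87d05f_lc.TH

open Pool.Agent.Lib.MP_87d05f_lc Pool.Agent.Lib.MP_87d05f_lc.HG Pool.Agent.PolyTime Turing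

/-- [TH AVG] An assignment at least as good as the average.

Proof. `X` = the finite set of the variables of `F`. For `ω : X → Fin L` let `a_ω v = a' v (ω v)`
(any index outside `X`). For a constraint `c` of `F` its variables are different elements of `X`, so
`∑_ω φ c (a_ω) = L ^ (|X| - ar) * ∑_(j : Fin ar → Fin L) φ c (a' (c.2 ·) (j ·))`, and
`avgC φ k hk a' c = L ^ (k - ar) * (the same sum)`. So `∑_ω L ^ k * valV φ a_ω F =
L ^ |X| * (F.map (avgC φ k hk a')).sum`, and some `ω` is at least as good as the average. -/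
def S_AVG : Prop := ∀ (l d k L : ℕ) (ar : Fin l → ℕ) (V : Type)
  (φ : (i : Fin l) → (Fin (ar i) → Fin d) → ℕ) (hk : ∀ i, ar i ≤ k) (F : List (CV ar V))
  (a' : V → Fin L → Fin d), 0 < L → Prp F →
  ∃ a : V → Fin d, (F.map (avgC φ k hk a')).sum ≤ L ^ k * valV φ a F

/-! ## The lift -/

/-- [TH LNV] soundness of the lift, for values (Uses `S_AVG`.)

Proof. For a constraint of `F` of type `τ` and a tuple `y` of values let `cnt y` be the number of the
tuples `p` of `H τ` with `a' (x_j, (p j).1) = y_j` for all `j`, and `P y` the product of the densities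
of the sets of the indices `i` with `a' (x_j, i) = y_j` (all indices at the places `≥ ar`). By `mix`
`cnt y ≥ C N (P y - 1 / h)`, and `∑_y cnt y ≤ C N`, `∑_y P y = 1`; so
`∑_y φ y (cnt y - C N P y) ≤ Φ * (sum of the positive parts) ≤ Φ * (sum of the negative parts) ≤
Φ * d ^ k * C N / h`, and `∑_y φ y P y = avgC / N ^ k`. Sum over the constraints and use `S_AVG` with
`L = N`, `a' v i = a' (v, i)`. -/
def S_LNV : Prop := ∀ (l d k K N h C K' g Φ : ℕ) (ar : Fin l → ℕ) (V : Type) [DecidableEq V]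
  (hk : ∀ i, ar i ≤ k) (H : (Fin k → Fin (K + 1)) → List (Fin k → Fin N × Fin 1))
  (φ : (i : Fin l) → (Fin (ar i) → Fin d) → ℕ) (F : List (CV ar V)),
  0 < d → 0 < N → 0 < h → HG.Pat h C K' g H → Prp F → (∀ i x, φ i x ≤ Φ) →
  ∀ a' : V × Fin N → Fin d, ∃ a : V → Fin d,
    h * valV φ a' (liftF hk H F) ≤ C * N * (h * valV φ a F + d ^ k * Φ * F.length)

/-- [TH LYV] completeness of the lift, for values

Proof. By `mix` with all sets equal to `univ` every list `H τ` has at least `C N (1 - 1 / h)`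
elements, and the copies of a constraint have its value under `fun x => a x.1`. -/
def S_LYV : Prop := ∀ (l d k K N h C K' g : ℕ) (ar : Fin l → ℕ) (V : Type) [DecidableEq V]
  (hk : ∀ i, ar i ≤ k) (H : (Fin k → Fin (K + 1)) → List (Fin k → Fin N × Fin 1))
  (φ : (i : Fin l) → (Fin (ar i) → Fin d) → ℕ) (F : List (CV ar V)),
  0 < N → 0 < h → HG.Pat h C K' g H →
  (h - 1) * (C * N) * F.length ≤ h * (liftF hk H F).length ∧
  ∀ a : V → Fin d, (h - 1) * (C * N) * valV φ a F ≤
    h * valV φ (fun x : V × Fin N => a x.1) (liftF hk H F)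

/-- [TH T3] third step (Uses `HG.S_PAT`, `HG.S_RNC`, `HG.S_INJ`, `HG.S_LY`, `HG.S_LO`, `HG.S_LG`,
`HG.S_LTR`, `S_LNV`, `S_LYV`.)

Proof. As `HG/P_CSP.lean`. `Φ` a bound of `φ`, `k` a bound of the arities, `h ≥ 2` with
`η h ≥ d ^ k Φ + |s| + η + Φ`, `K₂ = K K'`. `m = F.length > 0`, `m₄` = the length of the lift,
`C N (1 - 1 / h) m ≤ m₄ ≤ C N m`. YES (`c > 0` without loss of generality; then `c ≤ Φ`): the value is
at least `(1 - 1 / h) c C N m ≥ (c - Φ / h) m₄`. NO: every value is less than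
`C N m (s + d ^ k Φ / h) ≤ (s + η) (1 - 1 / h) C N m ≤ (s + η) m₄` (`s > 0` because values are `≥ 0`). -/
def S_T3 : Prop := ∀ (l d : ℕ) (ar : Fin l → ℕ) (φ : (i : Fin l) → (Fin (ar i) → Fin d) → ℕ)
  (R : (i : Fin l) → (Fin (ar i) → Fin d) → Bool) (c s η : ℚ) (K : ℕ), 0 < d → 0 < η →
  ∃ K₂ : ℕ, ∀ g : ℕ, ∃ B : ℕ, 0 < B ∧ ∀ b : ℕ, 0 < b →
    GSep (codeC (ar := ar)) (fun F => VK K₂ F ∧ HGI (vsC (ar := ar) (V := ℕ)) g F)
      (YT φ R (c - η)) (NT φ (s + η)) List.length (B * b) →
    GSep (codeC (ar := ar)) (fun F => VK K F ∧ Prp F) (YT φ R c) (NT φ s) List.length b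

/-! ## The regular instance -/

/-- [TH BL] the regular instance: sizes and completeness

Proof. `(tup L k).length = L ^ k`. A variable `v` of `F` has `Δ = dgV F v ≥ 1` copies, so the number of
the variables of `blo` is at most the number of the places of `F`. Values: all copies of a constraint
have its value under `fun x => a x.1`. -/
def S_BL : Prop := ∀ (l d k L : ℕ) (ar : Fin l → ℕ)
  (φ : (i : Fin l) → (Fin (ar i) → Fin d) → ℕ) (R : (i : Fin l) → (Fin (ar i) → Fin d) → Bool)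
  (F : List (Con ar)), (∀ i, ar i ≤ k) → Prp F →
  (blo L k F).length = L ^ k * F.length ∧ Prp (blo L k F) ∧
  ((blo L k F).flatMap vsC).toFinset.card ≤ (F.flatMap vsC).length ∧
  (F.flatMap vsC).length ≤ k * F.length ∧
  ∀ a : ℕ → Fin d, valV φ (fun x : ℕ × ℕ => a x.1) (blo L k F) = L ^ k * valV φ a F ∧
    (satV R a F → satV R (fun x : ℕ × ℕ => a x.1) (blo L k F))

/-- [TH BS] the regular instance: soundness (Uses `S_AVG`.)

Proof. `tup L k` lists the functions `Fin k → Fin L`, so the sum of the payoffs of the copies of a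
constraint is `avgC φ k hk (fun v i => a' (v, i % dgV F v))`. -/
def S_BS : Prop := ∀ (l d k L : ℕ) (ar : Fin l → ℕ)
  (φ : (i : Fin l) → (Fin (ar i) → Fin d) → ℕ) (F : List (Con ar)), (∀ i, ar i ≤ k) → 0 < L →
  Prp F → ∀ a' : ℕ × ℕ → Fin d, ∃ a : ℕ → Fin d,
    valV φ a' (blo L k F) ≤ L ^ k * valV φ a F

/-- [TH BO] the regular instance: the number of the constraints meeting a set

Proof. `orV S (blo …) ≤ ∑_c ∑_j L ^ (k - 1) * #{i < L : S (c_j, i % Δ)}`, and
`Δ * #{i < L : i % Δ ∈ A} ≤ |A| (L + Δ)` for `A ⊆ [0, Δ)`. A variable `v` has `Δ_v` places, so the sum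
is at most `L ^ (k - 1) * ∑_v |S_v| (L + Δ_v)`, `S_v = {i < Δ_v : S (v, i)}`; all `(v, i)`, `i < Δ_v`,
are variables of `blo` (`Δ_v ≤ L`), and `∑_v |S_v| Δ_v ≤ ∑_v Δ_v ^ 2 ≤ (k m) ^ 2`,
`h (k m) ^ 2 ≤ L k m`. (`k = 0`: no variables.) -/
def S_BO : Prop := ∀ (l k L h : ℕ) (ar : Fin l → ℕ) (F : List (Con ar)), (∀ i, ar i ≤ k) →
  0 < h → L = h * (k * F.length + 1) → Prp F → ∀ S : ℕ × ℕ → Bool,
    h * orV S (blo L k F) ≤ L ^ k * (h * (((blo L k F).flatMap vsC).toFinset.filter
      (fun x => S x = true)).card + k * F.length)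

/-- [TH BP] the regular instance is computed in polynomial time

Proof. As `LTR`, `CTR` of HG (`HG/P_LTR.lean`): `parseW`, `G.flatMap` over the constraints, then over
`tup L k` (`k` is a constant, induction on `k`; `L = h * (k * G.length + 1)` is unary), `i % Δ =
i - Δ * mydiv i Δ` with `Δ` = the number of occurrences of the word in `G.flatMap List.tail` (positive
for the words that occur), names `nb w t`. -/
def S_BP : Prop := ∀ (l k h : ℕ) (ar : Fin l → ℕ), (∀ i, ar i ≤ k) →
  ∃ f : List Bool → List (List (List Bool)), PTime f ∧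
    ∀ F : List (Con ar), f (codeC F) = (bloN (h * (k * F.length + 1)) k F).map wordC

/-! ## Deleting the frequent variables -/

/-- [TH HAT] the combined payoffs

Proof. Direct. -/
def S_HAT : Prop := ∀ (l d : ℕ) (ar : Fin l → ℕ) (V : Type)
  (φ : (i : Fin l) → (Fin (ar i) → Fin d) → ℕ) (F : List (CV ar V)) (a : V → Fin d)
  (S : V → Bool) (z : V → Fin (2 * d)), (∀ v, (z v : ℕ) = 2 * (a v : ℕ) + (S v).toNat) →
  valV (hat φ) z F = valV φ a F + orV S F

/-- [TH FIL] the constraints without frequent variables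

Proof. `filter`: a variable of `lgt K F` has at most `K` occurrences in `F`; the deleted constraints
are those counted by `orV` for the set of the frequent variables `v`, `K < dgV F v`; there are at most
`k * F.length` occurrences altogether. The function on words is a filter (count the words). -/
def S_FIL : Prop := ∀ (l d k K Φ : ℕ) (ar : Fin l → ℕ)
  (φ : (i : Fin l) → (Fin (ar i) → Fin d) → ℕ), (∀ i, ar i ≤ k) → (∀ i x, φ i x ≤ Φ) →
  (∃ f : List Bool → List Bool, PTime f ∧ ∀ F : List (Con ar), f (codeC F) = codeC (lgt K F)) ∧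
  ∀ F : List (Con ar),
    occK K (lgt K F) ∧ (∀ x ∈ lgt K F, x ∈ F) ∧
    (lgt K F).length + orV (fun v => decide (K < dgV F v)) F = F.length ∧
    K * ((F.flatMap vsC).toFinset.filter (fun v => decide (K < dgV F v) = true)).card ≤
      k * F.length ∧
    ∀ a : ℕ → Fin d, valV φ a (lgt K F) ≤ valV φ a F ∧
      valV φ a F ≤ valV φ a (lgt K F) + Φ * orV (fun v => decide (K < dgV F v)) F

/-- [TH SMP] a good sample of the regular instance (Uses `S_BL`, `S_BS`, `S_BO`, `S_HAT`, `S_FIL`,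
`HG.S_INJ`.)

Proof. `m = F.length`, `B = bloN L k F` (length `L ^ k m`), `m₂ = F₂.length`. For `a : ℕ → Fin d` and
`S : ℕ → Bool` let `z v = 2 a v + [S v]`; the hypothesis and `S_HAT` give, with `S = ∅`,
`|valV φ a F₂ / m₂ - valV φ a B / (L ^ k m)| ≤ ε`, and so `orV S F₂ / m₂ ≤ orV S B / (L ^ k m) + 2 ε`.
`S` = the set of the `v` with `K < dgV F₂ v`: by `S_FIL` `K |S| ≤ k m₂ ≤ k D (k m + 1) ≤
2 k D (k + 1) m`, where `S` is counted among the variables of `F₂ ⊆ B`, so by `S_BO`
`orV S B / (L ^ k m) ≤ |S ∩ vars| / m + k / h ≤ 2 k D (k + 1) / K + k / h ≤ 2 ε` (`|S ∩ vars|` may be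
taken with `S` restricted to the variables of `F₂`). So at most `4 ε m₂ < m₂` constraints are deleted.
YES: `a` on `F`, `a (v, i) = a v`: `valV / m₂ ≥ c - ε - 4 ε Φ` after deletion; if
`c - η ≥ 0` this gives `≥ (c - η) m₃`, and if `c - η < 0` there is nothing to prove. NO: for every `a'`
on the numbers, `valV φ a' F₃ ≤ valV φ a' F₂ ≤ m₂ (valV φ a' B / (L ^ k m) + ε) < m₂ (s + ε)` by
`S_BS` (`s > 0`), and `m₂ ≤ m₃ / (1 - 4 ε)`; `(s + ε) / (1 - 4 ε) ≤ s + η` by the choice of `ε`. -/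
def S_SMP : Prop := ∀ (l d k Φ : ℕ) (ar : Fin l → ℕ)
  (φ : (i : Fin l) → (Fin (ar i) → Fin d) → ℕ) (R : (i : Fin l) → (Fin (ar i) → Fin d) → Bool)
  (c s η ε : ℚ) (D K h : ℕ) (F F₂ : List (Con ar)), 0 < d → (∀ i, ar i ≤ k) →
  (∀ i x, φ i x ≤ Φ) → 0 < η → 0 < ε → ε ≤ 1 / 8 → ε * (1 + 4 * Φ) ≤ η →
  ε * (1 + 4 * (|s| + η)) ≤ η → 0 < h → (k : ℚ) ≤ ε * h →
  (2 * k * D * (k + 1) : ℚ) ≤ ε * K →
  F ≠ [] → Prp F → F₂ ≠ [] → (∀ x ∈ F₂, x ∈ bloN (h * (k * F.length + 1)) k F) →
  F₂.length ≤ D * (k * F.length + 1) →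
  (∀ z : ℕ → Fin (2 * d), |(valV (hat φ) z F₂ : ℚ) / F₂.length -
    (valV (hat φ) z (bloN (h * (k * F.length + 1)) k F) : ℚ) /
      (bloN (h * (k * F.length + 1)) k F).length| ≤ ε) →
  lgt K F₂ ≠ [] ∧ occK K (lgt K F₂) ∧ Prp (lgt K F₂) ∧
    (YT φ R c F → YT φ R (c - η) (lgt K F₂)) ∧ (NT φ s F → NT φ (s + η) (lgt K F₂))

/-- [TH T2] second step (Uses `SP.SpmS`, `S_BL`, `S_BP`, `S_FIL`, `S_SMP`, `HG.S_INJ`.)

Proof. `k` a bound of the arities, `Φ` of `φ`; `ε` small (`ε ≤ 1 / 8`, `ε (1 + 4 Φ) ≤ η`,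
`ε (1 + 4 (|s| + η)) ≤ η`), `h ≥ 1` with `k ≤ ε h`. `SpmS` for the language `hat φ` on `Fin (2 d)`,
`ε`, and `(k + 1) * (b + …)`: with `inst F = bloN (h (k |F| + 1)) k F` (`f` from `S_BP`), `μ F = (k + 1)
* F.length`, for the exponent `(k + 1) b`, which is `F.length / b` (`Nat.mul_div_mul_left`); this gives
`D` (make it `≥ 1`), and `GFind` with good words `codeC F₂`. `K` with `2 k D (k + 1) ≤ ε K`.
`seq_sep` with `en₁ = en₂ = codeC`, `pre F w = goodS' (hat φ) ε D (bloN …) w`, `f (x, w)` = the filter of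
`S_FIL` applied to `w`, `h (x, w) = h₁ x = mydiv (parseW x).length b`, `b' = D (k + 1) b`:
`(lgt K F₂).length ≤ D (k m + 1) ≤ D (k + 1) m`. The length of `w`: the constraints of `F₂` are
elements of `bloN …`, whose code is polynomial in `codeC F` (`PTime.sz_le` for the `f` of `S_BP`).
The number of variables of `bloN`: `S_BL` and injectivity of `nu3` (or `Finset.card_image_le`); it is
also at most `(codeC F).length`. -/
def S_T2 : Prop := ∀ (l d : ℕ) (ar : Fin l → ℕ) (φ : (i : Fin l) → (Fin (ar i) → Fin d) → ℕ)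
  (R : (i : Fin l) → (Fin (ar i) → Fin d) → Bool) (c s η : ℚ) (b : ℕ), 0 < d → 0 < η → 0 < b →
  ∃ K b' : ℕ, 0 < b' ∧
    (GSep (codeC (ar := ar)) (fun F => VK K F ∧ Prp F) (YT φ R (c - η)) (NT φ (s + η))
      List.length b' →
    GSep (codeC (ar := ar)) (fun F => F ≠ [] ∧ Prp F) (YT φ R c) (NT φ s) List.length b)

/-! ## The first step -/

/-- [TH T1] first step (Uses `SP.SpmS`.)

Proof. `SpmS` for `φ`, `ε = η`, `inst = id`, `f = parseW`-based (`codeC_eq`, `parseW_encW`),
`μ = nvC`; `seq_sep` with `f (x, w) = w`, `h₁ x` = the number of different words of the variables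
divided by `b` (`nvC_eq`), `b' = 2 D b` (`D ≥ 1`): `D (n + 1) / (2 D b) ≤ n / b`. Every constraint of
the sample is a constraint of `F`, so it is proper and `satV` is kept. Compare `SP/P/nsep.lean`. -/
def S_T1 : Prop := ∀ (l d : ℕ) (ar : Fin l → ℕ) (φ : (i : Fin l) → (Fin (ar i) → Fin d) → ℕ)
  (R : (i : Fin l) → (Fin (ar i) → Fin d) → Bool) (c s η : ℚ) (b : ℕ), 0 < d → 0 < η → 0 < b →
  ∃ b' : ℕ, 0 < b' ∧
    (GSep (codeC (ar := ar)) (fun F => F ≠ [] ∧ Prp F) (YT φ R (c - η)) (NT φ (s + η))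
      List.length b' →
    GSep (codeC (ar := ar)) (fun F => F ≠ [] ∧ Prp F) (YT φ R c) (NT φ s) nvC b)

/-! ## The theorem -/

/-- [TH TH] the thresholds (Uses `S_T1`, `S_T2`, `S_T3`.)

Proof. First part: `S_T1`, `S_T2`, `S_T3` with `η / 3`. Second part: `GSep.mono`, `nvC F ≤ k F.length`
with `k ≥ 1` a bound of the arities, and `b' = k b`. -/
def S_TH : Prop := ∀ (l d : ℕ) (ar : Fin l → ℕ) (φ : (i : Fin l) → (Fin (ar i) → Fin d) → ℕ)
  (R : (i : Fin l) → (Fin (ar i) → Fin d) → Bool) (c s : ℚ), 0 < d →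
  (∀ η : ℚ, 0 < η →
    (∃ b : ℕ, 0 < b ∧ ¬ GSep (codeC (ar := ar)) (fun F => F ≠ [] ∧ Prp F) (YT φ R c) (NT φ s)
      nvC b) →
    ∃ K : ℕ, ∀ g : ℕ, ∃ b : ℕ, 0 < b ∧
      ¬ GSep (codeC (ar := ar)) (fun F => VK K F ∧ HGI (vsC (ar := ar) (V := ℕ)) g F)
        (YT φ R (c - η)) (NT φ (s + η)) List.length b) ∧
  ((∃ K g b : ℕ, 0 < b ∧
      ¬ GSep (codeC (ar := ar)) (fun F => VK K F ∧ HGI (vsC (ar := ar) (V := ℕ)) g F)
        (YT φ R c) (NT φ s) List.length b) →
    ∃ b : ℕ, 0 < b ∧ ¬ GSep (codeC (ar := ar)) (fun F => F ≠ [] ∧ Prp F) (YT φ R c) (NT φ s)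
      nvC b)

end Pool.Agent.Lib.MP_87d05f_lc.TH
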