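import Pool.Agent.Lib.MP_87d05f_lc.TH.Stm

set_option autoImplicit false

/-!
# MP_87d05f_lc, thresholds: an assignment at least as good as the average
-/

namespace Pool.Agent.Lib.MP_87d05f_lc.TH

open Pool.Agent.Lib.MP_87d05f_lc Pool.Agent.Lib.MP_87d05f_lc.HG

/-- exchange of the values on the image of an injection -/
private noncomputable def AVG_swap {α β : Type} {L : ℕ} (f : β → α)
    (p : (α → Fin L) × (β → Fin L)) : (α → Fin L) × (β → Fin L) :=
  (Function.extend f p.2 p.1, p.1 ∘ f)

private theorem AVG_invol {α β : Type} {L : ℕ} {f : β → α} (hf : Function.Injective f) :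
    Function.Involutive (AVG_swap (L := L) f) := by
  rintro ⟨ω, τ⟩
  refine Prod.ext ?_ ?_
  · funext x
    by_cases hx : ∃ b, f b = x
    · obtain ⟨b, rfl⟩ := hx
      simp only [AVG_swap, hf.extend_apply, Function.comp_apply]
    · simp only [AVG_swap, Function.extend_apply' _ _ _ hx]
  · funext b
    simp only [AVG_swap, Function.comp_apply, hf.extend_apply]

private theorem AVG_fib {α β : Type} [Fintype α] [Fintype β] [DecidableEq α] [DecidableEq β]
    {L : ℕ} {f : β → α}
    (hf : Function.Injective f) (g : (β → Fin L) → ℕ) :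
    L ^ Fintype.card β * ∑ ω : α → Fin L, g (ω ∘ f) =
      L ^ Fintype.card α * ∑ τ : β → Fin L, g τ := by
  have h1 : ∑ p : (α → Fin L) × (β → Fin L), g (p.1 ∘ f) =
      ∑ p : (α → Fin L) × (β → Fin L), g p.2 :=
    Fintype.sum_equiv (Function.Involutive.toPerm _ (AVG_invol hf)) _ _ (fun p => rfl)
  rw [Fintype.sum_prod_type, Fintype.sum_prod_type] at h1
  simp only [Finset.sum_const, Finset.card_univ, Fintype.card_fun, Fintype.card_fin,
    smul_eq_mul] at h1
  rw [← Finset.mul_sum] at h1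
  exact h1

theorem p_AVG : S_AVG := by
  intro l d k L ar V φ hk F a' hL hF
  classical
  let X : Finset V := (F.flatMap vsC).toFinset
  let z : Fin L := ⟨0, hL⟩
  let A : (X → Fin L) → V → Fin d := fun ω v => if h : v ∈ X then a' v (ω ⟨v, h⟩) else a' v z
  have hcon : ∀ c : CV ar V, (vsC c).Nodup → (∀ v ∈ vsC c, v ∈ X) →
      L ^ k * ∑ ω : X → Fin L, φ c.1 (fun j => A ω (c.2 j)) =
        L ^ Fintype.card X * avgC φ k hk a' c := by
    intro c hc hX
    have hmem : ∀ j, c.2 j ∈ X := fun j => hX _ (by rw [vsC, List.mem_ofFn]; exact ⟨j, rfl⟩)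
    let f : Fin (ar c.1) → X := fun j => ⟨c.2 j, hmem j⟩
    have hf : Function.Injective f := by
      intro i j hij
      rw [vsC, List.nodup_ofFn] at hc
      exact hc (congrArg Subtype.val hij)
    let g : (Fin (ar c.1) → Fin L) → ℕ := fun τ => φ c.1 (fun j => a' (c.2 j) (τ j))
    have h1 := AVG_fib hf g
    have h2 := AVG_fib (Fin.castLE_injective (hk c.1)) g
    have h3 : ∑ ω : X → Fin L, φ c.1 (fun j => A ω (c.2 j)) = ∑ ω : X → Fin L, g (ω ∘ f) := by
      apply Finset.sum_congr rfl
      intro ω _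
      have : (fun j => A ω (c.2 j)) = fun j => a' (c.2 j) ((ω ∘ f) j) := by
        funext j
        simp only [A, dif_pos (hmem j)]
        rfl
      rw [this]
    have h4 : avgC φ k hk a' c = ∑ i : Fin k → Fin L, g (i ∘ Fin.castLE (hk c.1)) := rfl
    rw [h3, h4]
    rw [Fintype.card_fin] at h1 h2
    rw [Fintype.card_fin] at h2
    have hp : 0 < L ^ ar c.1 := pow_pos hL _
    apply Nat.eq_of_mul_eq_mul_left hp
    calc L ^ ar c.1 * (L ^ k * ∑ ω : X → Fin L, g (ω ∘ f))
        = L ^ k * (L ^ ar c.1 * ∑ ω : X → Fin L, g (ω ∘ f)) := by ring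
      _ = L ^ k * (L ^ Fintype.card X * ∑ τ, g τ) := by rw [h1]
      _ = L ^ Fintype.card X * (L ^ k * ∑ τ, g τ) := by ring
      _ = L ^ Fintype.card X * (L ^ ar c.1 * ∑ i : Fin k → Fin L, g (i ∘ Fin.castLE (hk c.1))) := by
          rw [h2]
      _ = _ := by ring
  have hsum : ∀ G : List (CV ar V), (∀ c ∈ G, (vsC c).Nodup ∧ ∀ v ∈ vsC c, v ∈ X) →
      ∑ ω : X → Fin L, L ^ k * valV φ (A ω) G =
        L ^ Fintype.card X * (G.map (avgC φ k hk a')).sum := by
    intro G
    induction G with
    | nil => intro _; simp [valV]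
    | cons c G ih =>
      intro hG
      have h1 := ih (fun c hc => hG c (List.mem_cons_of_mem _ hc))
      have h2 := hcon c (hG c List.mem_cons_self).1 (hG c List.mem_cons_self).2
      have h3 : ∀ ω, L ^ k * valV φ (A ω) (c :: G) =
          L ^ k * φ c.1 (fun j => A ω (c.2 j)) + L ^ k * valV φ (A ω) G := by
        intro ω
        rw [valV, List.map_cons, List.sum_cons, mul_add]
        rfl
      simp only [h3]
      rw [Finset.sum_add_distrib, h1, ← Finset.mul_sum, h2, List.map_cons, List.sum_cons, mul_add]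
  have h5 := hsum F (fun c hc => ⟨hF c hc, fun v hv => by
    rw [List.mem_toFinset, List.mem_flatMap]
    exact ⟨c, hc, hv⟩⟩)
  have hne : (Finset.univ : Finset (X → Fin L)).Nonempty := ⟨fun _ => z, Finset.mem_univ _⟩
  obtain ⟨ω, -, hω⟩ := Finset.exists_le_of_sum_le (s := (Finset.univ : Finset (X → Fin L)))
    (f := fun _ => (F.map (avgC φ k hk a')).sum) (g := fun ω => L ^ k * valV φ (A ω) F) hne (by
      rw [h5, Finset.sum_const, Finset.card_univ, Fintype.card_fun, Fintype.card_fin, smul_eq_mul])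
  exact ⟨A ω, hω⟩

end Pool.Agent.Lib.MP_87d05f_lc.TH
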