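import Pool.Agent.Lib.MP_87d05f_lc.TH.Stm

set_option autoImplicit false

/-!
# MP_87d05f_lc, thresholds, piece BL: the regular instance, sizes and completeness
-/

namespace Pool.Agent.Lib.MP_87d05f_lc.TH

open Pool.Agent.Lib.MP_87d05f_lc Pool.Agent.Lib.MP_87d05f_lc.HG

theorem BL_tup (L k : ℕ) : (tup L k).length = L ^ k := by
  induction k with
  | zero => rfl
  | succ k ih =>
    rw [tup, List.length_flatMap]
    simp only [List.length_map, ih, List.map_const', List.length_range, List.sum_replicate,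
      smul_eq_mul]
    rw [pow_succ, mul_comm]

theorem BL_sum_const {α : Type} (F : List α) (f : α → ℕ) (x : ℕ) (h : ∀ c ∈ F, f c = x) :
    (F.map f).sum = x * F.length := by
  induction F with
  | nil => simp
  | cons c F ih =>
    rw [List.map_cons, List.sum_cons, h c (by simp), ih (fun c hc => h c (by simp [hc])),
      List.length_cons]
    ring

theorem BL_sum_le {α : Type} (F : List α) (f : α → ℕ) (x : ℕ) (h : ∀ c ∈ F, f c ≤ x) :
    (F.map f).sum ≤ x * F.length := by
  induction F with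
  | nil => simp
  | cons c F ih =>
    rw [List.map_cons, List.sum_cons, List.length_cons, mul_add, mul_one]
    have h1 := h c (by simp)
    have h2 := ih (fun c hc => h c (by simp [hc]))
    omega

/-- a copy of a constraint -/
def BLcp {l : ℕ} {ar : Fin l → ℕ} (D : ℕ → ℕ) (c : Con ar) (t : List ℕ) : CV ar (ℕ × ℕ) :=
  ⟨c.1, fun a => (c.2 a, t.getD (a : ℕ) 0 % D (c.2 a))⟩

theorem BL_blo {l : ℕ} {ar : Fin l → ℕ} (L k : ℕ) (F : List (Con ar)) :
    blo L k F = F.flatMap (fun c => (tup L k).map (BLcp (dgV F) c)) := rfl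

theorem BL_mem {l : ℕ} {ar : Fin l → ℕ} {L k : ℕ} {F : List (Con ar)} {x : CV ar (ℕ × ℕ)}
    (hx : x ∈ blo L k F) : ∃ c ∈ F, ∃ t, x = BLcp (dgV F) c t := by
  rw [BL_blo, List.mem_flatMap] at hx
  obtain ⟨c, hc, hx⟩ := hx
  rw [List.mem_map] at hx
  obtain ⟨t, _, rfl⟩ := hx
  exact ⟨c, hc, t, rfl⟩

theorem BL_val {l d : ℕ} {ar : Fin l → ℕ} (L k : ℕ) (φ : (i : Fin l) → (Fin (ar i) → Fin d) → ℕ)
    (D : ℕ → ℕ) (a : ℕ → Fin d) (G : List (Con ar)) :
    valV φ (fun x : ℕ × ℕ => a x.1) (G.flatMap (fun c => (tup L k).map (BLcp D c))) =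
      L ^ k * valV φ a G := by
  induction G with
  | nil => simp [valV]
  | cons c G ih =>
    unfold valV at ih ⊢
    have h1 := BL_sum_const (tup L k)
      ((fun c : CV ar (ℕ × ℕ) => φ c.fst fun j => (fun x : ℕ × ℕ => a x.1) (c.snd j)) ∘ BLcp D c)
      (φ c.1 (fun j => a (c.2 j))) (fun t _ => rfl)
    rw [List.flatMap_cons, List.map_append, List.sum_append, ih, List.map_map, h1, BL_tup,
      List.map_cons, List.sum_cons]
    ring

theorem p_BL : S_BL := by
  intro l d k L ar φ R F hk hF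
  refine ⟨?_, ?_, ?_, ?_, ?_⟩
  · rw [BL_blo, List.length_flatMap]
    exact BL_sum_const F _ (L ^ k) (fun c _ => by rw [List.length_map, BL_tup])
  · intro x hx
    obtain ⟨c, hc, t, rfl⟩ := BL_mem hx
    have h1 := hF c hc
    unfold vsC at h1 ⊢
    rw [List.nodup_ofFn] at h1 ⊢
    intro i j hij
    apply h1
    exact congrArg Prod.fst hij
  · have hsub : ((blo L k F).flatMap vsC).toFinset ⊆
        (F.flatMap vsC).toFinset.biUnion (fun v => (Finset.range (dgV F v)).image
          (fun i => (v, i))) := by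
      intro x hx
      rw [List.mem_toFinset, List.mem_flatMap] at hx
      obtain ⟨y, hy, hx⟩ := hx
      obtain ⟨c, hc, t, rfl⟩ := BL_mem hy
      unfold vsC at hx
      rw [List.mem_ofFn] at hx
      obtain ⟨j, rfl⟩ := hx
      have hv : c.2 j ∈ F.flatMap vsC := by
        rw [List.mem_flatMap]
        refine ⟨c, hc, ?_⟩
        unfold vsC
        rw [List.mem_ofFn]
        exact ⟨j, rfl⟩
      rw [Finset.mem_biUnion]
      refine ⟨c.2 j, List.mem_toFinset.2 hv, ?_⟩
      rw [Finset.mem_image]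
      refine ⟨t.getD (j : ℕ) 0 % dgV F (c.2 j), ?_, rfl⟩
      rw [Finset.mem_range]
      exact Nat.mod_lt _ (List.count_pos_iff.2 hv)
    refine (Finset.card_le_card hsub).trans (Finset.card_biUnion_le.trans ?_)
    rw [← List.sum_toFinset_count_eq_length (F.flatMap vsC)]
    apply Finset.sum_le_sum
    intro v _
    refine Finset.card_image_le.trans ?_
    rw [Finset.card_range, dgV]
  · rw [List.length_flatMap]
    apply BL_sum_le
    intro c _
    unfold vsC
    rw [List.length_ofFn]
    exact hk _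
  · intro a
    refine ⟨BL_val L k φ (dgV F) a F, ?_⟩
    intro h x hx
    obtain ⟨c, hc, t, rfl⟩ := BL_mem hx
    exact h c hc

end Pool.Agent.Lib.MP_87d05f_lc.TH
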