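import Pool.Agent.Lib.MP_87d05f_lc.TH.Stm

set_option autoImplicit false

/-!
# MP_87d05f_lc, project THRESHOLDS, piece BO: constraints of the regular instance meeting a set
-/

namespace Pool.Agent.Lib.MP_87d05f_lc.TH

open Pool.Agent.Lib.MP_87d05f_lc Pool.Agent.Lib.MP_87d05f_lc.HG

theorem BO_or {l : ℕ} {ar : Fin l → ℕ} {V : Type} (S : V → Bool) (G : List (CV ar V)) :
    orV S G ≤ (G.flatMap vsC).countP S := by
  induction G with
  | nil => simp [orV]
  | cons c G ih =>
    unfold orV at ih ⊢
    rw [List.countP_cons, List.flatMap_cons, List.countP_append]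
    have h : (if decide (∃ j, S (c.2 j) = true) = true then 1 else 0) ≤ (vsC c).countP S := by
      split_ifs with h
      · rw [decide_eq_true_iff] at h
        obtain ⟨j, hj⟩ := h
        rw [Nat.one_le_iff_ne_zero, ← Nat.pos_iff_ne_zero, List.countP_pos_iff]
        exact ⟨c.2 j, by rw [vsC, List.mem_ofFn]; exact ⟨j, rfl⟩, hj⟩
      · exact Nat.zero_le _
    omega

theorem BO_tlen (L k : ℕ) : (tup L k).length = L ^ k := by
  induction k with
  | zero => rfl
  | succ k ih =>
    rw [tup, List.length_flatMap]
    simp only [List.length_map, ih]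
    simp [pow_succ, mul_comm]

theorem BO_tup (L : ℕ) (p : ℕ → Bool) : ∀ k j : ℕ, j < k + 1 →
    (tup L (k + 1)).countP (fun t => p (t.getD j 0)) = L ^ k * (List.range L).countP p := by
  intro k
  induction k with
  | zero =>
    intro j hj
    obtain rfl : j = 0 := by omega
    rw [tup, tup, pow_zero, one_mul]
    simp only [List.map_cons, List.map_nil]
    rw [List.countP_flatMap]
    simp only [Function.comp_def, List.countP_cons, List.countP_nil, List.getD_cons_zero, zero_add]
    generalize List.range L = R
    induction R with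
    | nil => rfl
    | cons x R ih => rw [List.map_cons, List.sum_cons, ih, List.countP_cons, add_comm]
  | succ k ih =>
    intro j hj
    rw [tup, List.countP_flatMap]
    rcases j with _ | j
    · have h1 : ∀ i : ℕ, (((tup L (k + 1)).map (fun t => i :: t)).countP
          (fun t => p (t.getD 0 0))) = if p i = true then L ^ (k + 1) else 0 := by
        intro i
        rw [List.countP_map]
        have h2 : ((fun t : List ℕ => p (t.getD 0 0)) ∘ fun t => i :: t) = fun _ => p i := by
          funext t
          simp
        rw [h2]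
        cases hpi : p i
        · simp
        · simp [BO_tlen]
      simp only [Function.comp_def, h1]
      generalize List.range L = R
      induction R with
      | nil => simp
      | cons x R ih2 =>
        rw [List.map_cons, List.sum_cons, ih2, List.countP_cons, mul_add]
        split_ifs
        · ring
        · ring
    · have h1 : ∀ i : ℕ, (((tup L (k + 1)).map (fun t => i :: t)).countP
          (fun t => p (t.getD (j + 1) 0))) = L ^ k * (List.range L).countP p := by
        intro i
        rw [List.countP_map, ← ih j (by omega)]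
        congr 1
      simp only [Function.comp_def, h1]
      rw [List.map_const', List.sum_replicate, List.length_range, smul_eq_mul, pow_succ]
      ring

theorem BO_rep (L i : ℕ) (hi : i < L) : ∀ k : ℕ, List.replicate k i ∈ tup L k := by
  intro k
  induction k with
  | zero => simp [tup]
  | succ k ih =>
    rw [tup, List.replicate_succ, List.mem_flatMap]
    exact ⟨i, List.mem_range.2 hi, List.mem_map.2 ⟨_, ih, rfl⟩⟩

theorem BO_countP_ofFn {V : Type} {n : ℕ} (S : V → Bool) (f : Fin n → V) :
    (List.ofFn f).countP S = ∑ a, (if S (f a) = true then 1 else 0) := by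
  have h : ∀ l : List V, l.countP S = (l.map (fun x => if S x = true then 1 else 0)).sum := by
    intro l
    induction l with
    | nil => rfl
    | cons x l ih => rw [List.countP_cons, ih, List.map_cons, List.sum_cons, add_comm]
  rw [h, List.map_ofFn, List.sum_ofFn]
  rfl

theorem BO_swap {T : Type} {n : ℕ} (l : List T) (f : Fin n → T → Bool) :
    (l.map (fun t => ∑ a, (if f a t = true then 1 else 0))).sum = ∑ a, l.countP (f a) := by
  induction l with
  | nil => simp
  | cons x l ih =>
    rw [List.map_cons, List.sum_cons, ih, ← Finset.sum_add_distrib]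
    apply Finset.sum_congr rfl
    intro a _
    rw [List.countP_cons, add_comm]

theorem BO_occ {l : ℕ} {ar : Fin l → ℕ} (L k : ℕ) (S : ℕ × ℕ → Bool) (D : ℕ → ℕ)
    (har : ∀ i, ar i ≤ k + 1) (G : List (Con ar)) :
    ((G.flatMap (fun c => (tup L (k + 1)).map (fun t =>
      (⟨c.1, fun a => (c.2 a, t.getD (a : ℕ) 0 % D (c.2 a))⟩ : CV ar (ℕ × ℕ))))).flatMap
        vsC).countP S =
      L ^ k * ((G.flatMap vsC).map (fun v =>
        (List.range L).countP (fun i => S (v, i % D v)))).sum := by
  induction G with
  | nil => simp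
  | cons c G ih =>
    rw [List.flatMap_cons, List.flatMap_append, List.countP_append, ih, List.flatMap_cons,
      List.map_append, List.sum_append, mul_add]
    congr 1
    rw [List.countP_flatMap, List.map_map]
    have h1 : ((List.countP S ∘ vsC) ∘ fun t : List ℕ =>
        (⟨c.1, fun a => (c.2 a, t.getD (a : ℕ) 0 % D (c.2 a))⟩ : CV ar (ℕ × ℕ))) =
        fun t => ∑ a : Fin (ar c.1), (if S (c.2 a, t.getD (a : ℕ) 0 % D (c.2 a)) = true then 1
          else 0) := by
      funext t
      exact BO_countP_ofFn S _
    rw [h1, BO_swap (tup L (k + 1)) (fun (a : Fin (ar c.1)) t =>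
      S (c.2 a, t.getD (a : ℕ) 0 % D (c.2 a)))]
    have h2 : ∀ a : Fin (ar c.1), (tup L (k + 1)).countP
        (fun t => S (c.2 a, t.getD (a : ℕ) 0 % D (c.2 a))) =
        L ^ k * (List.range L).countP (fun i => S (c.2 a, i % D (c.2 a))) := by
      intro a
      exact BO_tup L (fun i => S (c.2 a, i % D (c.2 a))) k a
        (lt_of_lt_of_le a.2 (har c.1))
    simp only [h2]
    rw [← Finset.mul_sum, vsC, List.map_ofFn, List.sum_ofFn]
    rfl

theorem BO_mod (L D : ℕ) (p : ℕ → Bool) :
    D * (List.range L).countP (fun i => p (i % D)) ≤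
      ((Finset.range D).filter (fun i => p i = true)).card * (L + D) := by
  rcases Nat.eq_zero_or_pos D with rfl | hD
  · simp
  have h1 : (List.range L).countP (fun i => p (i % D)) =
      ((Finset.range L).filter (fun i => p (i % D) = true)).card := by
    rw [List.countP_eq_length_filter, Finset.card_def, Finset.filter_val, Finset.range_val,
      ← Multiset.coe_range, Multiset.filter_coe, Multiset.coe_card]
    congr 2
    funext i
    simp
  have h2 : ((Finset.range L).filter (fun i => p (i % D) = true)).card ≤
      ((Finset.range D).filter (fun i => p i = true)).card * (L / D + 1) := by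
    rw [← Finset.card_range (L / D + 1), ← Finset.card_product]
    apply Finset.card_le_card_of_injOn (fun i => (i % D, i / D))
    · intro i hi
      rw [Finset.mem_coe, Finset.mem_filter, Finset.mem_range] at hi
      rw [Finset.mem_coe, Finset.mem_product, Finset.mem_filter, Finset.mem_range,
        Finset.mem_range]
      exact ⟨⟨Nat.mod_lt _ hD, hi.2⟩, Nat.lt_succ_of_le (Nat.div_le_div_right hi.1.le)⟩
    · intro i _ j _ h
      have h3 : i % D = j % D := congrArg Prod.fst h
      have h4 : i / D = j / D := congrArg Prod.snd h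
      rw [← Nat.div_add_mod i D, ← Nat.div_add_mod j D, h3, h4]
  rw [h1]
  have h3 : D * (L / D + 1) ≤ L + D := by
    have := Nat.mul_div_le L D
    rw [mul_add, mul_one]
    omega
  calc D * ((Finset.range L).filter (fun i => p (i % D) = true)).card
      ≤ D * (((Finset.range D).filter (fun i => p i = true)).card * (L / D + 1)) :=
        Nat.mul_le_mul_left _ h2
    _ = ((Finset.range D).filter (fun i => p i = true)).card * (D * (L / D + 1)) := by ring
    _ ≤ _ := Nat.mul_le_mul_left _ h3

theorem BO_len {l : ℕ} {ar : Fin l → ℕ} (k : ℕ) (har : ∀ i, ar i ≤ k) (F : List (Con ar)) :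
    (F.flatMap vsC).length ≤ k * F.length := by
  induction F with
  | nil => simp
  | cons c F ih =>
    rw [List.flatMap_cons, List.length_append, List.length_cons, mul_add, mul_one]
    have h : (vsC c).length = ar c.1 := List.length_ofFn
    have := har c.1
    omega

theorem p_BO : S_BO := by
  classical
  intro l k L h ar F har hh hL hP S
  rcases k with _ | k
  · have h0 : orV S (blo L 0 F) = 0 := by
      unfold orV
      rw [List.countP_eq_zero]
      intro c _
      rw [decide_eq_true_iff]
      rintro ⟨j, _⟩
      have := j.2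
      have := har c.1
      omega
    rw [h0, mul_zero]
    exact Nat.zero_le _
  set W := (((blo L (k + 1) F).flatMap vsC).toFinset.filter (fun x => S x = true)).card with hW
  set m := F.length with hm
  set O := F.flatMap vsC with hO
  have hOl : O.length ≤ (k + 1) * m := BO_len (k + 1) har F
  have hΔ : ∀ v, dgV F v ≤ (k + 1) * m := fun v => (List.count_le_length).trans hOl
  have hLm : h * ((k + 1) * m) ≤ L := by
    rw [hL]
    exact Nat.mul_le_mul_left _ (Nat.le_succ _)
  have hLm1 : (k + 1) * m ≤ L := (Nat.le_mul_of_pos_left _ hh).trans hLm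
  have h1 : orV S (blo L (k + 1) F) ≤ L ^ k * (O.map (fun v =>
      (List.range L).countP (fun i => S (v, i % dgV F v)))).sum :=
    (BO_or S _).trans (BO_occ L k S (dgV F) har F).le
  have h2 : (O.map (fun v => (List.range L).countP (fun i => S (v, i % dgV F v)))).sum =
      ∑ v ∈ O.toFinset, dgV F v * (List.range L).countP (fun i => S (v, i % dgV F v)) := by
    rw [Finset.sum_list_map_count]
    rfl
  obtain ⟨s, hs⟩ : ∃ s : ℕ → ℕ, s = fun v =>
    ((Finset.range (dgV F v)).filter (fun i => S (v, i) = true)).card := ⟨_, rfl⟩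
  have h3 : ∑ v ∈ O.toFinset, dgV F v * (List.range L).countP (fun i => S (v, i % dgV F v)) ≤
      ∑ v ∈ O.toFinset, s v * (L + dgV F v) := by
    apply Finset.sum_le_sum
    intro v _
    rw [hs]
    exact BO_mod L (dgV F v) (fun i => S (v, i))
  have h4 : ∑ v ∈ O.toFinset, s v ≤ W := by
    rw [hs, ← Finset.card_sigma, hW]
    apply Finset.card_le_card_of_injOn (fun x : (_ : ℕ) × ℕ => (x.1, x.2))
    · rintro ⟨v, i⟩ hx
      rw [Finset.mem_coe, Finset.mem_sigma, List.mem_toFinset, Finset.mem_filter,
        Finset.mem_range] at hx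
      obtain ⟨hv, hi, hS⟩ := hx
      rw [Finset.mem_coe, Finset.mem_filter, List.mem_toFinset]
      refine ⟨?_, hS⟩
      rw [hO, List.mem_flatMap] at hv
      obtain ⟨c, hc, hcv⟩ := hv
      rw [vsC, List.mem_ofFn] at hcv
      obtain ⟨j, hj⟩ := hcv
      have hiL : i < L := lt_of_lt_of_le hi ((hΔ v).trans hLm1)
      rw [List.mem_flatMap]
      refine ⟨⟨c.1, fun a => (c.2 a, (List.replicate (k + 1) i).getD (a : ℕ) 0 %
        dgV F (c.2 a))⟩, ?_, ?_⟩
      · unfold blo
        rw [List.mem_flatMap]
        exact ⟨c, hc, List.mem_map.2 ⟨_, BO_rep L i hiL (k + 1), rfl⟩⟩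
      · rw [vsC, List.mem_ofFn]
        refine ⟨j, ?_⟩
        have hjk : (j : ℕ) < k + 1 := lt_of_lt_of_le j.2 (har c.1)
        have e1 : (List.replicate (k + 1) i).getD (j : ℕ) 0 = i := by
          rw [List.getD_eq_getElem?_getD, List.getElem?_replicate, if_pos hjk]
          rfl
        show (c.2 j, (List.replicate (k + 1) i).getD (j : ℕ) 0 % dgV F (c.2 j)) = (v, i)
        rw [e1, hj, Nat.mod_eq_of_lt hi]
    · rintro ⟨v, i⟩ _ ⟨v', i'⟩ _ h
      have e1 : v = v' := congrArg Prod.fst h
      have e2 : i = i' := congrArg Prod.snd h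
      subst e1
      subst e2
      rfl
  have h5 : ∑ v ∈ O.toFinset, s v * dgV F v ≤ ((k + 1) * m) * ((k + 1) * m) := by
    calc ∑ v ∈ O.toFinset, s v * dgV F v ≤ ∑ v ∈ O.toFinset, ((k + 1) * m) * dgV F v := by
          apply Finset.sum_le_sum
          intro v _
          apply Nat.mul_le_mul_right
          rw [hs]
          exact ((Finset.card_filter_le _ _).trans (Finset.card_range _).le).trans (hΔ v)
      _ = ((k + 1) * m) * O.length := by
          rw [← Finset.mul_sum]
          congr 1
          exact List.sum_toFinset_count_eq_length O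
      _ ≤ _ := Nat.mul_le_mul_left _ hOl
  have h6 : ∑ v ∈ O.toFinset, s v * (L + dgV F v) ≤ W * L + ((k + 1) * m) * ((k + 1) * m) := by
    simp only [mul_add]
    rw [Finset.sum_add_distrib, ← Finset.sum_mul]
    exact Nat.add_le_add (Nat.mul_le_mul_right _ h4) h5
  have h7 : orV S (blo L (k + 1) F) ≤ L ^ k * (W * L + ((k + 1) * m) * ((k + 1) * m)) :=
    h1.trans (Nat.mul_le_mul_left _ (h2.le.trans (h3.trans h6)))
  calc h * orV S (blo L (k + 1) F)
      ≤ h * (L ^ k * (W * L + ((k + 1) * m) * ((k + 1) * m))) := Nat.mul_le_mul_left _ h7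
    _ = L ^ (k + 1) * (h * W) + L ^ k * ((h * ((k + 1) * m)) * ((k + 1) * m)) := by ring
    _ ≤ L ^ (k + 1) * (h * W) + L ^ k * (L * ((k + 1) * m)) :=
        Nat.add_le_add_left (Nat.mul_le_mul_left _ (Nat.mul_le_mul_right _ hLm)) _
    _ = L ^ (k + 1) * (h * W + (k + 1) * m) := by ring

end Pool.Agent.Lib.MP_87d05f_lc.TH
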