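import Pool.Agent.Lib.MP_87d05f_lc.TH.Stm

set_option autoImplicit false

/-!
# MP_87d05f_lc, thresholds, piece BS: the regular instance, soundness
-/

namespace Pool.Agent.Lib.MP_87d05f_lc.TH

open Pool.Agent.Lib.MP_87d05f_lc Pool.Agent.Lib.MP_87d05f_lc.HG

private theorem BS_sum {X : Type} (f : X → List ℕ) (l : List X) :
    (l.flatMap f).sum = (l.map (fun x => (f x).sum)).sum := by
  induction l with
  | nil => rfl
  | cons x l ih => rw [List.flatMap_cons, List.sum_append, ih, List.map_cons, List.sum_cons]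

/-- `tup L k` lists the functions `Fin k → Fin L` -/
private theorem BS_tup (L : ℕ) : ∀ (k : ℕ) (G : List ℕ → ℕ),
    ((tup L k).map G).sum = ∑ i : Fin k → Fin L, G (List.ofFn (fun j => (i j : ℕ))) := by
  intro k
  induction k with
  | zero =>
    intro G
    simp [tup]
  | succ k ih =>
    intro G
    have h1 : ((tup L (k + 1)).map G).sum =
        ((List.range L).map (fun i => ((tup L k).map (fun t => G (i :: t))).sum)).sum := by
      rw [tup, List.map_flatMap, BS_sum]
      congr 1
      refine List.map_congr_left fun i _ => ?_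
      rw [List.map_map]
      rfl
    rw [h1, ← (Fin.consEquiv (fun _ : Fin (k + 1) => Fin L)).sum_comp, Fintype.sum_prod_type]
    have h2 : ((List.range L).map (fun i => ((tup L k).map (fun t => G (i :: t))).sum)).sum =
        ∑ i : Fin L, ((tup L k).map (fun t => G ((i : ℕ) :: t))).sum := by
      rw [← List.sum_ofFn, ← List.map_coe_finRange_eq_range, List.map_map, List.ofFn_eq_map]
      rfl
    rw [h2]
    refine Finset.sum_congr rfl fun i _ => ?_
    rw [ih (fun t => G ((i : ℕ) :: t))]
    refine Finset.sum_congr rfl fun t _ => ?_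
    congr 1
    rw [List.ofFn_succ]
    rfl

theorem p_BS : S_AVG → S_BS := by
  intro hA l d k L ar φ F hk hL hF a'
  obtain ⟨a, ha⟩ := hA l d k L ar ℕ φ hk F (fun v i => a' (v, (i : ℕ) % dgV F v)) hL hF
  refine ⟨a, le_trans (le_of_eq ?_) ha⟩
  unfold valV blo
  rw [List.map_flatMap, BS_sum]
  congr 1
  refine List.map_congr_left fun c _ => ?_
  rw [List.map_map, BS_tup]
  unfold avgC
  refine Finset.sum_congr rfl fun i _ => ?_
  change φ c.1 _ = φ c.1 _
  congr 1
  funext j
  change a' (c.2 j, (List.ofFn (fun j => (i j : ℕ))).getD (j : ℕ) 0 % dgV F (c.2 j)) = _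
  have h1 : (List.ofFn (fun j => (i j : ℕ))).getD (j : ℕ) 0 =
      (i (Fin.castLE (hk _) j) : ℕ) := by
    rw [List.getD_eq_getElem _ _ (by rw [List.length_ofFn]; exact lt_of_lt_of_le j.2 (hk _)),
      List.getElem_ofFn]
    rfl
  rw [h1]

end Pool.Agent.Lib.MP_87d05f_lc.TH
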