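import Mathlib
import Pool.Agent.Lib.MP_87d05f_lc.TH.Stm

set_option autoImplicit false

/-!
# The constraints without frequent variables
-/

namespace Pool.Agent.Lib.MP_87d05f_lc.TH

open Pool.Agent.Lib.MP_87d05f_lc Pool.Agent.Lib.MP_87d05f_lc.HG Pool.Agent.PolyTime Turing

/-! ### The machine -/

/-- the filter on words -/
def FIL_W (K : ℕ) (G : List (List (List Bool))) : List (List (List Bool)) :=
  G.filter (fun c => c.tail.all (fun w =>
    decide (((G.flatMap List.tail).filter (fun u => decide (u = w))).length ≤ K)))

theorem FIL_W_ptime {α : Type} [SCode α] (K : ℕ) {G : α → List (List (List Bool))}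
    (hG : PTime G) : PTime (fun a => FIL_W K (G a)) := by
  unfold FIL_W
  have hT : PTime (fun a => (G a).flatMap List.tail) :=
    PTime.flatMap (f := fun (_ : α) (c : List (List Bool)) => c.tail) hG (PTime.tail PTime.snd)
  refine PTime.filter (p := fun a (c : List (List Bool)) => c.tail.all (fun w =>
    decide ((((G a).flatMap List.tail).filter (fun u => decide (u = w))).length ≤ K))) hG ?_
  refine PTime.all (l := fun p : α × List (List Bool) => p.2.tail)
    (p := fun (p : α × List (List Bool)) (w : List Bool) =>
      decide ((((G p.1).flatMap List.tail).filter (fun u => decide (u = w))).length ≤ K))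
    (PTime.tail PTime.snd) ?_
  refine PTime.nat_le (PTime.length ?_) (PTime.const K)
  exact PTime.filter (l := fun q : (α × List (List Bool)) × List Bool =>
    (G q.1.1).flatMap List.tail) (p := fun q (u : List Bool) => decide (u = q.2))
    (hT.comp (PTime.fst.comp PTime.fst)) (PTime.eq PTime.snd (PTime.snd.comp PTime.fst))

section fil

variable {l : ℕ} {ar : Fin l → ℕ}

theorem FIL_count (F : List (Con ar)) (v : ℕ) :
    ((((F.map wordC).flatMap List.tail).filter (fun u => decide (u = Nat.bits v))).length) =
      dgV F v := by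
  rw [vars_wordC, ← List.countP_eq_length_filter, List.countP_map]
  unfold dgV
  rw [List.count_eq_countP]
  refine List.countP_congr fun x _ => ?_
  simp only [Function.comp, decide_eq_true_eq, beq_iff_eq]
  exact bits_injective.eq_iff

theorem FIL_W_eq (K : ℕ) (F : List (Con ar)) :
    FIL_W K (F.map wordC) = (lgt K F).map wordC := by
  unfold FIL_W lgt
  rw [List.filter_map]
  congr 1
  refine List.filter_congr fun c _ => ?_
  have h : (wordC c).tail = (vsC (ar := ar) (V := ℕ) c).map Nat.bits := rfl
  simp only [Function.comp]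
  rw [h, List.all_map]
  congr 1
  funext v
  simp only [Function.comp]
  rw [FIL_count]

/-! ### Combinatorics -/

theorem FIL_pred (K : ℕ) (F : List (Con ar)) (c : Con ar) :
    ((vsC (ar := ar) (V := ℕ) c).all (fun v => decide (dgV F v ≤ K))) =
      !(decide (∃ j, (fun v => decide (K < dgV F v)) (c.2 j) = true)) := by
  rw [Bool.eq_iff_iff]
  simp only [List.all_eq_true, decide_eq_true_eq, Bool.not_eq_true', decide_eq_false_iff_not,
    not_exists, not_lt]
  unfold vsC
  constructor
  · intro h j
    exact h _ (by rw [List.mem_ofFn]; exact ⟨j, rfl⟩)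
  · intro h v hv
    rw [List.mem_ofFn] at hv
    obtain ⟨j, rfl⟩ := hv
    exact h j

theorem FIL_len (K : ℕ) (F : List (Con ar)) : (lgt K F).length +
    orV (ar := ar) (V := ℕ) (fun v => decide (K < dgV F v)) F = F.length := by
  unfold lgt orV
  rw [← List.countP_eq_length_filter]
  have h1 := countP_not_add (fun c : Con ar =>
    decide (∃ j, (fun v => decide (K < dgV F v)) (c.2 j) = true)) F
  have h2 : F.countP (fun c => (vsC (ar := ar) (V := ℕ) c).all (fun v => decide (dgV F v ≤ K))) =
      F.countP (fun c : Con ar =>
        !(decide (∃ j, (fun v => decide (K < dgV F v)) (c.2 j) = true))) :=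
    List.countP_congr fun c _ => by rw [FIL_pred]
  rw [h2, Nat.add_comm]
  exact h1

theorem FIL_flat_sublist (K : ℕ) (F : List (Con ar)) (v : ℕ) :
    ((lgt K F).flatMap (vsC (ar := ar) (V := ℕ))).count v ≤ dgV F v := by
  unfold lgt dgV
  generalize (fun c : Con ar => (vsC (ar := ar) (V := ℕ) c).all
    (fun v => decide (((F.flatMap vsC).count v) ≤ K))) = p
  induction F with
  | nil => simp
  | cons c F ih =>
    rw [List.filter_cons]
    split_ifs
    · rw [List.flatMap_cons, List.flatMap_cons, List.count_append, List.count_append]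
      omega
    · rw [List.flatMap_cons, List.count_append]
      omega

theorem FIL_occ (K : ℕ) (F : List (Con ar)) : occK (ar := ar) (V := ℕ) K (lgt K F) := by
  intro v
  by_cases h : v ∈ (lgt K F).flatMap (vsC (ar := ar) (V := ℕ))
  · obtain ⟨c, hc, hv⟩ := List.mem_flatMap.1 h
    unfold lgt at hc
    rw [List.mem_filter, List.all_eq_true] at hc
    have h1 := hc.2 v hv
    rw [decide_eq_true_eq] at h1
    exact (FIL_flat_sublist K F v).trans h1
  · rw [List.count_eq_zero_of_not_mem h]
    exact Nat.zero_le _

theorem FIL_card {k : ℕ} (hk : ∀ i, ar i ≤ k) (K : ℕ) (F : List (Con ar)) :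
    K * ((F.flatMap (vsC (ar := ar) (V := ℕ))).toFinset.filter
      (fun v => decide (K < dgV F v) = true)).card ≤ k * F.length := by
  have h1 : (F.flatMap (vsC (ar := ar) (V := ℕ))).length ≤ k * F.length := by
    induction F with
    | nil => simp
    | cons c F ih =>
      rw [List.flatMap_cons, List.length_append, List.length_cons, Nat.mul_add, Nat.mul_one]
      have h2 : (vsC (ar := ar) (V := ℕ) c).length ≤ k := by
        unfold vsC
        rw [List.length_ofFn]
        exact hk _
      omega
  refine le_trans ?_ h1
  rw [← List.sum_toFinset_count_eq_length, Nat.mul_comm, ← smul_eq_mul]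
  refine (Finset.card_nsmul_le_sum _ _ _ (fun v hv => ?_)).trans
    (Finset.sum_le_sum_of_subset (Finset.filter_subset _ _))
  rw [Finset.mem_filter, decide_eq_true_eq] at hv
  exact hv.2.le

theorem FIL_sum_le {α : Type} (f : α → ℕ) (p : α → Bool) (L : List α) :
    ((L.filter p).map f).sum ≤ (L.map f).sum := by
  induction L with
  | nil => simp
  | cons c L ih =>
    rw [List.filter_cons]
    split_ifs
    · rw [List.map_cons, List.map_cons, List.sum_cons, List.sum_cons]
      omega
    · rw [List.map_cons, List.sum_cons]
      omega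

theorem FIL_sum_ge {α : Type} (f : α → ℕ) (Φ : ℕ) (hf : ∀ x, f x ≤ Φ) (p q : α → Bool)
    (hpq : ∀ x, p x = !(q x)) (L : List α) :
    (L.map f).sum ≤ ((L.filter p).map f).sum + Φ * L.countP q := by
  induction L with
  | nil => simp
  | cons c L ih =>
    rw [List.filter_cons, List.map_cons, List.sum_cons, List.countP_cons]
    have h1 := hf c
    rcases hq : q c with _ | _
    · have hp : p c = true := by rw [hpq, hq]; rfl
      simp only [hp, if_true, Bool.false_eq_true, if_false, List.map_cons, List.sum_cons,
        Nat.add_zero]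
      omega
    · have hp : p c = false := by rw [hpq, hq]; rfl
      simp only [hp, if_true, Bool.false_eq_true, if_false]
      rw [Nat.mul_add, Nat.mul_one]
      omega

end fil

theorem p_FIL : S_FIL := by
  intro l d k K Φ ar φ hk hφ
  refine ⟨⟨fun x => encW (FIL_W K (parseW x)), encW_ptime (FIL_W_ptime K parseW_ptime),
    fun F => ?_⟩, fun F => ⟨FIL_occ K F, fun x hx => List.mem_of_mem_filter hx, FIL_len K F,
      FIL_card hk K F, fun a => ⟨?_, ?_⟩⟩⟩
  · simp only
    rw [codeC_eq, parseW_encW, FIL_W_eq, codeC_eq]
  · unfold valV lgt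
    exact FIL_sum_le _ _ _
  · unfold valV lgt orV
    exact FIL_sum_ge _ Φ (fun c => hφ _ _) _ _ (fun c => FIL_pred K F c) F

end Pool.Agent.Lib.MP_87d05f_lc.TH
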