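import Mathlib
import Pool.Agent.Lib.MP_87d05f_lc.TH.Stm

set_option autoImplicit false

/-!
# MP_87d05f_lc, thresholds: the combined payoffs
-/

namespace Pool.Agent.Lib.MP_87d05f_lc.TH

open Pool.Agent.Lib.MP_87d05f_lc Pool.Agent.Lib.MP_87d05f_lc.HG

theorem p_HAT : S_HAT := by
  intro l d ar V φ F a S z hz
  have key : ∀ c : CV ar V, hat φ c.1 (fun j => z (c.2 j)) =
      φ c.1 (fun j => a (c.2 j)) + (if ∃ j, S (c.2 j) = true then 1 else 0) := by
    intro c
    unfold hat
    have h1 : (fun j => (⟨(z (c.2 j) : ℕ) / 2, by have := (z (c.2 j)).2; omega⟩ : Fin d)) =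
        fun j => a (c.2 j) := by
      funext j
      apply Fin.ext
      show (z (c.2 j) : ℕ) / 2 = (a (c.2 j) : ℕ)
      have h := hz (c.2 j)
      have h2 : (S (c.2 j)).toNat ≤ 1 := Bool.toNat_le _
      omega
    have h3 : (∃ j, (z (c.2 j) : ℕ) % 2 = 1) ↔ ∃ j, S (c.2 j) = true := by
      refine exists_congr fun j => ?_
      have h := hz (c.2 j)
      cases hS : S (c.2 j) with
      | false =>
        rw [hS, Bool.toNat_false] at h
        constructor
        · intro h4; omega
        · intro h4; exact absurd h4 (by simp)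
      | true =>
        rw [hS, Bool.toNat_true] at h
        constructor
        · intro _; rfl
        · intro _; omega
    rw [h1]
    congr 1
    by_cases h4 : ∃ j, S (c.2 j) = true
    · rw [if_pos h4, if_pos (h3.2 h4)]
    · rw [if_neg h4, if_neg (fun h => h4 (h3.1 h))]
  induction F with
  | nil => rfl
  | cons c F ih =>
    unfold valV orV at ih ⊢
    rw [List.map_cons, List.sum_cons, List.map_cons, List.sum_cons, List.countP_cons, ih, key c]
    by_cases h4 : ∃ j, S (c.2 j) = true
    · rw [if_pos h4, if_pos (by simpa using h4)]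
      omega
    · rw [if_neg h4, if_neg (by simpa using h4)]
      omega

end Pool.Agent.Lib.MP_87d05f_lc.TH
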