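import Pool.Agent.Lib.MP_87d05f_lc.TH.Stm

set_option autoImplicit false

/-!
# MP_87d05f_lc, THRESHOLDS: soundness of the lift for values
-/

namespace Pool.Agent.Lib.MP_87d05f_lc.TH

open Pool.Agent.Lib.MP_87d05f_lc Pool.Agent.Lib.MP_87d05f_lc.HG

section core

variable {k N d : ℕ}

/-- the set of the indices with a given value -/
private def LNV_S (α : Fin k → Fin N → Fin d) (y : Fin k → Fin d) (b : Fin k) :
    Finset (Fin N × Fin 1) :=
  Finset.univ.filter (fun z : Fin N × Fin 1 => α b z.1 = y b)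

private theorem LNV_mem (α : Fin k → Fin N → Fin d) (y : Fin k → Fin d)
    (p : Fin k → Fin N × Fin 1) :
    (∀ b, p b ∈ LNV_S α y b) ↔ (fun b => α b (p b).1) = y := by
  unfold LNV_S
  simp only [Finset.mem_filter, Finset.mem_univ, true_and]
  exact ⟨fun h => funext h, fun h b => congrFun h b⟩

private theorem LNV_card (α : Fin k → Fin N → Fin d) (y : Fin k → Fin d) (b : Fin k) :
    (LNV_S α y b).card = (Finset.univ.filter (fun i : Fin N => α b i = y b)).card := by
  unfold LNV_S
  refine Finset.card_bij (fun z _ => z.1) ?_ ?_ ?_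
  · intro z hz
    exact Finset.mem_filter.2 ⟨Finset.mem_univ _, (Finset.mem_filter.1 hz).2⟩
  · intro z _ z' _ h
    exact Prod.ext h (Subsingleton.elim _ _)
  · intro i hi
    exact ⟨(i, 0), Finset.mem_filter.2 ⟨Finset.mem_univ _, (Finset.mem_filter.1 hi).2⟩, rfl⟩

/-- the sum over a list by the values -/
private theorem LNV_list (α : Fin k → Fin N → Fin d) (ψ : (Fin k → Fin d) → ℚ)
    (L : List (Fin k → Fin N × Fin 1)) :
    (L.map (fun p => ψ (fun b => α b (p b).1))).sum =
      ∑ y : Fin k → Fin d, ψ y * ((L.countP (fun p => decide (∀ b, p b ∈ LNV_S α y b)) : ℕ) : ℚ) := by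
  induction L with
  | nil => simp
  | cons p L ih =>
    rw [List.map_cons, List.sum_cons, ih]
    have h1 : ∀ y : Fin k → Fin d,
        ψ y * (((p :: L).countP (fun p => decide (∀ b, p b ∈ LNV_S α y b)) : ℕ) : ℚ) =
        ψ y * ((L.countP (fun p => decide (∀ b, p b ∈ LNV_S α y b)) : ℕ) : ℚ) +
          (if (fun b => α b (p b).1) = y then ψ y else 0) := by
      intro y
      rw [List.countP_cons]
      by_cases hy : (fun b => α b (p b).1) = y
      · rw [if_pos hy, if_pos (decide_eq_true ((LNV_mem α y p).2 hy))]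
        push_cast
        ring
      · rw [if_neg hy, if_neg (by
          rw [decide_eq_true_eq]
          exact fun h => hy ((LNV_mem α y p).1 h))]
        push_cast
        ring
    rw [Finset.sum_congr rfl (fun y _ => h1 y), Finset.sum_add_distrib, Finset.sum_ite_eq,
      if_pos (Finset.mem_univ _), add_comm]

/-- the sum over all index vectors by the values -/
private theorem LNV_all (α : Fin k → Fin N → Fin d) (ψ : (Fin k → Fin d) → ℚ) :
    ∑ i : Fin k → Fin N, ψ (fun b => α b (i b)) =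
      ∑ y : Fin k → Fin d, ψ y * ∏ b, (((LNV_S α y b).card : ℕ) : ℚ) := by
  classical
  have h1 : ∀ y : Fin k → Fin d, ψ y * ∏ b, (((LNV_S α y b).card : ℕ) : ℚ) =
      ∑ i : Fin k → Fin N, if (fun b => α b (i b)) = y then ψ y else 0 := by
    intro y
    rw [← Finset.sum_filter, Finset.sum_const, nsmul_eq_mul, mul_comm]
    congr 1
    rw [← Nat.cast_prod]
    congr 1
    have h2 : (Finset.univ.filter (fun i : Fin k → Fin N => (fun b => α b (i b)) = y)) =
        Fintype.piFinset (fun b => Finset.univ.filter (fun i : Fin N => α b i = y b)) := by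
      ext i
      simp only [Finset.mem_filter, Finset.mem_univ, true_and, Fintype.mem_piFinset]
      exact ⟨fun h b => congrFun h b, fun h => funext h⟩
    rw [h2, Fintype.card_piFinset]
    exact Finset.prod_congr rfl (fun b _ => LNV_card α y b)
  rw [Finset.sum_congr rfl (fun y _ => h1 y), Finset.sum_comm]
  refine Finset.sum_congr rfl fun i _ => ?_
  rw [Finset.sum_ite_eq, if_pos (Finset.mem_univ _)]

/-- one constraint -/
private theorem LNV_core {h C Φ : ℕ} (hN : 0 < N) (hh : 0 < h) (α : Fin k → Fin N → Fin d)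
    (ψ : (Fin k → Fin d) → ℕ) (hψ : ∀ y, ψ y ≤ Φ) (L : List (Fin k → Fin N × Fin 1))
    (hlen : L.length ≤ C * (N * 1))
    (hmix : ∀ S : Fin k → Finset (Fin N × Fin 1),
      ((C * (N * 1) : ℕ) : ℚ) * ((∏ a, (((S a).card : ℕ) : ℚ) / ((N * 1 : ℕ) : ℚ)) - 1 / (h : ℚ)) ≤
        ((L.countP (fun p => decide (∀ a, p a ∈ S a)) : ℕ) : ℚ)) :
    h * N ^ k * (L.map (fun p => ψ (fun b => α b (p b).1))).sum ≤
      C * N * (h * ∑ i : Fin k → Fin N, ψ (fun b => α b (i b)) + d ^ k * Φ * N ^ k) := by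
  have hNq : (0 : ℚ) < (N : ℚ) := by exact_mod_cast hN
  have hhq : (0 : ℚ) < (h : ℚ) := by exact_mod_cast hh
  have hNk : (0 : ℚ) < (N : ℚ) ^ k := by positivity
  set cnt : (Fin k → Fin d) → ℚ := fun y =>
    ((L.countP (fun p => decide (∀ b, p b ∈ LNV_S α y b)) : ℕ) : ℚ) with hcnt
  set Q : (Fin k → Fin d) → ℚ := fun y => ∏ b, (((LNV_S α y b).card : ℕ) : ℚ) with hQ
  -- the four sums
  have e1 : (((L.map (fun p => ψ (fun b => α b (p b).1))).sum : ℕ) : ℚ) =
      ∑ y, (ψ y : ℚ) * cnt y := by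
    have := LNV_list α (fun y => (ψ y : ℚ)) L
    rw [← this]
    rw [Nat.cast_list_sum, List.map_map]
    rfl
  have e2 : ((L.length : ℕ) : ℚ) = ∑ y, cnt y := by
    have := LNV_list α (fun _ => (1 : ℚ)) L
    simp only [one_mul] at this
    rw [← this, List.map_const', List.sum_replicate, nsmul_eq_mul, mul_one]
  have e3 : ((∑ i : Fin k → Fin N, ψ (fun b => α b (i b)) : ℕ) : ℚ) = ∑ y, (ψ y : ℚ) * Q y := by
    have := LNV_all α (fun y => (ψ y : ℚ))
    rw [← this]
    push_cast
    rfl
  have e4 : (N : ℚ) ^ k = ∑ y, Q y := by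
    have := LNV_all α (fun _ => (1 : ℚ))
    simp only [one_mul] at this
    rw [← this, Finset.sum_const, nsmul_eq_mul, mul_one, Finset.card_univ, Fintype.card_fun,
      Fintype.card_fin, Fintype.card_fin]
    push_cast
    rfl
  -- the mixing inequality
  have e5 : ∀ y, (C : ℚ) * N * Q y ≤ N ^ k * cnt y + C * N * N ^ k / h := by
    intro y
    have h1 := hmix (LNV_S α y)
    have h2 : (∏ a, (((LNV_S α y a).card : ℕ) : ℚ) / ((N * 1 : ℕ) : ℚ)) = Q y / N ^ k := by
      rw [Finset.prod_div_distrib, Finset.prod_const, Finset.card_univ, Fintype.card_fin, mul_one]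
    rw [h2, mul_one] at h1
    have h3 : ((C * N : ℕ) : ℚ) * (Q y / N ^ k - 1 / h) * N ^ k ≤ cnt y * N ^ k :=
      mul_le_mul_of_nonneg_right h1 hNk.le
    have h4 : ((C * N : ℕ) : ℚ) * (Q y / N ^ k - 1 / h) * N ^ k =
        (C : ℚ) * N * Q y - C * N * N ^ k / h := by
      push_cast
      field_simp
    rw [h4] at h3
    linarith
  have e6 : ∀ y, (h : ℚ) * N ^ k * ((ψ y : ℚ) * cnt y) ≤
      C * N * (h * ((ψ y : ℚ) * Q y)) +
        Φ * (h * N ^ k * cnt y - C * N * h * Q y + C * N * N ^ k) := by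
    intro y
    have h1 := e5 y
    have h2 : (0 : ℚ) ≤ h * N ^ k * cnt y - C * N * h * Q y + C * N * N ^ k := by
      have h3 := mul_le_mul_of_nonneg_left h1 hhq.le
      have h4 : (h : ℚ) * (N ^ k * cnt y + C * N * N ^ k / h) =
          h * N ^ k * cnt y + C * N * N ^ k := by field_simp
      rw [h4] at h3
      linarith
    have h5 : (ψ y : ℚ) ≤ Φ := by exact_mod_cast hψ y
    have h6 : (ψ y : ℚ) * (h * N ^ k * cnt y - C * N * h * Q y + C * N * N ^ k) ≤
        Φ * (h * N ^ k * cnt y - C * N * h * Q y + C * N * N ^ k) :=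
      mul_le_mul_of_nonneg_right h5 h2
    have h7 : (0 : ℚ) ≤ (ψ y : ℚ) * (C * N * N ^ k) := by positivity
    linarith
  have e7 : ((L.length : ℕ) : ℚ) ≤ C * N := by
    have : ((L.length : ℕ) : ℚ) ≤ ((C * (N * 1) : ℕ) : ℚ) := by exact_mod_cast hlen
    refine this.trans (le_of_eq ?_)
    push_cast
    ring
  have e8 : (h : ℚ) * N ^ k * ∑ y, (ψ y : ℚ) * cnt y ≤
      C * N * (h * ∑ y, (ψ y : ℚ) * Q y + d ^ k * Φ * N ^ k) := by
    calc (h : ℚ) * N ^ k * ∑ y, (ψ y : ℚ) * cnt y = ∑ y, (h : ℚ) * N ^ k * ((ψ y : ℚ) * cnt y) := by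
          rw [Finset.mul_sum]
      _ ≤ ∑ y, (C * N * (h * ((ψ y : ℚ) * Q y)) +
          Φ * (h * N ^ k * cnt y - C * N * h * Q y + C * N * N ^ k)) :=
          Finset.sum_le_sum (fun y _ => e6 y)
      _ = C * N * (h * ∑ y, (ψ y : ℚ) * Q y) +
          Φ * (h * N ^ k * (∑ y, cnt y) - C * N * h * (∑ y, Q y) + d ^ k * (C * N * N ^ k)) := by
          rw [Finset.sum_add_distrib, ← Finset.mul_sum, ← Finset.mul_sum, ← Finset.mul_sum,
            Finset.sum_add_distrib, Finset.sum_sub_distrib, ← Finset.mul_sum, ← Finset.mul_sum,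
            Finset.sum_const, nsmul_eq_mul, Finset.card_univ, Fintype.card_fun, Fintype.card_fin,
            Fintype.card_fin]
          push_cast
          ring
      _ ≤ C * N * (h * ∑ y, (ψ y : ℚ) * Q y) +
          Φ * (h * N ^ k * (C * N) - C * N * h * N ^ k + d ^ k * (C * N * N ^ k)) := by
          rw [← e2, ← e4]
          have h1 : (h : ℚ) * N ^ k * (L.length : ℕ) ≤ h * N ^ k * (C * N) :=
            mul_le_mul_of_nonneg_left e7 (by positivity)
          have h2 : (0 : ℚ) ≤ Φ := Nat.cast_nonneg _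
          have h3 := mul_le_mul_of_nonneg_left h1 h2
          linarith
      _ = _ := by ring
  rw [← e1, ← e3] at e8
  exact_mod_cast e8

end core

private theorem LNV_sum_flatMap {α : Type} (f : α → List ℕ) (L : List α) :
    (L.flatMap f).sum = (L.map (fun x => (f x).sum)).sum := by
  induction L with
  | nil => rfl
  | cons x L ih => rw [List.flatMap_cons, List.sum_append, List.map_cons, List.sum_cons, ih]

/-- the value of the lift, constraint by constraint -/
private theorem LNV_val {l d k K N : ℕ} {ar : Fin l → ℕ} {V : Type} [DecidableEq V]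
    (hk : ∀ i, ar i ≤ k) (H : (Fin k → Fin (K + 1)) → List (Fin k → Fin N × Fin 1))
    (φ : (i : Fin l) → (Fin (ar i) → Fin d) → ℕ) (F : List (CV ar V))
    (a' : V × Fin N → Fin d) :
    valV φ a' (liftF hk H F) = (F.zipIdx.map (fun cq =>
      ((H (tyC k K (F.take cq.2) cq.1)).map (fun p =>
        φ cq.1.1 (fun j => a' (cq.1.2 j, (p (Fin.castLE (hk _) j)).1)))).sum)).sum := by
  unfold valV liftF liftT
  rw [List.map_map, List.map_flatMap, LNV_sum_flatMap]
  refine congrArg List.sum (List.map_congr_left ?_)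
  intro cq _
  rw [List.map_map]
  have h1 : (H (tyC k K (F.take cq.2) cq.1)) =
      ((H (tyC k K (F.take cq.2) cq.1)).zipIdx).map Prod.fst := by
    simp
  conv_rhs => rw [h1]
  rw [List.map_map]
  rfl

theorem p_LNV : S_AVG → S_LNV := by
  intro havg l d k K N h C K' g Φ ar V _ hk H φ F hd hN hh hP hF hφ a'
  obtain ⟨a, ha⟩ := havg l d k N ar V φ hk F (fun v i => a' (v, i)) hN hF
  refine ⟨a, ?_⟩
  have hNk : 0 < N ^ k := Nat.pow_pos hN
  refine Nat.le_of_mul_le_mul_left ?_ hNk
  -- one constraint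
  have hone : ∀ (τ : Fin k → Fin (K + 1)) (c : CV ar V),
      h * N ^ k * ((H τ).map (fun p =>
        φ c.1 (fun j => a' (c.2 j, (p (Fin.castLE (hk _) j)).1)))).sum ≤
      C * N * (h * avgC φ k hk (fun v i => a' (v, i)) c + d ^ k * Φ * N ^ k) := by
    intro τ c
    let α : Fin k → Fin N → Fin d := fun b i =>
      if hb : (b : ℕ) < ar c.1 then a' (c.2 ⟨b, hb⟩, i) else ⟨0, hd⟩
    have hα : ∀ (j : Fin (ar c.1)) (i : Fin N), α (Fin.castLE (hk c.1) j) i = a' (c.2 j, i) := by
      intro j i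
      have hb : ((Fin.castLE (hk c.1) j : Fin k) : ℕ) < ar c.1 := j.2
      exact dif_pos hb
    have key := LNV_core (C := C) hN hh α (fun y => φ c.1 (fun j => y (Fin.castLE (hk c.1) j)))
      (fun y => hφ _ _) (H τ) (hP.len τ) (hP.mix τ)
    simp only [hα] at key
    exact key
  have hsum : (F.map (fun c => C * N * (h * avgC φ k hk (fun v i => a' (v, i)) c +
      d ^ k * Φ * N ^ k))).sum = C * N * (h * (F.map (avgC φ k hk (fun v i => a' (v, i)))).sum +
      d ^ k * Φ * N ^ k * F.length) := by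
    clear ha hF
    induction F with
    | nil => simp
    | cons c F ih =>
      rw [List.map_cons, List.sum_cons, ih, List.map_cons, List.sum_cons, List.length_cons]
      ring
  have hzip : (F.map (fun c => C * N * (h * avgC φ k hk (fun v i => a' (v, i)) c +
      d ^ k * Φ * N ^ k))) = F.zipIdx.map (fun cq =>
        C * N * (h * avgC φ k hk (fun v i => a' (v, i)) cq.1 + d ^ k * Φ * N ^ k)) := by
    have h1 : F = F.zipIdx.map Prod.fst := by simp
    conv_lhs => rw [h1]
    rw [List.map_map]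
    rfl
  calc N ^ k * (h * valV φ a' (liftF hk H F)) = (F.zipIdx.map (fun cq => h * N ^ k *
      ((H (tyC k K (F.take cq.2) cq.1)).map (fun p =>
        φ cq.1.1 (fun j => a' (cq.1.2 j, (p (Fin.castLE (hk _) j)).1)))).sum)).sum := by
        rw [LNV_val hk H φ F a', List.sum_map_mul_left]
        ring
    _ ≤ (F.zipIdx.map (fun cq => C * N * (h * avgC φ k hk (fun v i => a' (v, i)) cq.1 +
        d ^ k * Φ * N ^ k))).sum := List.sum_le_sum (fun cq _ => hone _ cq.1)
    _ = C * N * (h * (F.map (avgC φ k hk (fun v i => a' (v, i)))).sum +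
      d ^ k * Φ * N ^ k * F.length) := by rw [← hzip, hsum]
    _ ≤ C * N * (h * (N ^ k * valV φ a F) + d ^ k * Φ * N ^ k * F.length) := by
        refine Nat.mul_le_mul_left _ (Nat.add_le_add_right ?_ _)
        exact Nat.mul_le_mul_left _ ha
    _ = N ^ k * (C * N * (h * valV φ a F + d ^ k * Φ * F.length)) := by ring

end Pool.Agent.Lib.MP_87d05f_lc.TH
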