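import Mathlib
import Pool.Agent.Lib.MP_87d05f_lc.TH.Stm

set_option autoImplicit false

/-!
# MP_87d05f_lc, TH, piece LYV (helper82)
-/

namespace Pool.Agent.Lib.MP_87d05f_lc.TH

open Pool.Agent.Lib.MP_87d05f_lc Pool.Agent.Lib.MP_87d05f_lc.HG

private theorem LYV_len {T : Type} {k N h C K g : ℕ} {H : T → List (Fin k → Fin N × Fin 1)}
    (hN : 0 < N) (hh : 0 < h) (hP : HG.Pat h C K g H) (τ : T) :
    (h - 1) * (C * N) ≤ h * (H τ).length := by
  have h1 := hP.mix τ (fun _ => Finset.univ)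
  have h2 : (H τ).countP (fun p => decide (∀ a, p a ∈ (Finset.univ : Finset (Fin N × Fin 1)))) =
      (H τ).length := by
    rw [List.countP_eq_length]
    intro p _
    simp
  have hN0 : (N : ℚ) ≠ 0 := by exact_mod_cast hN.ne'
  have hh0 : (0 : ℚ) < h := by exact_mod_cast hh
  have h3 : (∏ _a : Fin k, ((((Finset.univ : Finset (Fin N × Fin 1)).card : ℕ) : ℚ) /
      ((N * 1 : ℕ) : ℚ))) = 1 := by
    have : ((((Finset.univ : Finset (Fin N × Fin 1)).card : ℕ) : ℚ) / ((N * 1 : ℕ) : ℚ)) = 1 := by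
      rw [Finset.card_univ, Fintype.card_prod, Fintype.card_fin, Fintype.card_fin]
      rw [mul_one]
      exact div_self hN0
    rw [this, Finset.prod_const_one]
  rw [h2, h3] at h1
  have h4 : (((C * (N * 1) : ℕ) : ℚ)) * ((h : ℚ) - 1) ≤ (h : ℚ) * ((H τ).length : ℚ) := by
    have h5 := mul_le_mul_of_nonneg_left h1 hh0.le
    have h6 : (h : ℚ) * (((C * (N * 1) : ℕ) : ℚ) * (1 - 1 / (h : ℚ))) =
        (((C * (N * 1) : ℕ) : ℚ)) * ((h : ℚ) - 1) := by
      field_simp
    rw [h6] at h5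
    exact h5
  have h7 : (((h - 1) * (C * N) : ℕ) : ℚ) ≤ ((h * (H τ).length : ℕ) : ℚ) := by
    rw [Nat.cast_mul, Nat.cast_sub hh, Nat.cast_mul]
    rw [mul_one] at h4
    push_cast at h4 ⊢
    linarith
  exact_mod_cast h7

private theorem LYV_sum {l k K N h C K' g : ℕ} {ar : Fin l → ℕ} {V : Type} [DecidableEq V]
    (hk : ∀ i, ar i ≤ k) (H : (Fin k → Fin (K + 1)) → List (Fin k → Fin N × Fin 1))
    (hN : 0 < N) (hh : 0 < h) (hP : HG.Pat h C K' g H)
    (ψ : CV ar V → ℕ) (χ : CV ar (V × Fin N) → ℕ)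
    (hψ : ∀ (c : CV ar V) (e : (j : Fin (ar c.1)) → V × Fin N), (∀ j, (e j).1 = c.2 j) →
      χ ⟨c.1, e⟩ = ψ c) (F : List (CV ar V)) :
    (h - 1) * (C * N) * (F.map ψ).sum ≤ h * ((liftF hk H F).map χ).sum := by
  unfold liftF liftT
  rw [List.map_map, List.map_flatMap, List.flatMap, List.sum_flatten, List.map_map]
  have h1 : F.map ψ = F.zipIdx.map (fun cq => ψ cq.1) := by
    conv_lhs => rw [← List.zipIdx_map_fst 0 F]
    rw [List.map_map]
    rfl
  rw [h1]
  generalize F.zipIdx = Z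
  induction Z with
  | nil => simp
  | cons cq Z ih =>
    rw [List.map_cons, List.sum_cons, List.map_cons, List.sum_cons, mul_add, mul_add]
    refine Nat.add_le_add ?_ ih
    simp only [Function.comp_apply, List.map_map]
    have h2 : (((H (tyC k K (F.take cq.2) cq.1)).zipIdx.map
        ((χ ∘ fun t : (CV ar V × ℕ) × ((Fin k → Fin N × Fin 1) × ℕ) =>
          (⟨t.1.1.1, fun a => (t.1.1.2 a, (t.2.1 (Fin.castLE (hk _) a)).1)⟩ :
            CV ar (V × Fin N))) ∘ fun pn => (cq, pn))).sum) =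
        (H (tyC k K (F.take cq.2) cq.1)).length * ψ cq.1 := by
      have h3 : ((χ ∘ fun t : (CV ar V × ℕ) × ((Fin k → Fin N × Fin 1) × ℕ) =>
          (⟨t.1.1.1, fun a => (t.1.1.2 a, (t.2.1 (Fin.castLE (hk _) a)).1)⟩ :
            CV ar (V × Fin N))) ∘ fun pn : (Fin k → Fin N × Fin 1) × ℕ => (cq, pn)) =
          fun _ => ψ cq.1 := by
        funext pn
        exact hψ cq.1 _ (fun j => rfl)
      rw [h3, List.map_const', List.sum_replicate, List.length_zipIdx, smul_eq_mul]
    rw [h2]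
    calc (h - 1) * (C * N) * ψ cq.1 ≤ h * (H (tyC k K (F.take cq.2) cq.1)).length * ψ cq.1 :=
          Nat.mul_le_mul_right _ (LYV_len hN hh hP _)
      _ = h * ((H (tyC k K (F.take cq.2) cq.1)).length * ψ cq.1) := by ring

theorem p_LYV : S_LYV := by
  intro l d k K N h C K' g ar V _ hk H φ F hN hh hP
  constructor
  · have h1 := LYV_sum hk H hN hh hP (fun _ => 1) (fun _ => 1) (fun _ _ _ => rfl) F
    rw [List.map_const', List.sum_replicate, List.map_const', List.sum_replicate] at h1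
    simpa using h1
  · intro a
    unfold valV
    exact LYV_sum hk H hN hh hP (fun c => φ c.1 (fun j => a (c.2 j)))
      (fun c => φ c.1 (fun j => a (c.2 j).1)) (fun c e he => by
        show φ c.1 (fun j => a (e j).1) = φ c.1 (fun j => a (c.2 j))
        congr 1
        funext j
        rw [he j]) F

end Pool.Agent.Lib.MP_87d05f_lc.TH
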