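import Pool.Agent.Lib.MP_87d05f_lc.TH.StmQ

set_option autoImplicit false

/-!
# MP_87d05f_lc, THRESHOLDS: the gap of 3-CNF formulas, assembly
-/

namespace Pool.Agent.Lib.MP_87d05f_lc.TH

open Pool.Agent.Lib.MP_87d05f_lc Pool.Agent.Lib.MP_87d05f_lc.HG Pool.Agent.PolyTime Turing

theorem Q_sepK_of {ε : ℚ} {b : ℕ}
    (h : GSep encF (fun F => F ≠ [] ∧ ∀ c ∈ F, c.length ≤ 3) Y3 (N3 ε) nvars b) :
    SepK 3 (fun _ => True) ε b := by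
  obtain ⟨C, e, tm, e₀, acc, rej, hne, h⟩ := h
  exact ⟨C, e, tm, e₀, acc, rej, hne, fun F h1 h2 _ => h F ⟨h1, h2⟩⟩

theorem Q_of_sepK {ε : ℚ} {b : ℕ} (h : SepK 3 (fun _ => True) ε b) :
    GSep encF (fun F => F ≠ [] ∧ ∀ c ∈ F, c.length ≤ 3) Y3 (N3 ε) nvars b := by
  obtain ⟨C, e, tm, e₀, acc, rej, hne, h⟩ := h
  exact ⟨C, e, tm, e₀, acc, rej, hne, fun F h1 => h F h1.1 h1.2 trivial⟩

theorem Q_nvars_le {F : List (List (Bool × ℕ))} (h : ∀ c ∈ F, c.length ≤ 3) :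
    nvars F ≤ 3 * F.length := by
  rw [nvars_eq]
  exact (List.toFinset_card_le _).trans (vlist_length_le h)

theorem p_Q : S_TH → S_QA → S_QB → S_QC → S_QD → S_Q := by
  intro hTH hQA hQB hQC hQD
  constructor
  · rintro ε ε' hlt ⟨b, hb, hsep⟩
    obtain ⟨η, hη⟩ : ∃ η : ℚ, η = (ε - ε') / 3 := ⟨_, rfl⟩
    obtain ⟨s, hs⟩ : ∃ s : ℚ, s = 1 - ε + η := ⟨_, rfl⟩
    have hη0 : 0 < η := by
      rw [hη]
      linarith
    have hno : ¬ GSep (codeC (ar := arQ)) (fun F => F ≠ [] ∧ Prp F) (YT phQ RQ 1) (NT phQ s)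
        nvC (2 * b) := by
      intro hG
      refine hsep (Q_sepK_of (hQB (fun F => F ≠ [] ∧ ∀ c ∈ F, c.length ≤ 3) Y3 (N3 ε)
        (fun F => F ≠ [] ∧ Prp F) (YT phQ RQ 1) (NT phQ s) b hb ?_ hG))
      rintro F ⟨hF1, hF2⟩
      obtain ⟨h1, h2, h3, h4⟩ := hQA F hF1 hF2
      refine ⟨hF2, ⟨fun h => hF1 (List.map_eq_nil_iff.1 h), h1⟩, h2, h3, h4 ε s ?_⟩
      rw [hs]
      linarith
    obtain ⟨K, hK⟩ := (hTH 32 2 arQ phQ RQ 1 s (by norm_num)).1 η hη0 ⟨2 * b, by omega, hno⟩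
    refine ⟨K, fun g => ?_⟩
    obtain ⟨b', hb', hG⟩ := hK g
    refine ⟨b', hb', fun hG' => hG ?_⟩
    refine hQD (fun F => VK K F ∧ HGI (vsC (ar := arQ) (V := ℕ)) g F) (YT phQ RQ (1 - η))
      (NT phQ (s + η)) (fun F => V3K K F ∧ HGI (vsL (V := ℕ)) g F) Y3 (N3 ε') b' hb' ?_ hG'
    rintro F ⟨⟨hF1, hF2⟩, hF3⟩
    obtain ⟨⟨h1, h2, -, h3⟩, h4, h5, h6⟩ := hQC F
    refine ⟨⟨⟨fun h => hF1 (h1.1 h), h2, fun v => ?_⟩, h4 g hF3⟩, h5 _, h6 _ _ ?_⟩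
    · rw [h3]
      exact hF2 v
    · rw [hs, hη]
      linarith
  · rintro ε ⟨K, g, b, hb, hG⟩
    refine ⟨3 * b, by omega, fun hsep => hG ?_⟩
    refine GSep.mono (V := fun F => F ≠ [] ∧ ∀ c ∈ F, c.length ≤ 3) (Y := Y3) (N := N3 ε)
      (μ := nvars) (b := 3 * b) ?_ ?_ ?_ ?_ (Q_of_sepK hsep)
    · rintro F ⟨⟨h1, h2, -⟩, -⟩
      exact ⟨h1, h2⟩
    · intro F _ h
      exact h
    · intro F _ h
      exact h
    · rintro F ⟨⟨-, h2, -⟩, -⟩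
      calc nvars F / (3 * b) ≤ (3 * F.length) / (3 * b) := Nat.div_le_div_right (Q_nvars_le h2)
        _ = F.length / b := Nat.mul_div_mul_left _ _ (by norm_num)

end Pool.Agent.Lib.MP_87d05f_lc.TH
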