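import Pool.Agent.Lib.MP_87d05f_lc.TH.Stm

set_option autoImplicit false

/-!
# MP_87d05f_lc, THRESHOLDS, second part: the gap of 3-CNF formulas

`S_Q`: if Q1 holds with the gap `ε`, then for every `ε' < ε` there is `K` such that for all `g` it
holds with the gap `ε'` for the formulas in which every variable occurs at most `K` times and whose
incidence graph has girth more than `g`, in time `2 ^ (m / b)`.

The formula is turned into an instance with pairwise different variables in every constraint
(`nrm`: a clause with complementary literals is replaced by a clause with one new variable, repeated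
literals are deleted), then `S_TH` is applied, and the instance obtained is turned back into a
formula.
-/

namespace Pool.Agent.Lib.MP_87d05f_lc.TH

open Pool.Agent.Lib.MP_87d05f_lc Pool.Agent.Lib.MP_87d05f_lc.HG Pool.Agent.PolyTime Turing

/-- the arities of the symbols: the symbol `8 * n + s` is the clause with `n` literals whose signs
are the bits of `s` -/
abbrev arQ : Fin 32 → ℕ := fun i => (i : ℕ) / 8

/-- the relations of the clauses -/
def RQ : (i : Fin 32) → (Fin (arQ i) → Fin 2) → Bool :=
  fun i x => decide (∃ a : Fin (arQ i), decide (x a = 1) = Nat.testBit (i : ℕ) (a : ℕ))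

/-- the payoffs of the clauses -/
def phQ : (i : Fin 32) → (Fin (arQ i) → Fin 2) → ℕ := fun i x => (RQ i x).toNat

/-- the symbol of a clause with at most three literals -/
def syQ (c : List (Bool × ℕ)) : ℕ :=
  8 * min c.length 3 + ((c.getD 0 (false, 0)).1.toNat + 2 * (c.getD 1 (false, 0)).1.toNat +
    4 * (c.getD 2 (false, 0)).1.toNat)

theorem syQ_lt (c : List (Bool × ℕ)) : syQ c < 32 := by
  have h (b : Bool) : b.toNat ≤ 1 := by cases b <;> decide
  have h0 := h (c.getD 0 (false, 0)).1
  have h1 := h (c.getD 1 (false, 0)).1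
  have h2 := h (c.getD 2 (false, 0)).1
  unfold syQ
  omega

/-- a clause as a constraint -/
def cQ (c : List (Bool × ℕ)) : Con arQ :=
  ⟨⟨syQ c, syQ_lt c⟩, fun a => (c.getD (a : ℕ) (false, 0)).2⟩

/-- the clause contains complementary literals -/
def tauQ (c : List (Bool × ℕ)) : Bool :=
  c.any (fun l => c.any (fun l' => decide (l.2 = l'.2) && xor l.1 l'.1))

/-- the normal form of a clause: its variables `v` are renamed `2 * v + 1` and repeated literals are
deleted; if it contains complementary literals it is replaced by the literal `0` -/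
def nrm (c : List (Bool × ℕ)) : List (Bool × ℕ) :=
  bif tauQ c then [(true, 0)] else (ded c).map (fun l => (l.1, 2 * l.2 + 1))

/-- a constraint as a clause -/
def clQ (q : Con arQ) : List (Bool × ℕ) :=
  List.ofFn (fun a => (Nat.testBit (q.1 : ℕ) (a : ℕ), q.2 a))

/-- [TH QA] the instance of a formula

Proof. `nrm c` has at most three literals with different variables (if `tauQ c` is false and two
literals of `ded c` have the same variable they are equal), so `cQ (nrm c)` has different variables
and the constraint `cQ (nrm c)` is satisfied iff the clause `nrm c` is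
(`Nat.testBit (8 n + s) a = Nat.testBit s a` for `a < 3`: case analysis on the signs). The variables
are `0` and the `2 v + 1`. YES: `0 ↦ 1`, `2 v + 1 ↦ a v`. NO: for `a' : ℕ → Fin 2` let
`a v = (a' (2 v + 1) = 1)`: a clause falsified by `a` has no complementary literals, so
`cQ (nrm c)` is falsified by `a'`; so the value of `a'` is at most `m - ε m < s m` (`m > 0`). -/
def S_QA : Prop := ∀ F : List (List (Bool × ℕ)), F ≠ [] → (∀ c ∈ F, c.length ≤ 3) →
  Prp (F.map (fun c => cQ (nrm c))) ∧ nvC (F.map (fun c => cQ (nrm c))) ≤ nvars F + 1 ∧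
  (Y3 F → YT phQ RQ 1 (F.map (fun c => cQ (nrm c)))) ∧
  ∀ ε s : ℚ, 1 - ε < s → N3 ε F → NT phQ s (F.map (fun c => cQ (nrm c)))

/-- [TH QB] the instance of a formula is computed in polynomial time

Proof. `transfer` (Transfer.lean). Parse the formula (`Parse.lean`; see the reading of formulas in
`HG/P_CTR.lean`, `Occ3.lean`, `KMain.lean`, `SparseMain.lean`), for a clause with words as variables:
`tauQ` by two `List.any` (or `filter`, `find?`), `ded_ptime`, the word of `2 v + 1` is `true :: w`
(`w = Nat.bits v`), the word of `0` is `[]`, the word of the symbol by a table (`getD` or `find?` in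
the list of the 32 words `Nat.bits i`; the number `syQ` is unary). `h x = mydiv n b` with `n` the number
of different variables of the formula (`nvars_binF` and `ded`), `(n + 1) / (2 * b) ≤ n / b`. -/
def S_QB : Prop := ∀ (V₁ Y₁ N₁ : List (List (Bool × ℕ)) → Prop) (V₂ Y₂ N₂ : List (Con arQ) → Prop)
  (b : ℕ), 0 < b →
    (∀ F, V₁ F → (∀ c ∈ F, c.length ≤ 3) ∧ V₂ (F.map (fun c => cQ (nrm c))) ∧
      nvC (F.map (fun c => cQ (nrm c))) ≤ nvars F + 1 ∧
      (Y₁ F → Y₂ (F.map (fun c => cQ (nrm c)))) ∧
      (N₁ F → N₂ (F.map (fun c => cQ (nrm c))))) →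
    GSep (codeC (ar := arQ)) V₂ Y₂ N₂ nvC (2 * b) → GSep encF V₁ Y₁ N₁ nvars b

/-- [TH QC] the formula of an instance

Proof. `vsL (clQ q) = vsC q`, so the incidence graphs are equal. The clause `clQ q` is satisfied by
`a v = (a' v = 1)` iff the constraint is satisfied by `a'`. The number of the falsified clauses is
the number of clauses minus the value. -/
def S_QC : Prop := ∀ F : List (Con arQ),
  ((F.map clQ = [] ↔ F = []) ∧ (∀ c ∈ F.map clQ, c.length ≤ 3) ∧
    (F.map clQ).length = F.length ∧
    ∀ v, ((F.map clQ).flatten.map (fun l => l.2)).count v = (F.flatMap vsC).count v) ∧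
  (∀ g, HGI (vsC (ar := arQ) (V := ℕ)) g F → HGI (vsL (V := ℕ)) g (F.map clQ)) ∧
  (∀ c, YT phQ RQ c F → Y3 (F.map clQ)) ∧
  ∀ s ε : ℚ, s ≤ 1 - ε → NT phQ s F → N3 ε (F.map clQ)

/-- [TH QD] the formula of an instance is computed in polynomial time

Proof. As `HG/P_CTR.lean`: the target encoding is `encF`. The word of the symbol is looked up in a
table of the lists of signs. `h x = mydiv (parseW x).length b`. -/
def S_QD : Prop := ∀ (V₁ Y₁ N₁ : List (Con arQ) → Prop) (V₂ Y₂ N₂ : List (List (Bool × ℕ)) → Prop)
  (b : ℕ), 0 < b →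
    (∀ F, V₁ F → V₂ (F.map clQ) ∧ (Y₁ F → Y₂ (F.map clQ)) ∧ (N₁ F → N₂ (F.map clQ))) →
    GSep encF V₂ Y₂ N₂ List.length b → GSep (codeC (ar := arQ)) V₁ Y₁ N₁ List.length b

/-- the nonempty 3-CNF formulas in which every variable occurs at most `K` times (all literals at
all clause positions are counted) -/
def V3K (K : ℕ) (F : List (List (Bool × ℕ))) : Prop :=
  F ≠ [] ∧ (∀ c ∈ F, c.length ≤ 3) ∧ ∀ v : ℕ, (F.flatten.map (fun l => l.2)).count v ≤ K

/-- [TH Q] the gap of 3-CNF formulas (Uses `S_TH`, `S_QA`, `S_QB`, `S_QC`, `S_QD`.)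

Proof. `η = (ε - ε') / 3`, `s = 1 - ε + η`, `c = 1`. If Q1 holds with the gap `ε` (with `b`), then by
`S_QA`, `S_QB` no machine separates `YT 1` from `NT s` on the instances with pairwise different
variables, in time `2 ^ (n / (2 b))`; `S_TH` gives `K` and for every `g` some `b'` with no machine for
`1 - η`, `s + η ≤ 1 - ε'` on the instances of girth more than `g`; `S_QC`, `S_QD`. The converse:
`nvars F ≤ 3 * F.length` (`nvars_le` in the draft of HighGirth: `nvars_eq`,
`List.toFinset_card_le`, `vlist_length_le`) and `GSep.mono` with `3 * b`. -/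
def S_Q : Prop :=
  (∀ ε ε' : ℚ, ε' < ε → (∃ b : ℕ, 0 < b ∧ ¬ SepK 3 (fun _ => True) ε b) →
    ∃ K : ℕ, ∀ g : ℕ, ∃ b : ℕ, 0 < b ∧
      ¬ GSep encF (fun F => V3K K F ∧ HGI (vsL (V := ℕ)) g F) Y3 (N3 ε') List.length b) ∧
  ∀ ε : ℚ, (∃ K g b : ℕ, 0 < b ∧
      ¬ GSep encF (fun F => V3K K F ∧ HGI (vsL (V := ℕ)) g F) Y3 (N3 ε) List.length b) →
    ∃ b : ℕ, 0 < b ∧ ¬ SepK 3 (fun _ => True) ε b

end Pool.Agent.Lib.MP_87d05f_lc.TH
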