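import Mathlib
import Pool.Agent.Lib.MP_87d05f_lc.TH.StmQ

set_option autoImplicit false

/-!
# MP_87d05f_lc, thresholds: the instance of a 3-CNF formula
-/

namespace Pool.Agent.Lib.MP_87d05f_lc.TH

open Pool.Agent.Lib.MP_87d05f_lc Pool.Agent.Lib.MP_87d05f_lc.HG

theorem QA_ar (c : List (Bool × ℕ)) (hc : c.length ≤ 3) : arQ (cQ c).1 = c.length := by
  have h (b : Bool) : b.toNat ≤ 1 := by cases b <;> decide
  have h0 := h (c.getD 0 (false, 0)).1
  have h1 := h (c.getD 1 (false, 0)).1
  have h2 := h (c.getD 2 (false, 0)).1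
  show syQ c / 8 = c.length
  unfold syQ
  omega

theorem QA_bit (n : ℕ) (hn : n ≤ 3) (b0 b1 b2 : Bool) :
    Nat.testBit (8 * n + (b0.toNat + 2 * b1.toNat + 4 * b2.toNat)) 0 = b0 ∧
    Nat.testBit (8 * n + (b0.toNat + 2 * b1.toNat + 4 * b2.toNat)) 1 = b1 ∧
    Nat.testBit (8 * n + (b0.toNat + 2 * b1.toNat + 4 * b2.toNat)) 2 = b2 := by
  interval_cases n <;> cases b0 <;> cases b1 <;> cases b2 <;> decide

theorem QA_testBit (c : List (Bool × ℕ)) (i : ℕ) (hi : i < 3) :
    Nat.testBit (syQ c) i = (c.getD i (false, 0)).1 := by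
  obtain ⟨h0, h1, h2⟩ := QA_bit (min c.length 3) (min_le_right _ _)
    (c.getD 0 (false, 0)).1 (c.getD 1 (false, 0)).1 (c.getD 2 (false, 0)).1
  unfold syQ
  interval_cases i
  · exact h0
  · exact h1
  · exact h2

theorem QA_sat (c : List (Bool × ℕ)) (hc : c.length ≤ 3) (a : ℕ → Fin 2) :
    RQ (cQ c).1 (fun j => a ((cQ c).2 j)) = true ↔ ∃ l ∈ c, decide (a l.2 = 1) = l.1 := by
  have har := QA_ar c hc
  unfold RQ
  rw [decide_eq_true_iff]
  constructor
  · rintro ⟨j, hj⟩
    have hj1 : (j : ℕ) < c.length := by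
      have h1 : (j : ℕ) < arQ (cQ c).1 := j.2
      omega
    have hj2 : decide (a (c.getD (j : ℕ) (false, 0)).2 = 1) = Nat.testBit (syQ c) (j : ℕ) := hj
    rw [QA_testBit c _ (by omega)] at hj2
    refine ⟨c.getD (j : ℕ) (false, 0), ?_, hj2⟩
    rw [List.getD_eq_getElem _ _ hj1]
    exact List.getElem_mem hj1
  · rintro ⟨l, hl, h⟩
    obtain ⟨i, hi, rfl⟩ := List.getElem_of_mem hl
    refine ⟨⟨i, by rw [har]; exact hi⟩, ?_⟩
    show decide (a (c.getD i (false, 0)).2 = 1) = Nat.testBit (syQ c) i
    rw [QA_testBit c _ (by omega), List.getD_eq_getElem _ _ hi]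
    exact h

theorem QA_vs (c : List (Bool × ℕ)) (hc : c.length ≤ 3) : vsC (cQ c) = c.map (fun l => l.2) := by
  have har := QA_ar c hc
  unfold vsC
  apply List.ext_getElem
  · rw [List.length_ofFn, List.length_map]
    exact har
  · intro i h1 h2
    rw [List.getElem_ofFn, List.getElem_map]
    show (c.getD i (false, 0)).2 = _
    rw [List.length_map] at h2
    rw [List.getD_eq_getElem _ _ h2]

theorem QA_tau {c : List (Bool × ℕ)} (h : tauQ c = false) {l l' : Bool × ℕ} (hl : l ∈ c)
    (hl' : l' ∈ c) (he : l.2 = l'.2) : l = l' := by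
  unfold tauQ at h
  rw [List.any_eq_false] at h
  have h1 := h l hl
  rw [Bool.not_eq_true, List.any_eq_false] at h1
  have h2 := h1 l' hl'
  apply Prod.ext _ he
  by_contra h3
  apply h2
  rw [Bool.and_eq_true]
  refine ⟨by simpa using he, ?_⟩
  cases h4 : l.1 <;> cases h5 : l'.1 <;> simp_all

theorem QA_nrm_len (c : List (Bool × ℕ)) (hc : c.length ≤ 3) : (nrm c).length ≤ 3 := by
  unfold nrm
  cases h : tauQ c with
  | true => simp
  | false =>
    rw [cond_false, List.length_map, ded_length]
    exact (List.toFinset_card_le c).trans hc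

theorem QA_nrm_nodup (c : List (Bool × ℕ)) : ((nrm c).map (fun l => l.2)).Nodup := by
  unfold nrm
  cases h : tauQ c with
  | true => simp
  | false =>
    rw [cond_false, List.map_map]
    refine List.Nodup.map_on ?_ (nodup_ded c)
    intro l hl l' hl' he
    have he' : 2 * l.2 + 1 = 2 * l'.2 + 1 := he
    exact QA_tau h (mem_ded.1 hl) (mem_ded.1 hl') (by omega)

theorem QA_val (a : ℕ → Fin 2) (G : List (Con arQ)) :
    valV phQ a G + G.countP (fun c => !(RQ c.1 (fun j => a (c.2 j)))) = G.length := by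
  induction G with
  | nil => rfl
  | cons c G ih =>
    unfold valV at ih ⊢
    rw [List.map_cons, List.sum_cons, List.countP_cons, List.length_cons, ← ih]
    show (RQ c.1 (fun j => a (c.2 j))).toNat + _ + _ = _
    cases h : RQ c.1 (fun j => a (c.2 j)) with
    | true =>
      simp only [Bool.toNat_true, Bool.not_true, Bool.false_eq_true, if_false]
      omega
    | false =>
      simp only [Bool.toNat_false, Bool.not_false, if_true]
      omega

theorem p_QA : S_QA := by
  intro F hF hF3
  have hlen : ∀ c ∈ F, (nrm c).length ≤ 3 := fun c hc => QA_nrm_len c (hF3 c hc)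
  refine ⟨?_, ?_, ?_, ?_⟩
  · intro q hq
    obtain ⟨c, hc, rfl⟩ := List.mem_map.1 hq
    rw [QA_vs _ (hlen c hc)]
    exact QA_nrm_nodup c
  · unfold nvC nvars
    have hsub : ((F.map (fun c => cQ (nrm c))).flatMap (fun c => List.ofFn c.2)).toFinset ⊆
        insert 0 (((F.flatten.map (fun l => l.2)).toFinset).image (fun v => 2 * v + 1)) := by
      intro v hv
      rw [List.mem_toFinset, List.mem_flatMap] at hv
      obtain ⟨q, hq, hv⟩ := hv
      obtain ⟨c, hc, rfl⟩ := List.mem_map.1 hq
      have hv' : v ∈ vsC (cQ (nrm c)) := hv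
      rw [QA_vs _ (hlen c hc)] at hv'
      obtain ⟨l, hl, rfl⟩ := List.mem_map.1 hv'
      rw [Finset.mem_insert, Finset.mem_image]
      unfold nrm at hl
      cases h : tauQ c with
      | true =>
        rw [h, cond_true, List.mem_singleton] at hl
        left
        rw [hl]
      | false =>
        rw [h, cond_false] at hl
        obtain ⟨m, hm, rfl⟩ := List.mem_map.1 hl
        right
        refine ⟨m.2, ?_, rfl⟩
        rw [List.mem_toFinset, List.mem_map]
        exact ⟨m, List.mem_flatten.2 ⟨c, hc, mem_ded.1 hm⟩, rfl⟩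
    refine (Finset.card_le_card hsub).trans ((Finset.card_insert_le _ _).trans ?_)
    exact Nat.add_le_add_right Finset.card_image_le 1
  · rintro ⟨a, ha⟩
    let a' : ℕ → Fin 2 := fun x => if x = 0 then 1 else if a ((x - 1) / 2) = true then 1 else 0
    have hsat : satV RQ a' (F.map (fun c => cQ (nrm c))) := by
      intro q hq
      obtain ⟨c, hc, rfl⟩ := List.mem_map.1 hq
      rw [QA_sat _ (hlen c hc)]
      unfold nrm
      cases h : tauQ c with
      | true =>
        refine ⟨(true, 0), by simp, ?_⟩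
        show decide (a' 0 = 1) = true
        simp [a']
      | false =>
        obtain ⟨l, hl, hal⟩ := ha c hc
        rw [cond_false]
        refine ⟨(l.1, 2 * l.2 + 1), List.mem_map.2 ⟨l, mem_ded.2 hl, rfl⟩, ?_⟩
        show decide (a' (2 * l.2 + 1) = 1) = l.1
        have h2 : (2 * l.2 + 1 - 1) / 2 = l.2 := by omega
        have h3 : a' (2 * l.2 + 1) = if a l.2 = true then 1 else 0 := by
          show (if 2 * l.2 + 1 = 0 then (1 : Fin 2) else
            if a ((2 * l.2 + 1 - 1) / 2) = true then 1 else 0) = _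
          rw [if_neg (by omega), h2]
        rw [h3, hal]
        cases l.1 <;> simp
    refine ⟨a', hsat, ?_⟩
    have hv := QA_val a' (F.map (fun c => cQ (nrm c)))
    have h0 : (F.map (fun c => cQ (nrm c))).countP
        (fun c => !(RQ c.1 (fun j => a' (c.2 j)))) = 0 := by
      rw [List.countP_eq_zero]
      intro q hq
      have := hsat q hq
      rw [this]
      simp
    rw [h0, Nat.add_zero] at hv
    rw [hv, one_mul]
  · intro ε s hs hN a'
    have hv := QA_val a' (F.map (fun c => cQ (nrm c)))
    have h1 := hN (fun v => decide (a' (2 * v + 1) = 1))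
    have h2 : F.countP (falsB (fun v => decide (a' (2 * v + 1) = 1))) ≤
        (F.map (fun c => cQ (nrm c))).countP (fun c => !(RQ c.1 (fun j => a' (c.2 j)))) := by
      rw [List.countP_map]
      refine List.countP_mono_left ?_
      intro c hc hf
      rw [falsB_iff] at hf
      have hf' : ∀ l ∈ c, ¬ decide (a' (2 * l.2 + 1) = 1) = l.1 := hf
      show (!(RQ (cQ (nrm c)).1 (fun j => a' ((cQ (nrm c)).2 j)))) = true
      rw [Bool.not_eq_true', ← Bool.not_eq_true, QA_sat _ (hlen c hc)]
      rintro ⟨l, hl, hal⟩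
      unfold nrm at hl
      cases h : tauQ c with
      | true =>
        unfold tauQ at h
        rw [List.any_eq_true] at h
        obtain ⟨m, hm, h⟩ := h
        rw [List.any_eq_true] at h
        obtain ⟨m', hm', h⟩ := h
        rw [Bool.and_eq_true] at h
        obtain ⟨h3, h4⟩ := h
        have h5 : m.2 = m'.2 := by simpa using h3
        have h6 := hf' m hm
        have h7 := hf' m' hm'
        rw [h5] at h6
        cases h8 : decide (a' (2 * m'.2 + 1) = 1) <;> cases h9 : m.1 <;>
          cases h10 : m'.1 <;> simp_all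
      | false =>
        rw [h, cond_false] at hl
        obtain ⟨m, hm, rfl⟩ := List.mem_map.1 hl
        exact hf' m (mem_ded.1 hm) hal
    have hpos : (0 : ℚ) < (F.length : ℚ) := by
      have : 0 < F.length := List.length_pos_iff.2 hF
      exact_mod_cast this
    rw [List.length_map] at hv ⊢
    have h3 : ((valV phQ a' (F.map (fun c => cQ (nrm c))) : ℕ) : ℚ) +
        ((F.countP (falsB (fun v => decide (a' (2 * v + 1) = 1))) : ℕ) : ℚ) ≤ (F.length : ℚ) := by
      exact_mod_cast (by omega :
        valV phQ a' (F.map (fun c => cQ (nrm c))) +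
          F.countP (falsB (fun v => decide (a' (2 * v + 1) = 1))) ≤ F.length)
    have h4 : (1 - ε) * (F.length : ℚ) < s * (F.length : ℚ) := mul_lt_mul_of_pos_right hs hpos
    linarith

end Pool.Agent.Lib.MP_87d05f_lc.TH
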