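import Pool.Agent.Lib.MP_87d05f_lc.TH.StmQ
import Pool.Agent.Lib.MP_87d05f_lc.SparseMain

set_option autoImplicit false

/-!
# MP_87d05f_lc, THRESHOLDS: the instance of a formula is computed in polynomial time
-/

namespace Pool.Agent.Lib.MP_87d05f_lc.TH

open Pool.Agent.Lib.MP_87d05f_lc Pool.Agent.Lib.MP_87d05f_lc.HG Pool.Agent.PolyTime Turing

/-- complementary literals, in words -/
def QB_tau (c : List (Lit (List Bool))) : Bool :=
  c.any (fun l => c.any (fun l' => decide (l.2 = l'.2) && xor l.1 l'.1))

/-- the normal form, in words -/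
def QB_nrm (c : List (Lit (List Bool))) : List (Lit (List Bool)) :=
  bif QB_tau c then [(true, [])] else (ded c).map (fun l => (l.1, true :: l.2))

/-- the number of the symbol, in words -/
def QB_sy (c : List (Lit (List Bool))) : ℕ :=
  8 * c.length + ((c.getD 0 (false, [])).1.toNat + 2 * (c.getD 1 (false, [])).1.toNat +
    4 * (c.getD 2 (false, [])).1.toNat)

/-- the words of the constraint -/
def QB_word (c : List (Lit (List Bool))) : List (List Bool) :=
  ((List.range 32).map Nat.bits).getD (QB_sy c) [] :: c.map (fun l => l.2)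

/-- a clause in words -/
def QB_bin (c : List (Bool × ℕ)) : List (Lit (List Bool)) := c.map (fun l => (l.1, Nat.bits l.2))

private theorem QB_tau_ptime : PTime QB_tau := by
  unfold QB_tau
  refine PTime.any (l := fun c : List (Lit (List Bool)) => c)
    (p := fun (c : List (Lit (List Bool))) (l : Lit (List Bool)) =>
      c.any (fun l' => decide (l.2 = l'.2) && xor l.1 l'.1)) PTime.id ?_
  refine PTime.any (l := fun p : List (Lit (List Bool)) × Lit (List Bool) => p.1)
    (p := fun (p : List (Lit (List Bool)) × Lit (List Bool)) (l' : Lit (List Bool)) =>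
      decide (p.2.2 = l'.2) && xor p.2.1 l'.1) PTime.fst ?_
  have h1 : PTime (fun q : (List (Lit (List Bool)) × Lit (List Bool)) × Lit (List Bool) =>
      q.1.2.1) := PTime.fst.comp (PTime.snd.comp PTime.fst)
  have h2 : PTime (fun q : (List (Lit (List Bool)) × Lit (List Bool)) × Lit (List Bool) =>
      q.1.2.2) := PTime.snd.comp (PTime.snd.comp PTime.fst)
  have h3 : PTime (fun q : (List (Lit (List Bool)) × Lit (List Bool)) × Lit (List Bool) =>
      q.2.1) := PTime.fst.comp PTime.snd
  have h4 : PTime (fun q : (List (Lit (List Bool)) × Lit (List Bool)) × Lit (List Bool) =>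
      q.2.2) := PTime.snd.comp PTime.snd
  refine PTime.and (PTime.eq h2 h4) ?_
  refine (PTime.or (PTime.and h1 (PTime.not h3)) (PTime.and (PTime.not h1) h3)).of_eq ?_
  intro q
  cases q.1.2.1 <;> cases q.2.1 <;> rfl

private theorem QB_nrm_ptime : PTime QB_nrm := by
  unfold QB_nrm
  refine PTime.cond QB_tau_ptime (PTime.const _) ?_
  refine PTime.map (l := fun c : List (Lit (List Bool)) => ded c)
    (f := fun (_ : List (Lit (List Bool))) (l : Lit (List Bool)) =>
      ((l.1, true :: l.2) : Lit (List Bool))) (ded_ptime PTime.id) ?_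
  exact (PTime.fst.comp PTime.snd).pair
    (PTime.cons (PTime.const true) (PTime.snd.comp PTime.snd))

private theorem QB_sy_ptime : PTime QB_sy := by
  unfold QB_sy
  have h (n : ℕ) : PTime (fun c : List (Lit (List Bool)) =>
      ((c.getD n ((false, []) : Lit (List Bool))).1.toNat : ℕ)) :=
    toNat_ptime (PTime.fst.comp (PTime.getD (PTime.const n) PTime.id (PTime.const _)))
  exact PTime.add (PTime.mul (PTime.const 8) (PTime.length PTime.id))
    (PTime.add (PTime.add (h 0) (PTime.mul (PTime.const 2) (h 1)))
      (PTime.mul (PTime.const 4) (h 2)))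

private theorem QB_word_ptime : PTime QB_word := by
  unfold QB_word
  refine PTime.cons (PTime.getD QB_sy_ptime (PTime.const _) (PTime.const _)) ?_
  exact PTime.map (l := fun c : List (Lit (List Bool)) => c)
    (f := fun (_ : List (Lit (List Bool))) (l : Lit (List Bool)) => l.2) PTime.id
    (PTime.snd.comp PTime.snd)

private theorem QB_binj : Function.Injective
    (fun l : Bool × ℕ => ((l.1, Nat.bits l.2) : Lit (List Bool))) := by
  intro l l' h
  simp only [Prod.mk.injEq] at h
  exact Prod.ext h.1 (bits_injective h.2)

private theorem QB_ded_map {α β : Type} [DecidableEq α] [DecidableEq β] {f : α → β}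
    (hf : Function.Injective f) (l : List α) : ded (l.map f) = (ded l).map f := by
  induction l with
  | nil => rfl
  | cons a l ih =>
    rw [List.map_cons, ded_cons, ded_cons, ih]
    have h : (f a ∈ (ded l).map f) ↔ a ∈ ded l := by
      rw [List.mem_map]
      constructor
      · rintro ⟨b, hb, hba⟩
        rwa [← hf hba]
      · exact fun h => ⟨a, h, rfl⟩
    by_cases ha : a ∈ ded l
    · have hb := h.2 ha
      simp only [ha, hb, decide_true, cond_true]
    · have hb : ¬ (f a ∈ (ded l).map f) := fun hb => ha (h.1 hb)
      simp only [ha, hb, decide_false, cond_false, List.map_cons]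

private theorem QB_tau_eq (c : List (Bool × ℕ)) : QB_tau (QB_bin c) = tauQ c := by
  unfold QB_tau tauQ QB_bin
  rw [List.any_map]
  congr 1
  funext l
  simp only [Function.comp, List.any_map]
  congr 1
  funext l'
  simp only [Function.comp]
  congr 1
  rw [decide_eq_decide]
  exact bits_injective.eq_iff

private theorem QB_bits_odd (v : ℕ) : Nat.bits (2 * v + 1) = true :: Nat.bits v := by
  have h := Nat.bits_append_bit v true (by simp)
  rw [← h]
  rfl

private theorem QB_nrm_eq (c : List (Bool × ℕ)) : QB_nrm (QB_bin c) = QB_bin (nrm c) := by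
  unfold QB_nrm nrm
  rw [QB_tau_eq]
  cases tauQ c with
  | true =>
    rw [cond_true, cond_true]
    simp [QB_bin]
  | false =>
    rw [cond_false, cond_false]
    unfold QB_bin
    rw [QB_ded_map QB_binj, List.map_map, List.map_map]
    refine List.map_congr_left fun l _ => ?_
    simp only [Function.comp, QB_bits_odd]

private theorem QB_getD (c : List (Bool × ℕ)) (n : ℕ) :
    ((QB_bin c).getD n (false, [])).1 = (c.getD n (false, 0)).1 := by
  unfold QB_bin
  have h : ((false, []) : Lit (List Bool)) =
      (fun l : Bool × ℕ => ((l.1, Nat.bits l.2) : Lit (List Bool))) (false, 0) := by simp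
  rw [h, List.getD_map]

private theorem QB_sy_eq {c : List (Bool × ℕ)} (hc : c.length ≤ 3) :
    QB_sy (QB_bin c) = syQ c := by
  unfold QB_sy syQ
  rw [QB_getD, QB_getD, QB_getD, min_eq_left hc]
  congr 1
  unfold QB_bin
  rw [List.length_map]

private theorem QB_arQ {c : List (Bool × ℕ)} (hc : c.length ≤ 3) :
    arQ ⟨syQ c, syQ_lt c⟩ = c.length := by
  have h (b : Bool) : b.toNat ≤ 1 := by cases b <;> decide
  have h0 := h (c.getD 0 (false, 0)).1
  have h1 := h (c.getD 1 (false, 0)).1
  have h2 := h (c.getD 2 (false, 0)).1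
  change syQ c / 8 = c.length
  unfold syQ
  omega

private theorem QB_word_eq {c : List (Bool × ℕ)} (hc : c.length ≤ 3) :
    QB_word (QB_bin c) = wordC (cQ c) := by
  unfold QB_word wordC
  congr 1
  · rw [QB_sy_eq hc]
    have h := syQ_lt c
    rw [List.getD_eq_getElem?_getD, List.getElem?_map, List.getElem?_range h]
    rfl
  · have h1 : List.ofFn (cQ c).2 = c.map (fun l => l.2) := by
      refine List.ext_getElem ?_ ?_
      · rw [List.length_ofFn, List.length_map]
        exact QB_arQ hc
      · intro n h2 h3
        rw [List.getElem_ofFn, List.getElem_map]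
        rw [List.length_map] at h3
        change (c.getD n (false, 0)).2 = _
        rw [List.getD_eq_getElem _ _ h3]
    rw [h1]
    unfold QB_bin
    rw [List.map_map, List.map_map]
    rfl

private theorem QB_nrm_length {c : List (Bool × ℕ)} (hc : c.length ≤ 3) :
    (nrm c).length ≤ 3 := by
  unfold nrm
  cases tauQ c with
  | true => simp
  | false =>
    rw [cond_false, List.length_map, ded_length]
    exact (List.toFinset_card_le _).trans hc

theorem p_QB : S_QB := by
  intro V₁ Y₁ N₁ V₂ Y₂ N₂ b hb hred hsep
  have hf : PTime (fun x : List Bool => encW ((parse x).map (fun c => QB_word (QB_nrm c)))) :=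
    encW_ptime (PTime.map (f := fun (_ : List Bool) (c : List (Lit (List Bool))) =>
      QB_word (QB_nrm c)) parse_ptime (QB_word_ptime.comp (QB_nrm_ptime.comp PTime.snd)))
  have hh : PTime (fun x : List Bool => mydiv (ded (vlist (parse x))).length b) :=
    mydiv_ptime (PTime.length (ded_ptime (vlist_ptime parse_ptime))) (PTime.const b)
  refine transfer hf hh (fun F _ => nvars_le_length F) ?_ hsep
  intro F hF
  obtain ⟨h0, h1, h2, h3, h4⟩ := hred F hF
  have hn : mydiv (ded (vlist (parse (encF F)))).length b = nvars F / b := by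
    rw [mydiv_eq hb, ded_length, parse_encF, ← nvars_binF]
    rfl
  refine ⟨F.map (fun c => cQ (nrm c)), h1, ?_, h3, h4, ?_, ?_⟩
  · rw [parse_encF, codeC_eq]
    congr 1
    unfold binF
    rw [List.map_map, List.map_map]
    refine List.map_congr_left fun c hc => ?_
    simp only [Function.comp]
    rw [← QB_word_eq (QB_nrm_length (h0 c hc)), ← QB_nrm_eq]
    rfl
  · rw [hn]
    refine (Nat.div_le_div_right h2).trans ?_
    rcases Nat.eq_zero_or_pos (nvars F) with h5 | h5
    · rw [h5, Nat.div_eq_of_lt (by omega)]
      exact Nat.zero_le _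
    · calc (nvars F + 1) / (2 * b) ≤ (2 * nvars F) / (2 * b) :=
            Nat.div_le_div_right (by omega)
        _ = nvars F / b := Nat.mul_div_mul_left _ _ (by norm_num)
  · rw [hn]

end Pool.Agent.Lib.MP_87d05f_lc.TH
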