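import Pool.Agent.Lib.MP_87d05f_lc.TH.StmQ

set_option autoImplicit false

/-!
# MP_87d05f_lc, THRESHOLDS: the formula of an instance
-/

namespace Pool.Agent.Lib.MP_87d05f_lc.TH

open Pool.Agent.Lib.MP_87d05f_lc Pool.Agent.Lib.MP_87d05f_lc.HG Pool.Agent.PolyTime Turing

theorem QC_vs (q : Con arQ) : vsL (clQ q) = vsC (ar := arQ) (V := ℕ) q := by
  unfold vsL clQ vsC
  rw [List.map_ofFn]
  rfl

theorem QC_len (q : Con arQ) : (clQ q).length ≤ 3 := by
  unfold clQ
  rw [List.length_ofFn]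
  have := q.1.2
  show (q.1 : ℕ) / 8 ≤ 3
  omega

theorem QC_flatten (F : List (Con arQ)) :
    (F.map clQ).flatten.map (fun l => l.2) = F.flatMap (vsC (ar := arQ) (V := ℕ)) := by
  induction F with
  | nil => rfl
  | cons q F ih =>
    rw [List.map_cons, List.flatten_cons, List.map_append, ih, List.flatMap_cons]
    congr 1
    exact QC_vs q

theorem QC_inc (F : List (Con arQ)) :
    incG (vsL (V := ℕ)) (F.map clQ) = incG (vsC (ar := arQ) (V := ℕ)) F := by
  unfold incG
  congr 1
  funext x y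
  refine propext ⟨?_, ?_⟩
  · rintro ⟨q, v, c, hx, hy, hc, hv⟩
    rw [List.getElem?_map, Option.map_eq_some_iff] at hc
    obtain ⟨c', hc', rfl⟩ := hc
    rw [QC_vs] at hv
    exact ⟨q, v, c', hx, hy, hc', hv⟩
  · rintro ⟨q, v, c, hx, hy, hc, hv⟩
    refine ⟨q, v, clQ c, hx, hy, ?_, ?_⟩
    · rw [List.getElem?_map, hc]
      rfl
    · rw [QC_vs]
      exact hv

theorem QC_sat (q : Con arQ) (a : ℕ → Fin 2) (α : ℕ → Bool) (h : ∀ v, α v = decide (a v = 1)) :
    RQ q.1 (fun j => a (q.2 j)) = true ↔ ∃ l ∈ clQ q, α l.2 = l.1 := by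
  unfold RQ clQ
  rw [decide_eq_true_eq]
  constructor
  · rintro ⟨j, hj⟩
    refine ⟨(Nat.testBit (q.1 : ℕ) (j : ℕ), q.2 j), ?_, ?_⟩
    · rw [List.mem_ofFn]
      exact ⟨j, rfl⟩
    · show α (q.2 j) = Nat.testBit (q.1 : ℕ) (j : ℕ)
      rw [h]
      exact hj
  · rintro ⟨l, hl, hal⟩
    rw [List.mem_ofFn] at hl
    obtain ⟨j, rfl⟩ := hl
    refine ⟨j, ?_⟩
    have hal' : α (q.2 j) = Nat.testBit (q.1 : ℕ) (j : ℕ) := hal
    rw [h] at hal'
    exact hal'

theorem QC_val (F : List (Con arQ)) (a : ℕ → Fin 2) (α : ℕ → Bool)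
    (h : ∀ v, α v = decide (a v = 1)) :
    valV (ar := arQ) (V := ℕ) phQ a F + (F.map clQ).countP (falsB α) = F.length := by
  unfold valV
  induction F with
  | nil => rfl
  | cons q F ih =>
    rw [List.map_cons, List.sum_cons, List.map_cons, List.countP_cons, List.length_cons]
    have key : phQ q.1 (fun j => a (q.2 j)) + (if falsB α (clQ q) = true then 1 else 0) = 1 := by
      have h1 := QC_sat q a α h
      unfold phQ
      by_cases h2 : RQ q.1 (fun j => a (q.2 j)) = true
      · have h3 : ¬ falsB α (clQ q) = true := by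
          obtain ⟨l, hl, hal⟩ := h1.1 h2
          unfold falsB
          rw [Bool.not_eq_true', Bool.not_eq_false, List.any_eq_true]
          exact ⟨l, hl, by rw [beq_iff_eq]; exact hal⟩
        rw [h2, if_neg h3]
        rfl
      · have h3 : falsB α (clQ q) = true := by
          unfold falsB
          rw [Bool.not_eq_true', ← Bool.not_eq_true, List.any_eq_true]
          rintro ⟨l, hl, hal⟩
          rw [beq_iff_eq] at hal
          exact h2 (h1.2 ⟨l, hl, hal⟩)
        rw [Bool.not_eq_true] at h2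
        rw [h2, if_pos h3]
        rfl
    omega

theorem p_QC : S_QC := by
  intro F
  refine ⟨⟨List.map_eq_nil_iff, ?_, List.length_map _, ?_⟩, ?_, ?_, ?_⟩
  · intro c hc
    obtain ⟨q, _, rfl⟩ := List.mem_map.1 hc
    exact QC_len q
  · intro v
    rw [QC_flatten]
  · rintro g ⟨h1, h2⟩
    refine ⟨?_, ?_⟩
    · intro c hc
      obtain ⟨q, hq, rfl⟩ := List.mem_map.1 hc
      rw [QC_vs]
      exact h1 q hq
    · rw [QC_inc]
      exact h2
  · rintro c ⟨a, ha, _⟩
    refine ⟨fun v => decide (a v = 1), ?_⟩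
    intro c' hc'
    obtain ⟨q, hq, rfl⟩ := List.mem_map.1 hc'
    exact (QC_sat q a (fun v => decide (a v = 1)) (fun _ => rfl)).1 (ha q hq)
  · intro s ε hs hN α
    have h0 := hN (fun v => if α v = true then 1 else 0)
    have h1 := QC_val F (fun v => if α v = true then 1 else 0) α (by
      intro v
      rcases α v with _ | _ <;> simp)
    rw [List.length_map]
    have h2 : ((valV (ar := arQ) (V := ℕ) phQ (fun v => if α v = true then (1 : Fin 2) else 0) F :
        ℕ) : ℚ) + (((F.map clQ).countP (falsB α) : ℕ) : ℚ) = (F.length : ℚ) := by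
      exact_mod_cast h1
    have h3 : s * (F.length : ℚ) ≤ (1 - ε) * (F.length : ℚ) :=
      mul_le_mul_of_nonneg_right hs (Nat.cast_nonneg _)
    linarith

end Pool.Agent.Lib.MP_87d05f_lc.TH
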