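import Pool.Agent.Lib.MP_87d05f_lc.TH.Stm

set_option autoImplicit false

/-!
# MP_87d05f_lc, thresholds: a good sample of the regular instance
-/

namespace Pool.Agent.Lib.MP_87d05f_lc.TH

open Pool.Agent.Lib.MP_87d05f_lc Pool.Agent.Lib.MP_87d05f_lc.HG

theorem SMP_val {l d : ℕ} {ar : Fin l → ℕ} {V V' : Type}
    (φ : (i : Fin l) → (Fin (ar i) → Fin d) → ℕ) (ν : V → V') (a : V' → Fin d)
    (F : List (CV ar V)) : valV φ a (F.map (mapC ν)) = valV φ (fun x => a (ν x)) F := by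
  unfold valV
  rw [List.map_map]
  rfl

theorem SMP_or {l : ℕ} {ar : Fin l → ℕ} {V V' : Type} (ν : V → V') (S : V' → Bool)
    (F : List (CV ar V)) : orV S (F.map (mapC ν)) = orV (fun x => S (ν x)) F := by
  unfold orV
  rw [List.countP_map]
  rfl

theorem SMP_or_empty {l : ℕ} {ar : Fin l → ℕ} {V : Type} (F : List (CV ar V)) :
    orV (fun _ => false) F = 0 := by
  unfold orV
  rw [List.countP_eq_zero]
  intro c _
  simp

/-- the arithmetic of the sample -/
theorem SMP_or_le {l d k Φ : ℕ} {ar : Fin l → ℕ}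
    (hBL : S_BL) (hBO : S_BO) (hHAT : S_HAT) (hFIL : S_FIL) (hINJ : HG.S_INJ)
    (φ : (i : Fin l) → (Fin (ar i) → Fin d) → ℕ)
    (ε : ℚ) (D K h : ℕ) (F F₂ : List (Con ar)) (hd : 0 < d) (hk : ∀ i, ar i ≤ k)
    (hΦ : ∀ i x, φ i x ≤ Φ) (hε : 0 < ε)
    (hh : 0 < h) (hkh : (k : ℚ) ≤ ε * h)
    (hK : (2 * k * D * (k + 1) : ℚ) ≤ ε * K)
    (hF : F ≠ []) (hPrp : Prp F) (hF₂ : F₂ ≠ [])
    (hlen : F₂.length ≤ D * (k * F.length + 1))
    (hz : ∀ z : ℕ → Fin (2 * d), |(valV (hat φ) z F₂ : ℚ) / F₂.length -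
      (valV (hat φ) z (bloN (h * (k * F.length + 1)) k F) : ℚ) /
        (bloN (h * (k * F.length + 1)) k F).length| ≤ ε) :
    ((orV (fun v => decide (K < dgV F₂ v)) F₂ : ℕ) : ℚ) ≤ 4 * ε * (F₂.length : ℚ) ∧
    ∀ a : ℕ → Fin d, |(valV φ a F₂ : ℚ) / F₂.length -
      (valV φ (fun x => a (nu3 x)) (blo (h * (k * F.length + 1)) k F) : ℚ) /
        (((h * (k * F.length + 1)) ^ k * F.length : ℕ) : ℚ)| ≤ ε := by
  have hm : 0 < F.length := List.length_pos_iff.2 hF
  have hm₂ : 0 < F₂.length := List.length_pos_iff.2 hF₂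
  set L := h * (k * F.length + 1) with hL
  have hLpos : 0 < L := Nat.mul_pos hh (Nat.succ_pos _)
  have hBlen : (bloN L k F).length = L ^ k * F.length := by
    unfold bloN
    rw [List.length_map]
    exact (hBL l d k L ar φ (fun _ _ => true) F hk hPrp).1
  have hcomb : ∀ (a : ℕ → Fin d) (S : ℕ → Bool),
      |((valV φ a F₂ : ℚ) + (orV S F₂ : ℚ)) / F₂.length -
        ((valV φ (fun x => a (nu3 x)) (blo L k F) : ℚ) +
          (orV (fun x => S (nu3 x)) (blo L k F) : ℚ)) / ((L ^ k * F.length : ℕ) : ℚ)| ≤ ε := by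
    intro a S
    have hlt : ∀ v, 2 * (a v : ℕ) + (S v).toNat < 2 * d := by
      intro v
      have h1 := (a v).2
      have h2 : (S v).toNat ≤ 1 := Bool.toNat_le (S v)
      omega
    have h1 := hz (fun v => ⟨2 * (a v : ℕ) + (S v).toNat, hlt v⟩)
    rw [hHAT l d ar ℕ φ F₂ a S _ (fun _ => rfl),
      hHAT l d ar ℕ φ (bloN L k F) a S _ (fun _ => rfl), hBlen] at h1
    unfold bloN at h1
    rw [SMP_val, SMP_or] at h1
    push_cast at h1 ⊢
    exact h1
  have hval : ∀ a : ℕ → Fin d, |(valV φ a F₂ : ℚ) / F₂.length -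
      (valV φ (fun x => a (nu3 x)) (blo L k F) : ℚ) / ((L ^ k * F.length : ℕ) : ℚ)| ≤ ε := by
    intro a
    have h1 := hcomb a (fun _ => false)
    rw [SMP_or_empty] at h1
    have h2 : orV (fun x : ℕ × ℕ => (fun _ => false) (nu3 x)) (blo L k F) = 0 := SMP_or_empty _
    rw [h2] at h1
    simpa using h1
  refine ⟨?_, hval⟩
  -- the set of the frequent variables
  set S : ℕ → Bool := fun v => decide (K < dgV F₂ v) with hS
  have hmq : (0 : ℚ) < (F.length : ℚ) := by exact_mod_cast hm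
  have hm₂q : (0 : ℚ) < (F₂.length : ℚ) := by exact_mod_cast hm₂
  have hLq : (0 : ℚ) < (L : ℚ) := by exact_mod_cast hLpos
  have hhq : (0 : ℚ) < (h : ℚ) := by exact_mod_cast hh
  have hfil := (hFIL l d k K Φ ar φ hk hΦ).2 F₂
  obtain ⟨_, _, _, hcard, _⟩ := hfil
  set c₂ := ((F₂.flatMap vsC).toFinset.filter (fun v => S v = true)).card with hc₂
  have hcardq : (c₂ : ℚ) ≤ ε * F.length := by
    rcases Nat.eq_zero_or_pos k with hk0 | hkpos
    · have h1 : F₂.flatMap vsC = [] := by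
        rw [List.flatMap_eq_nil_iff]
        intro c _
        have h2 := hk c.1
        have h3 : (vsC c).length = 0 := by
          unfold vsC
          rw [List.length_ofFn]
          omega
        exact List.length_eq_zero_iff.1 h3
      have h2 : c₂ = 0 := by
        rw [hc₂, h1]
        rfl
      rw [h2]
      push_cast
      positivity
    · have hDpos : 0 < D := by
        rcases Nat.eq_zero_or_pos D with h1 | h1
        · rw [h1, zero_mul] at hlen
          omega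
        · exact h1
      have hKpos : 0 < K := by
        rcases Nat.eq_zero_or_pos K with h1 | h1
        · rw [h1] at hK
          have h2 : (0 : ℚ) < 2 * k * D * (k + 1) := by
            have h3 : (0 : ℚ) < (k : ℚ) := by exact_mod_cast hkpos
            have h4 : (0 : ℚ) < (D : ℚ) := by exact_mod_cast hDpos
            positivity
          push_cast at hK
          rw [mul_zero] at hK
          exact absurd hK (not_le.2 h2)
        · exact h1
      have hKq : (0 : ℚ) < (K : ℚ) := by exact_mod_cast hKpos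
      have h1 : K * c₂ ≤ k * (D * ((k + 1) * F.length)) := by
        refine le_trans hcard (Nat.mul_le_mul_left k (le_trans hlen (Nat.mul_le_mul_left D ?_)))
        rw [Nat.add_mul, one_mul]
        omega
      have h2 : (K : ℚ) * c₂ ≤ k * (D * ((k + 1) * F.length)) := by exact_mod_cast h1
      have h3 : (K : ℚ) * c₂ ≤ K * (ε * F.length) := by
        have h4 : (2 * k * D * (k + 1) : ℚ) * F.length ≤ ε * K * F.length :=
          mul_le_mul_of_nonneg_right hK hmq.le
        have h5 : (0 : ℚ) ≤ k * (D * ((k + 1) * F.length)) := by positivity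
        nlinarith
      exact le_of_mul_le_mul_left h3 hKq
  have hcard' : (((blo L k F).flatMap vsC).toFinset.filter
      (fun x => S (nu3 x) = true)).card ≤ c₂ := by
    refine Finset.card_le_card_of_injOn nu3 ?_ (hINJ.2.1.injOn)
    intro x hx
    have hx' := (Finset.mem_filter.1 (Finset.mem_coe.1 hx)).2
    refine Finset.mem_coe.2 (Finset.mem_filter.2 ⟨?_, hx'⟩)
    have h1 : K < dgV F₂ (nu3 x) := of_decide_eq_true hx'
    rw [List.mem_toFinset]
    unfold dgV at h1
    exact List.count_pos_iff.1 (by omega)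
  have hBOr := hBO l k L h ar F hk hh hL hPrp (fun x => S (nu3 x))
  have hoB : ((orV (fun x => S (nu3 x)) (blo L k F) : ℕ) : ℚ) ≤
      2 * ε * ((L ^ k * F.length : ℕ) : ℚ) := by
    have h1 : h * orV (fun x => S (nu3 x)) (blo L k F) ≤ L ^ k * (h * c₂ + k * F.length) :=
      le_trans hBOr (Nat.mul_le_mul_left _ (Nat.add_le_add_right (Nat.mul_le_mul_left h hcard') _))
    have h2 : (h : ℚ) * (orV (fun x => S (nu3 x)) (blo L k F) : ℕ) ≤
        (L : ℚ) ^ k * (h * c₂ + k * F.length) := by exact_mod_cast h1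
    have hLk : (0 : ℚ) < (L : ℚ) ^ k := by positivity
    have h3 : (h : ℚ) * c₂ ≤ h * (ε * F.length) := mul_le_mul_of_nonneg_left hcardq hhq.le
    have h4 : (k : ℚ) * F.length ≤ ε * h * F.length := mul_le_mul_of_nonneg_right hkh hmq.le
    have h5 : (L : ℚ) ^ k * (h * c₂ + k * F.length) ≤
        (L : ℚ) ^ k * (h * (2 * ε * F.length)) := by
      refine mul_le_mul_of_nonneg_left ?_ hLk.le
      nlinarith
    have h6 : (h : ℚ) * (orV (fun x => S (nu3 x)) (blo L k F) : ℕ) ≤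
        h * (2 * ε * ((L ^ k * F.length : ℕ) : ℚ)) := by
      refine le_trans h2 (le_trans h5 (le_of_eq ?_))
      push_cast
      ring
    exact le_of_mul_le_mul_left h6 hhq
  -- the comparison
  set a₀ : ℕ → Fin d := fun _ => ⟨0, hd⟩ with ha₀
  have hM : (0 : ℚ) < ((L ^ k * F.length : ℕ) : ℚ) := by
    have h1 : 0 < L ^ k * F.length := Nat.mul_pos (Nat.pow_pos hLpos) hm
    exact_mod_cast h1
  have h1 := (abs_le.1 (hcomb a₀ S)).2
  have h2 := (abs_le.1 (hval a₀)).1
  rw [add_div, add_div] at h1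
  have h3 : ((orV (fun x => S (nu3 x)) (blo L k F) : ℕ) : ℚ) / ((L ^ k * F.length : ℕ) : ℚ) ≤
      2 * ε := by
    rw [div_le_iff₀ hM]
    exact hoB
  have h4 : ((orV S F₂ : ℕ) : ℚ) / F₂.length ≤ 4 * ε := by linarith
  rwa [div_le_iff₀ hm₂q] at h4

theorem p_SMP : S_BL → S_BS → S_BO → S_HAT → S_FIL → HG.S_INJ → S_SMP := by
  intro hBL hBS hBO hHAT hFIL hINJ l d k Φ ar φ R c s η ε D K h F F₂ hd hk hΦ hη hε hε8 hεΦ hεs
    hh hkh hK hF hPrp hF₂ hsub hlen hz
  obtain ⟨hor, hval⟩ := SMP_or_le hBL hBO hHAT hFIL hINJ φ ε D K h F F₂ hd hk hΦ hε hh hkh hK hF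
    hPrp hF₂ hlen hz
  have hm : 0 < F.length := List.length_pos_iff.2 hF
  have hm₂ : 0 < F₂.length := List.length_pos_iff.2 hF₂
  set L := h * (k * F.length + 1) with hL
  have hLpos : 0 < L := Nat.mul_pos hh (Nat.succ_pos _)
  have hmq : (0 : ℚ) < (F.length : ℚ) := by exact_mod_cast hm
  have hm₂q : (0 : ℚ) < (F₂.length : ℚ) := by exact_mod_cast hm₂
  have hM : (0 : ℚ) < ((L ^ k * F.length : ℕ) : ℚ) := by
    have h1 : 0 < L ^ k * F.length := Nat.mul_pos (Nat.pow_pos hLpos) hm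
    exact_mod_cast h1
  obtain ⟨hocc, hmem, hdel, _, hfv⟩ := (hFIL l d k K Φ ar φ hk hΦ).2 F₂
  have hdelq : ((lgt K F₂).length : ℚ) +
      ((orV (fun v => decide (K < dgV F₂ v)) F₂ : ℕ) : ℚ) = (F₂.length : ℚ) := by
    exact_mod_cast hdel
  have hm₃lo : (1 - 4 * ε) * (F₂.length : ℚ) ≤ ((lgt K F₂).length : ℚ) := by linarith
  have hm₃hi : ((lgt K F₂).length : ℚ) ≤ (F₂.length : ℚ) := by
    have h1 : (0 : ℚ) ≤ ((orV (fun v => decide (K < dgV F₂ v)) F₂ : ℕ) : ℚ) := by positivity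
    linarith
  have hm₃pos : (0 : ℚ) < ((lgt K F₂).length : ℚ) := by
    refine lt_of_lt_of_le (mul_pos ?_ hm₂q) hm₃lo
    linarith
  have hbl := hBL l d k L ar φ R F hk hPrp
  refine ⟨?_, hocc, ?_, ?_, ?_⟩
  · intro h1
    rw [h1] at hm₃pos
    simp at hm₃pos
  · intro x hx
    have h1 := hsub x (hmem x hx)
    unfold bloN at h1
    obtain ⟨y, hy, rfl⟩ := List.mem_map.1 h1
    have h2 := hbl.2.1 y hy
    have h3 : vsC (mapC nu3 y) = (vsC y).map nu3 := by
      unfold vsC mapC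
      rw [List.map_ofFn]
      rfl
    rw [h3]
    exact h2.map hINJ.2.1
  · rintro ⟨a, ha, hac⟩
    set a₁ : ℕ → Fin d := Function.extend nu3 (fun x : ℕ × ℕ => a x.1) (fun _ => a 0) with ha₁
    have ha₁' : (fun x : ℕ × ℕ => a₁ (nu3 x)) = fun x => a x.1 := by
      funext x
      exact hINJ.2.1.extend_apply (fun x : ℕ × ℕ => a x.1) (fun _ => a 0) x
    obtain ⟨hv, hsat⟩ := hbl.2.2.2.2 a
    refine ⟨a₁, ?_, ?_⟩
    · intro x hx
      have h1 := hsub x (hmem x hx)
      unfold bloN at h1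
      obtain ⟨y, hy, rfl⟩ := List.mem_map.1 h1
      have h2 := hsat ha y hy
      have h3 : (fun j => a₁ ((mapC nu3 y).2 j)) = fun j => a (y.2 j).1 := by
        funext j
        exact congrFun ha₁' (y.2 j)
      rw [h3]
      exact h2
    · have h1 := (abs_le.1 (hval a₁)).1
      rw [ha₁', hv] at h1
      have h2 : c ≤ ((L ^ k * valV φ a F : ℕ) : ℚ) / ((L ^ k * F.length : ℕ) : ℚ) := by
        rw [le_div_iff₀ hM]
        have hLk : (0 : ℚ) < (L : ℚ) ^ k := by positivity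
        have h3 := mul_le_mul_of_nonneg_left hac hLk.le
        push_cast
        linarith
      have h3 : c - ε ≤ (valV φ a₁ F₂ : ℚ) / F₂.length := by linarith
      rw [le_div_iff₀ hm₂q] at h3
      have h4 := (hfv a₁).2
      have h5 : (valV φ a₁ F₂ : ℚ) ≤ valV φ a₁ (lgt K F₂) +
          Φ * ((orV (fun v => decide (K < dgV F₂ v)) F₂ : ℕ) : ℚ) := by exact_mod_cast h4
      have h6 : (Φ : ℚ) * ((orV (fun v => decide (K < dgV F₂ v)) F₂ : ℕ) : ℚ) ≤
          Φ * (4 * ε * (F₂.length : ℚ)) := mul_le_mul_of_nonneg_left hor (by positivity)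
      have h7 : ε * (1 + 4 * Φ) * (F₂.length : ℚ) ≤ η * F₂.length :=
        mul_le_mul_of_nonneg_right hεΦ hm₂q.le
      have h8 : (c - η) * (F₂.length : ℚ) ≤ valV φ a₁ (lgt K F₂) := by nlinarith
      rcases le_or_gt 0 (c - η) with h9 | h9
      · exact le_trans (mul_le_mul_of_nonneg_left hm₃hi h9) h8
      · have h10 : (c - η) * ((lgt K F₂).length : ℚ) ≤ 0 :=
          mul_nonpos_of_nonpos_of_nonneg h9.le hm₃pos.le
        exact le_trans h10 (by positivity)
  · intro hNT a'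
    obtain ⟨a, ha⟩ := hBS l d k L ar φ F hk hLpos hPrp (fun x => a' (nu3 x))
    have h1 := hNT a
    have hspos : 0 < s := by
      by_contra hs
      have h2 : s * (F.length : ℚ) ≤ 0 := mul_nonpos_of_nonpos_of_nonneg (not_lt.1 hs) hmq.le
      have h3 : (0 : ℚ) ≤ ((valV φ a F : ℕ) : ℚ) := by positivity
      linarith
    have h2 : (valV φ (fun x => a' (nu3 x)) (blo L k F) : ℚ) /
        ((L ^ k * F.length : ℕ) : ℚ) < s := by
      rw [div_lt_iff₀ hM]
      have h3 : ((valV φ (fun x => a' (nu3 x)) (blo L k F) : ℕ) : ℚ) ≤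
          (L : ℚ) ^ k * ((valV φ a F : ℕ) : ℚ) := by exact_mod_cast ha
      have hLk : (0 : ℚ) < (L : ℚ) ^ k := by positivity
      have h4 := mul_lt_mul_of_pos_left h1 hLk
      refine lt_of_le_of_lt h3 (lt_of_lt_of_eq h4 ?_)
      push_cast
      ring
    have h3 := (abs_le.1 (hval a')).2
    have h4 : (valV φ a' F₂ : ℚ) / F₂.length < s + ε := by linarith
    rw [div_lt_iff₀ hm₂q] at h4
    have h5 : (valV φ a' (lgt K F₂) : ℚ) ≤ valV φ a' F₂ := by exact_mod_cast (hfv a').1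
    rw [abs_of_pos hspos] at hεs
    have h6 : (s + η) * ((1 - 4 * ε) * (F₂.length : ℚ)) ≤ (s + η) * ((lgt K F₂).length : ℚ) :=
      mul_le_mul_of_nonneg_left hm₃lo (by linarith)
    have h7 : ε * (1 + 4 * (s + η)) * (F₂.length : ℚ) ≤ η * F₂.length :=
      mul_le_mul_of_nonneg_right hεs hm₂q.le
    nlinarith

end Pool.Agent.Lib.MP_87d05f_lc.TH
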