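import Mathlib
import Pool.Agent.Lib.MP_87d05f_lc.TH.Stm
import Pool.Agent.Lib.MP_87d05f_lc.SP.P.nsep

set_option autoImplicit false

/-!
# MP_87d05f_lc, THRESHOLDS: piece T1, the first step
-/

namespace Pool.Agent.Lib.MP_87d05f_lc.TH

open Pool.Agent.Lib.MP_87d05f_lc Pool.Agent.Lib.MP_87d05f_lc.HG Pool.Agent.PolyTime Turing

section aux

variable {l d : ℕ} {ar : Fin l → ℕ} {φ : (i : Fin l) → (Fin (ar i) → Fin d) → ℕ}
  {R : (i : Fin l) → (Fin (ar i) → Fin d) → Bool} {c s η : ℚ} {F F' : List (Con ar)}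

private theorem T1_yes (hF : F ≠ []) (hF' : F' ≠ []) (hmem : ∀ e ∈ F', e ∈ F)
    (hval : ∀ a : ℕ → Fin d, |(valC φ a F' : ℚ) / F'.length -
      (valC φ a F : ℚ) / F.length| ≤ η) (h : YT φ R c F) : YT φ R (c - η) F' := by
  obtain ⟨a, ha1, ha2⟩ := h
  refine ⟨a, fun e he => ha1 e (hmem e he), ?_⟩
  have h0 : (0 : ℚ) < F.length := by exact_mod_cast List.length_pos_of_ne_nil hF
  have h0' : (0 : ℚ) < F'.length := by exact_mod_cast List.length_pos_of_ne_nil hF'
  have h1 : (valV φ a F' : ℚ) = valC φ a F' := rfl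
  have h2 : (valV φ a F : ℚ) = valC φ a F := rfl
  rw [h2] at ha2
  rw [h1]
  have h3 := (abs_le.1 (hval a)).1
  have h4 : c ≤ (valC φ a F : ℚ) / F.length := by
    rw [le_div_iff₀ h0]
    exact ha2
  have h5 : c - η ≤ (valC φ a F' : ℚ) / F'.length := by linarith
  rw [le_div_iff₀ h0'] at h5
  exact h5

private theorem T1_no (hF : F ≠ []) (hF' : F' ≠ [])
    (hval : ∀ a : ℕ → Fin d, |(valC φ a F' : ℚ) / F'.length -
      (valC φ a F : ℚ) / F.length| ≤ η) (h : NT φ s F) : NT φ (s + η) F' := by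
  intro a
  have ha2 := h a
  have h0 : (0 : ℚ) < F.length := by exact_mod_cast List.length_pos_of_ne_nil hF
  have h0' : (0 : ℚ) < F'.length := by exact_mod_cast List.length_pos_of_ne_nil hF'
  have h1 : (valV φ a F' : ℚ) = valC φ a F' := rfl
  have h2 : (valV φ a F : ℚ) = valC φ a F := rfl
  rw [h2] at ha2
  rw [h1]
  have h3 := (abs_le.1 (hval a)).2
  have h4 : (valC φ a F : ℚ) / F.length < s := by
    rw [div_lt_iff₀ h0]
    exact ha2
  have h5 : (valC φ a F' : ℚ) / F'.length < s + η := by linarith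
  rw [div_lt_iff₀ h0'] at h5
  exact h5

end aux

theorem p_T1 : SP.SpmS → S_T1 := by
  intro hspm l d ar φ R c s η b hd hη hb
  obtain ⟨D, hD⟩ := hspm d l ar φ hd η hη b hb
  have hfind := hD (List (Con ar)) (codeC (ar := ar)) (fun F => F ≠ [] ∧ Prp F) id nvC parseW
    parseW_ptime (fun F _ => ⟨by
      rw [codeC_eq, parseW_encW]
      rfl, le_rfl, nvC_le F⟩)
  refine ⟨2 * b * D + 1, by omega, fun hsep => ?_⟩
  obtain ⟨h₁, hh₁⟩ : ∃ h₁ : List Bool → ℕ, h₁ = fun x : List Bool =>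
    mydiv (ded ((parseW x).flatMap List.tail)).length b := ⟨_, rfl⟩
  have hh₁P : PTime h₁ := by
    have h1 : PTime (fun x : List Bool => (parseW x).flatMap List.tail) :=
      PTime.flatMap (l := fun x : List Bool => parseW x)
        (f := fun (_ : List Bool) (c : List (List Bool)) => c.tail) parseW_ptime
        (PTime.tail PTime.snd)
    rw [hh₁]
    exact mydiv_ptime (PTime.length (ded_ptime h1)) (PTime.const b)
  have hh₁e : ∀ F : List (Con ar), h₁ (codeC F) = nvC F / b := by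
    intro F
    rw [hh₁]
    change mydiv (ded ((parseW (codeC F)).flatMap List.tail)).length b = _
    rw [codeC_eq, parseW_encW, nvC_eq, mydiv_eq hb]
  have hQ : PolyB (fun L => D * (L + 1) * L) :=
    ((PolyB.const D).mul (PolyB.id.add (PolyB.const 1))).mul PolyB.id
  have hgood : ∀ F : List (Con ar), F ≠ [] → ∀ w, SP.goodS' φ η D (id F) w →
      ∃ F' : List (Con ar), w = codeC F' ∧ F' ≠ [] ∧ (∀ e ∈ F', e ∈ F) ∧
        F'.length ≤ D * (nvC F + 1) ∧ ∀ a : ℕ → Fin d, |(valC φ a F' : ℚ) / F'.length -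
          (valC φ a F : ℚ) / F.length| ≤ η := fun F hF w hw => hw.2 hF
  refine seq_sep (en₁ := codeC) (en₂ := codeC) (V₁ := fun F => F ≠ [] ∧ Prp F)
    (V₂ := fun F => F ≠ [] ∧ Prp F) (μ₁ := nvC) (μ₂ := List.length)
    (b₁ := b) (b₂ := 2 * b * D + 1) (h₁ := h₁) (f := fun y => y.2) (h := fun y => h₁ y.1)
    hQ hh₁P PTime.snd (hh₁P.comp PTime.fst) ?_ ?_ ?_ ?_ hfind hsep
  · intro F _
    exact nvC_le F
  · intro F _
    rw [hh₁e]
    exact ⟨le_rfl, le_rfl⟩
  · intro F hF w hw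
    obtain ⟨F', rfl, -, hmem, hlen, -⟩ := hgood F hF.1 w hw
    have h1 := SP.nsep_code hmem
    exact h1.trans (Nat.mul_le_mul (hlen.trans (Nat.mul_le_mul_left _
      (Nat.add_le_add_right (nvC_le F) 1))) le_rfl)
  · intro F hF w hw
    obtain ⟨F', rfl, hne, hmem, hlen, hval⟩ := hgood F hF.1 w hw
    refine ⟨F', ⟨hne, fun e he => hF.2 e (hmem e he)⟩, rfl,
      T1_yes hF.1 hne hmem hval, T1_no hF.1 hne hval, ?_, (hh₁e F).le⟩
    change F'.length / (2 * b * D + 1) ≤ h₁ (codeC F)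
    rw [hh₁e]
    exact SP.nsep_div hb hlen

end Pool.Agent.Lib.MP_87d05f_lc.TH
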