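import Mathlib
import Pool.Agent.Lib.MP_87d05f_lc.TH.Stm
import Pool.Agent.Lib.MP_87d05f_lc.SP.P.nsep

set_option autoImplicit false

/-!
# MP_87d05f_lc, THRESHOLDS: piece T2, the second step
-/

namespace Pool.Agent.Lib.MP_87d05f_lc.TH

open Pool.Agent.Lib.MP_87d05f_lc Pool.Agent.Lib.MP_87d05f_lc.HG Pool.Agent.PolyTime Turing

section aux

variable {l d : ℕ} {ar : Fin l → ℕ}

private theorem T2_bound (φ : (i : Fin l) → (Fin (ar i) → Fin d) → ℕ) :
    ∃ Φ : ℕ, ∀ i x, φ i x ≤ Φ := by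
  refine ⟨∑ i, ∑ x, φ i x, fun i x => ?_⟩
  refine le_trans ?_ (Finset.single_le_sum (f := fun i => ∑ x, φ i x)
    (fun _ _ => Nat.zero_le _) (Finset.mem_univ i))
  exact Finset.single_le_sum (f := fun x => φ i x) (fun _ _ => Nat.zero_le _)
    (Finset.mem_univ x)

private theorem T2_eps (Φ : ℕ) (s η : ℚ) (hη : 0 < η) : ∃ ε : ℚ, 0 < ε ∧ ε ≤ 1 / 8 ∧
    ε * (1 + 4 * Φ) ≤ η ∧ ε * (1 + 4 * (|s| + η)) ≤ η := by
  have hΦ : (0 : ℚ) < 1 + 4 * Φ := by positivity
  have hs : (0 : ℚ) < 1 + 4 * (|s| + η) := by positivity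
  refine ⟨min (1 / 8) (min (η / (1 + 4 * Φ)) (η / (1 + 4 * (|s| + η)))), ?_, min_le_left _ _,
    ?_, ?_⟩
  · exact lt_min (by norm_num) (lt_min (div_pos hη hΦ) (div_pos hη hs))
  · rw [← le_div_iff₀ hΦ]
    exact (min_le_right _ _).trans (min_le_left _ _)
  · rw [← le_div_iff₀ hs]
    exact (min_le_right _ _).trans (min_le_right _ _)

private theorem T2_nat {ε x : ℚ} (hε : 0 < ε) : ∃ h : ℕ, 0 < h ∧ x ≤ ε * h := by
  obtain ⟨n, hn⟩ := exists_nat_ge (x / ε)
  refine ⟨n + 1, Nat.succ_pos n, ?_⟩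
  rw [div_le_iff₀ hε] at hn
  push_cast
  nlinarith

private theorem T2_flat (G : List (CV ar (ℕ × ℕ))) :
    (G.map (mapC nu3)).flatMap vsC = (G.flatMap vsC).map nu3 := by
  rw [List.flatMap_map, List.map_flatMap]
  refine List.flatMap_congr fun c _ => ?_
  unfold vsC mapC
  rw [List.map_ofFn]
  rfl

private theorem T2_nv (L k : ℕ) (F : List (Con ar)) :
    nvC (bloN L k F) ≤ ((blo L k F).flatMap vsC).toFinset.card := by
  have h1 : nvC (bloN L k F) = (((blo L k F).flatMap vsC).map nu3).toFinset.card := by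
    rw [← T2_flat]
    rfl
  rw [h1]
  have h2 : (((blo L k F).flatMap vsC).map nu3).toFinset =
      ((blo L k F).flatMap vsC).toFinset.image nu3 := by
    ext w
    simp
  rw [h2]
  exact Finset.card_image_le

private theorem T2_places (F : List (Con ar)) : (F.flatMap vsC).length ≤ (codeC F).length := by
  rw [codeC_eq]
  refine le_trans ?_ (encW_length _)
  rw [List.length_flatMap]
  refine le_trans ?_ (Nat.le_add_left _ _)
  rw [List.map_map]
  refine List.sum_le_sum fun c _ => ?_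
  simp [wordC, vsC]

private theorem T2_find {I : Type} {en : I → List Bool} {V : I → Prop}
    {good : I → List Bool → Prop} {μ : I → ℕ} {k b : ℕ}
    (h : GFind en V good (fun i => (k + 1) * μ i) ((k + 1) * b)) : GFind en V good μ b := by
  unfold GFind at h ⊢
  have h1 : ∀ i, (k + 1) * μ i / ((k + 1) * b) = μ i / b := fun i =>
    Nat.mul_div_mul_left _ _ (Nat.succ_pos k)
  simp only [h1] at h
  exact h

private theorem T2_div {D k m n b : ℕ} (hm : 0 < m) (h : n ≤ D * (k * m + 1)) :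
    n / ((D + 1) * (k + 1) * b) ≤ m / b := by
  have h1 : n ≤ m * ((D + 1) * (k + 1)) := by
    have h2 : k * m + 1 ≤ (k + 1) * m := by
      rw [Nat.add_mul, Nat.one_mul]
      omega
    calc n ≤ D * (k * m + 1) := h
      _ ≤ (D + 1) * ((k + 1) * m) := Nat.mul_le_mul (Nat.le_succ D) h2
      _ = m * ((D + 1) * (k + 1)) := by ring
  calc n / ((D + 1) * (k + 1) * b) ≤ m * ((D + 1) * (k + 1)) / ((D + 1) * (k + 1) * b) :=
        Nat.div_le_div_right h1
    _ = m * ((D + 1) * (k + 1)) / (b * ((D + 1) * (k + 1))) := by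
        rw [Nat.mul_comm ((D + 1) * (k + 1)) b]
    _ = m / b := Nat.mul_div_mul_right _ _ (by positivity)

end aux

theorem p_T2 : SP.SpmS → S_BL → S_BP → S_FIL → S_SMP → HG.S_INJ → S_T2 := by
  intro hspm hbl hbp hfil hsmp _ l d ar φ R c s η b hd hη hb
  obtain ⟨k, hk⟩ := SP.nsep_K ar
  obtain ⟨Φ, hΦ⟩ := T2_bound φ
  obtain ⟨ε, hε0, hε8, hεΦ, hεs⟩ := T2_eps Φ s η hη
  obtain ⟨h, hh0, hkh⟩ := T2_nat (x := (k : ℚ)) hε0
  obtain ⟨fB, hfB, hfBe⟩ := hbp l k h ar hk
  obtain ⟨D, hD⟩ := hspm (2 * d) l ar (hat φ) (by omega) ε hε0 ((k + 1) * b)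
    (Nat.mul_pos (Nat.succ_pos k) hb)
  obtain ⟨K, -, hK⟩ := T2_nat (x := (2 * k * D * (k + 1) : ℚ)) hε0
  obtain ⟨⟨ff, hff, hffe⟩, -⟩ := hfil l d k K Φ ar φ hk hΦ
  obtain ⟨bl, hbld⟩ : ∃ bl : List (Con ar) → List (Con ar), bl = fun F =>
    bloN (h * (k * F.length + 1)) k F := ⟨_, rfl⟩
  -- the number of variables of the regular instance
  have hnv : ∀ F : List (Con ar), Prp F → nvC (bl F) ≤ (F.flatMap vsC).length := by
    intro F hF
    rw [hbld]
    exact (T2_nv _ _ _).trans (hbl l d k _ ar φ R F hk hF).2.2.1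
  have hnvk : ∀ F : List (Con ar), Prp F → nvC (bl F) ≤ k * F.length := by
    intro F hF
    exact (hnv F hF).trans (hbl l d k 0 ar φ R F hk hF).2.2.2.1
  have hne : ∀ F : List (Con ar), F ≠ [] → Prp F → bl F ≠ [] := by
    intro F hF0 hF
    apply List.ne_nil_of_length_pos
    rw [hbld]
    change 0 < (bloN (h * (k * F.length + 1)) k F).length
    unfold bloN
    rw [List.length_map, (hbl l d k _ ar φ R F hk hF).1]
    exact Nat.mul_pos (Nat.pow_pos (Nat.mul_pos hh0 (Nat.succ_pos _)))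
      (List.length_pos_of_ne_nil hF0)
  have hfind := T2_find (hD (List (Con ar)) (codeC (ar := ar)) (fun F => F ≠ [] ∧ Prp F) bl
    (fun F => (k + 1) * F.length) fB hfB (fun F hF => by
      refine ⟨?_, ?_, (hnv F hF.2).trans (T2_places F)⟩
      · rw [hfBe, hbld]
      · refine (hnvk F hF.2).trans (Nat.mul_le_mul_right _ (Nat.le_succ k))))
  refine ⟨K, (D + 1) * (k + 1) * b, by positivity, fun hsep => ?_⟩
  obtain ⟨h₁, hh₁⟩ : ∃ h₁ : List Bool → ℕ, h₁ = fun x : List Bool =>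
    mydiv (parseW x).length b := ⟨_, rfl⟩
  have hh₁P : PTime h₁ := by
    rw [hh₁]
    exact mydiv_ptime (PTime.length parseW_ptime) (PTime.const b)
  have hh₁e : ∀ F : List (Con ar), h₁ (codeC F) = F.length / b := by
    intro F
    rw [hh₁]
    change mydiv (parseW (codeC F)).length b = _
    rw [codeC_eq, parseW_encW, mydiv_eq hb, List.length_map]
  -- the code of the regular instance
  obtain ⟨P, hP⟩ := (encW_ptime hfB).sz_le
  have hcode : ∀ F : List (Con ar), (codeC (bl F)).length ≤ P.eval (4 * (codeC F).length + 1) := by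
    intro F
    have h1 : codeC (bl F) = encW (fB (codeC F)) := by
      rw [codeC_eq, hfBe, hbld]
    have h2 := length_le_sz (codeC (bl F))
    have h3 := (hP (codeC F)).trans (eval_mono P (sz_listBool_le (codeC F)))
    rw [← h1] at h3
    omega
  have hQ : PolyB (fun L => D * (L + 1) * P.eval (4 * L + 1)) :=
    ((PolyB.const D).mul (PolyB.id.add (PolyB.const 1))).mul
      (PolyB.eval P (((PolyB.const 4).mul PolyB.id).add (PolyB.const 1)))
  have hgood : ∀ F : List (Con ar), F ≠ [] → Prp F → ∀ w, SP.goodS' (hat φ) ε D (bl F) w →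
      ∃ F₂ : List (Con ar), w = codeC F₂ ∧ F₂ ≠ [] ∧ (∀ e ∈ F₂, e ∈ bl F) ∧
        F₂.length ≤ D * (nvC (bl F) + 1) ∧ ∀ z : ℕ → Fin (2 * d),
          |(valC (hat φ) z F₂ : ℚ) / F₂.length -
            (valC (hat φ) z (bl F) : ℚ) / (bl F).length| ≤ ε :=
    fun F hF0 hF w hw => hw.2 (hne F hF0 hF)
  refine seq_sep (en₁ := codeC) (en₂ := codeC) (V₁ := fun F => F ≠ [] ∧ Prp F)
    (V₂ := fun F => VK K F ∧ Prp F) (μ₁ := List.length) (μ₂ := List.length)
    (b₁ := b) (b₂ := (D + 1) * (k + 1) * b) (h₁ := h₁) (f := fun y => ff y.2)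
    (h := fun y => h₁ y.1)
    hQ hh₁P (hff.comp PTime.snd) (hh₁P.comp PTime.fst) ?_ ?_ ?_ ?_ hfind hsep
  · intro F _
    exact length_le_code F
  · intro F _
    rw [hh₁e]
    exact ⟨le_rfl, le_rfl⟩
  · intro F hF w hw
    obtain ⟨F₂, rfl, -, hmem, hlen, -⟩ := hgood F hF.1 hF.2 w hw
    have h1 := SP.nsep_code hmem
    exact h1.trans (Nat.mul_le_mul (hlen.trans (Nat.mul_le_mul_left _
      (Nat.add_le_add_right ((hnv F hF.2).trans (T2_places F)) 1))) (hcode F))
  · intro F hF w hw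
    obtain ⟨F₂, rfl, hne2, hmem, hlen, hval⟩ := hgood F hF.1 hF.2 w hw
    have hlen' : F₂.length ≤ D * (k * F.length + 1) :=
      hlen.trans (Nat.mul_le_mul_left _ (Nat.add_le_add_right (hnvk F hF.2) 1))
    have hmem' : ∀ e ∈ F₂, e ∈ bloN (h * (k * F.length + 1)) k F := by
      intro e he
      have := hmem e he
      rw [hbld] at this
      exact this
    have hval' : ∀ z : ℕ → Fin (2 * d), |(valV (hat φ) z F₂ : ℚ) / F₂.length -
        (valV (hat φ) z (bloN (h * (k * F.length + 1)) k F) : ℚ) /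
          (bloN (h * (k * F.length + 1)) k F).length| ≤ ε := by
      intro z
      have := hval z
      rw [hbld] at this
      exact this
    obtain ⟨g1, g2, g3, g4, g5⟩ := hsmp l d k Φ ar φ R c s η ε D K h F F₂ hd hk hΦ hη hε0 hε8
      hεΦ hεs hh0 hkh hK hF.1 hF.2 hne2 hmem' hlen' hval'
    refine ⟨lgt K F₂, ⟨⟨g1, g2⟩, g3⟩, (hffe F₂).symm, g4, g5, ?_, (hh₁e F).le⟩
    change (lgt K F₂).length / ((D + 1) * (k + 1) * b) ≤ h₁ (codeC F)
    rw [hh₁e]
    refine T2_div (List.length_pos_of_ne_nil hF.1) (le_trans ?_ hlen')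
    unfold lgt
    exact List.length_filter_le _ _

end Pool.Agent.Lib.MP_87d05f_lc.TH
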