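import Pool.Agent.Lib.MP_87d05f_lc.TH.Stm
import Mathlib

set_option autoImplicit false

/-!
# MP_87d05f_lc, thresholds, piece T3: the third step (the lift)
-/

namespace Pool.Agent.Lib.MP_87d05f_lc.TH

open Pool.Agent.Lib.MP_87d05f_lc Pool.Agent.Lib.MP_87d05f_lc.HG Pool.Agent.PolyTime Turing

private theorem T3_val {l d : ℕ} {ar : Fin l → ℕ} {V V' : Type}
    (φ : (i : Fin l) → (Fin (ar i) → Fin d) → ℕ) (ν : V → V') (a : V' → Fin d)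
    (L : List (CV ar V)) :
    valV φ a (L.map (mapC ν)) = valV φ (fun x => a (ν x)) L := by
  unfold valV
  rw [List.map_map]
  rfl

private theorem T3_bound {l d : ℕ} {ar : Fin l → ℕ}
    (φ : (i : Fin l) → (Fin (ar i) → Fin d) → ℕ) : ∃ Φ : ℕ, ∀ i x, φ i x ≤ Φ := by
  refine ⟨∑ i, ∑ x, φ i x, fun i x => ?_⟩
  exact (Finset.single_le_sum (f := fun x => φ i x) (fun _ _ => Nat.zero_le _)
    (Finset.mem_univ x)).trans (Finset.single_le_sum (f := fun i => ∑ x, φ i x)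
      (fun _ _ => Nat.zero_le _) (Finset.mem_univ i))

private theorem T3_valle {l d : ℕ} {ar : Fin l → ℕ} {V : Type}
    (φ : (i : Fin l) → (Fin (ar i) → Fin d) → ℕ) (Φ : ℕ) (hΦ : ∀ i x, φ i x ≤ Φ)
    (a : V → Fin d) (L : List (CV ar V)) : valV φ a L ≤ Φ * L.length := by
  unfold valV
  induction L with
  | nil => simp
  | cons c L ih =>
    rw [List.map_cons, List.sum_cons, List.length_cons, Nat.mul_succ]
    have := hΦ c.1 (fun j => a (c.2 j))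
    omega

/-- the arithmetic of the YES case -/
private theorem T3_yes (c η : ℚ) (hη : 0 < η) (h CN m m₄ v v₄ Φ : ℕ) (hh : 2 ≤ h) (hm : 0 < m)
    (hηh : (Φ : ℚ) ≤ η * h) (h1 : c * (m : ℚ) ≤ (v : ℚ)) (h2 : v ≤ Φ * m) (h3 : m₄ ≤ CN * m)
    (h4 : (h - 1) * CN * v ≤ h * v₄) : (c - η) * (m₄ : ℚ) ≤ (v₄ : ℚ) := by
  by_cases hc : c - η ≤ 0
  · exact (mul_nonpos_of_nonpos_of_nonneg hc (Nat.cast_nonneg _)).trans (Nat.cast_nonneg _)
  · have hc0 : 0 < c := by linarith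
    have hm' : (0 : ℚ) < (m : ℚ) := by exact_mod_cast hm
    have h2' : (v : ℚ) ≤ (Φ : ℚ) * (m : ℚ) := by exact_mod_cast h2
    have h3' : (m₄ : ℚ) ≤ (CN : ℚ) * (m : ℚ) := by exact_mod_cast h3
    have hh' : (2 : ℚ) ≤ (h : ℚ) := by exact_mod_cast hh
    have h4' : ((h : ℚ) - 1) * (CN : ℚ) * (v : ℚ) ≤ (h : ℚ) * (v₄ : ℚ) := by
      have := (Nat.cast_le (α := ℚ)).2 h4
      rw [Nat.cast_mul, Nat.cast_mul, Nat.cast_mul, Nat.cast_sub (by omega), Nat.cast_one] at this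
      exact this
    have hcΦ : c ≤ (Φ : ℚ) := by
      have : c * (m : ℚ) ≤ (Φ : ℚ) * (m : ℚ) := h1.trans h2'
      exact le_of_mul_le_mul_right this hm'
    have e1 : (CN : ℚ) * (c * (m : ℚ)) ≤ (CN : ℚ) * (v : ℚ) :=
      mul_le_mul_of_nonneg_left h1 (Nat.cast_nonneg _)
    have e2 : c * (m₄ : ℚ) ≤ c * ((CN : ℚ) * (m : ℚ)) := mul_le_mul_of_nonneg_left h3' hc0.le
    have e3 : ((h : ℚ) - 1) * (c * (m₄ : ℚ)) ≤ ((h : ℚ) - 1) * ((CN : ℚ) * (v : ℚ)) :=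
      mul_le_mul_of_nonneg_left (by linarith) (by linarith)
    have e4 : c * (m₄ : ℚ) ≤ (η * h) * (m₄ : ℚ) :=
      mul_le_mul_of_nonneg_right (hcΦ.trans hηh) (Nat.cast_nonneg _)
    have e5 : (h : ℚ) * ((c - η) * (m₄ : ℚ)) ≤ (h : ℚ) * (v₄ : ℚ) := by
      linarith
    exact le_of_mul_le_mul_left e5 (by linarith)

/-- the arithmetic of the NO case -/
private theorem T3_no (s η : ℚ) (h CN m m₄ v v₄ P : ℕ) (hh : 2 ≤ h) (hm : 0 < m)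
    (hCN : 0 < CN) (hη : 0 < η) (hηh : (P : ℚ) + s + η ≤ η * h) (h1 : (v : ℚ) < s * (m : ℚ))
    (h3 : (h - 1) * CN * m ≤ h * m₄) (h4 : h * v₄ ≤ CN * (h * v + P * m)) :
    (v₄ : ℚ) < (s + η) * (m₄ : ℚ) := by
  have hm' : (0 : ℚ) < (m : ℚ) := by exact_mod_cast hm
  have hCN' : (0 : ℚ) < (CN : ℚ) := by exact_mod_cast hCN
  have hh' : (2 : ℚ) ≤ (h : ℚ) := by exact_mod_cast hh
  have hs : 0 < s := by
    have h0 : (0 : ℚ) < s * (m : ℚ) := lt_of_le_of_lt (Nat.cast_nonneg _) h1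
    exact (mul_pos_iff_of_pos_right hm').1 h0
  have h3' : ((h : ℚ) - 1) * (CN : ℚ) * (m : ℚ) ≤ (h : ℚ) * (m₄ : ℚ) := by
    have := (Nat.cast_le (α := ℚ)).2 h3
    rw [Nat.cast_mul, Nat.cast_mul, Nat.cast_mul, Nat.cast_sub (by omega), Nat.cast_one] at this
    exact this
  have h4' : (h : ℚ) * (v₄ : ℚ) ≤ (CN : ℚ) * ((h : ℚ) * (v : ℚ) + (P : ℚ) * (m : ℚ)) := by
    exact_mod_cast h4
  have e1 : (CN : ℚ) * ((h : ℚ) * (v : ℚ) + (P : ℚ) * (m : ℚ)) <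
      (CN : ℚ) * ((h : ℚ) * (s * (m : ℚ)) + (P : ℚ) * (m : ℚ)) := by
    refine mul_lt_mul_of_pos_left ?_ hCN'
    have := mul_lt_mul_of_pos_left h1 (by linarith : (0 : ℚ) < (h : ℚ))
    linarith
  have e2 : (h : ℚ) * s + (P : ℚ) ≤ (s + η) * ((h : ℚ) - 1) := by linarith
  have e3 : (CN : ℚ) * ((h : ℚ) * (s * (m : ℚ)) + (P : ℚ) * (m : ℚ)) ≤
      (s + η) * (((h : ℚ) - 1) * (CN : ℚ) * (m : ℚ)) := by
    have := mul_le_mul_of_nonneg_left e2 (mul_pos hCN' hm').le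
    linarith
  have e4 : (s + η) * (((h : ℚ) - 1) * (CN : ℚ) * (m : ℚ)) ≤ (s + η) * ((h : ℚ) * (m₄ : ℚ)) :=
    mul_le_mul_of_nonneg_left h3' (by linarith)
  have e5 : (h : ℚ) * (v₄ : ℚ) < (h : ℚ) * ((s + η) * (m₄ : ℚ)) := by linarith
  exact lt_of_mul_lt_mul_left e5 (by linarith)

theorem p_T3 : HG.S_PAT → HG.S_RNC → HG.S_INJ → HG.S_LY → HG.S_LO → HG.S_LG → HG.S_LTR →
    S_LNV → S_LYV → S_T3 := by
  intro PAT RNC INJ LY LO LG LTR LNV LYV l d ar φ R c s η K hd hη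
  obtain ⟨Φ, hΦ⟩ := T3_bound φ
  obtain ⟨k, hkdef⟩ : ∃ k : ℕ, k = ∑ i : Fin l, ar i := ⟨_, rfl⟩
  have hk : ∀ i, ar i ≤ k := by
    intro i
    rw [hkdef]
    exact Finset.single_le_sum (f := ar) (fun _ _ => Nat.zero_le _) (Finset.mem_univ i)
  obtain ⟨n, hn⟩ := exists_nat_ge ((((d ^ k * Φ : ℕ) : ℚ) + |s| + η + (Φ : ℚ)) / η)
  obtain ⟨h, hhdef⟩ : ∃ h : ℕ, h = n + 2 := ⟨_, rfl⟩
  have hh2 : 2 ≤ h := by omega
  have hηh : ((d ^ k * Φ : ℕ) : ℚ) + |s| + η + (Φ : ℚ) ≤ η * h := by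
    rw [div_le_iff₀ hη] at hn
    have : (n : ℚ) ≤ (h : ℚ) := by
      have : n ≤ h := by omega
      exact_mod_cast this
    have := mul_le_mul_of_nonneg_left this hη.le
    linarith
  have hP0 : (0 : ℚ) ≤ ((d ^ k * Φ : ℕ) : ℚ) := Nat.cast_nonneg _
  have hΦ0 : (0 : ℚ) ≤ (Φ : ℚ) := Nat.cast_nonneg _
  have hs0 : (0 : ℚ) ≤ |s| := abs_nonneg s
  have hs1 : s ≤ |s| := le_abs_self s
  have hyes : (Φ : ℚ) ≤ η * h := by linarith
  have hno : ((d ^ k * Φ : ℕ) : ℚ) + s + η ≤ η * h := by linarith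
  obtain ⟨C, K', hC, hK', hpat⟩ := PAT k h (by omega)
  refine ⟨K * K', ?_⟩
  intro g
  obtain ⟨N, hN, H, hH⟩ := hpat (Fin k → Fin (K + 1)) 1 g Nat.one_pos
  obtain ⟨B, hB, hltr⟩ := LTR l k K N ar hk H
  refine ⟨B, hB, fun b hb hs => ?_⟩
  refine hltr (fun F => VK K F ∧ Prp F) (YT φ R c) (NT φ s) _ (YT φ R (c - η)) (NT φ (s + η)) b hb
    ?_ hs
  rintro F ⟨⟨hFne, hFocc⟩, hFp⟩
  have hocc : occK K F := hFocc
  have hCN : 0 < C * N := Nat.mul_pos (by omega) hN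
  have hm : 0 < F.length := List.length_pos_of_ne_nil hFne
  obtain ⟨lo1, lo2, lo3⟩ := LO l k K N h C K' g ar ℕ hk H F hh2 (by omega) hN hH hocc
  have hhg := LG l k K N h C K' g ar ℕ hk H F hH hocc
  obtain ⟨r1, r2, r3⟩ := RNC.1 l ar (ℕ × Fin N) ℕ nuL (INJ.1 N) (liftF hk H F)
  obtain ⟨y1, y2⟩ := LYV l d k K N h C K' g ar ℕ hk H φ F hN (by omega) hH
  refine ⟨⟨⟨?_, ?_⟩, ?_⟩, ?_, ?_⟩
  · intro h0
    exact lo3 hFne (List.map_eq_nil_iff.mp h0)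
  · exact r1 _ lo1
  · exact r2 g hhg
  · rintro ⟨a, ha, hval⟩
    have h1 := LY l d k K N ar ℕ hk H R F a ha
    obtain ⟨a', ha'⟩ := r3 d (fun x : ℕ × Fin N => a x.1) hd
    refine ⟨a', fun c₁ hc₁ => ?_, ?_⟩
    · obtain ⟨c0, hc0, rfl⟩ := List.mem_map.mp hc₁
      have h2 := h1 c0 hc0
      have h3 : (fun j : Fin (ar c0.1) => a' (nuL (c0.2 j))) = fun j => a (c0.2 j).1 :=
        funext fun j => ha' (c0.2 j)
      change R c0.1 (fun j : Fin (ar c0.1) => a' (nuL (c0.2 j))) = true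
      rw [h3]
      exact h2
    · rw [T3_val, List.length_map]
      have h3 : (fun x : ℕ × Fin N => a' (nuL x)) = fun x => a x.1 := funext ha'
      rw [h3]
      exact T3_yes c η hη h (C * N) F.length (liftF hk H F).length (valV φ a F) _ Φ hh2 hm hyes
        hval (T3_valle φ Φ hΦ a F) lo2 (y2 a)
  · intro hN' a
    obtain ⟨a0, ha0⟩ := LNV l d k K N h C K' g Φ ar ℕ hk H φ F hd hN (by omega) hH hFp hΦ
      (fun x => a (nuL x))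
    have h1 := hN' a0
    rw [T3_val, List.length_map]
    exact T3_no s η h (C * N) F.length (liftF hk H F).length (valV φ a0 F) _ (d ^ k * Φ) hh2 hm
      hCN hη hno h1 y1 ha0

end Pool.Agent.Lib.MP_87d05f_lc.TH
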