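import Pool.Agent.Lib.MP_87d05f_lc.TH.Stm

set_option autoImplicit false

/-!
# MP_87d05f_lc, THRESHOLDS: the theorem
-/

namespace Pool.Agent.Lib.MP_87d05f_lc.TH

open Pool.Agent.Lib.MP_87d05f_lc Pool.Agent.Lib.MP_87d05f_lc.HG Pool.Agent.PolyTime Turing

private theorem TH_len {l : ℕ} {ar : Fin l → ℕ} {k : ℕ} (hk : ∀ i, ar i ≤ k)
    (F : List (Con ar)) : (F.flatMap (fun c => List.ofFn c.2)).length ≤ k * F.length := by
  induction F with
  | nil => simp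
  | cons c F ih =>
    rw [List.flatMap_cons, List.length_append, List.length_ofFn, List.length_cons]
    have := hk c.1
    rw [Nat.mul_succ]
    omega

private theorem TH_nvC {l : ℕ} {ar : Fin l → ℕ} {k : ℕ} (hk : ∀ i, ar i ≤ k)
    (F : List (Con ar)) : nvC F ≤ k * F.length :=
  (List.toFinset_card_le _).trans (TH_len hk F)

/-- [TH TH] the thresholds -/
theorem p_TH : S_T1 → S_T2 → S_T3 → S_TH := by
  intro h1 h2 h3 l d ar φ R c s hd
  refine ⟨?_, ?_⟩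
  · rintro η hη ⟨b, hb, hn⟩
    have hη3 : 0 < η / 3 := by positivity
    obtain ⟨b₁, hb₁, g1⟩ := h1 l d ar φ R c s (η / 3) b hd hη3 hb
    obtain ⟨K, b₂, hb₂, g2⟩ := h2 l d ar φ R (c - η / 3) (s + η / 3) (η / 3) b₁ hd hη3 hb₁
    obtain ⟨K₂, g3⟩ := h3 l d ar φ R (c - η / 3 - η / 3) (s + η / 3 + η / 3) (η / 3) K hd hη3
    refine ⟨K₂, fun g => ?_⟩
    obtain ⟨B, hB, g4⟩ := g3 g
    refine ⟨B * b₂, Nat.mul_pos hB hb₂, fun hs => hn (g1 (g2 (g4 b₂ hb₂ ?_)))⟩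
    have e1 : c - η / 3 - η / 3 - η / 3 = c - η := by ring
    have e2 : s + η / 3 + η / 3 + η / 3 = s + η := by ring
    rw [e1, e2]
    exact hs
  · rintro ⟨K, g, b, hb, hn⟩
    obtain ⟨k, hk⟩ : ∃ k, k = Finset.univ.sup ar + 1 := ⟨_, rfl⟩
    have hk0 : 0 < k := by omega
    have hark : ∀ i, ar i ≤ k := fun i => by
      have := Finset.le_sup (f := ar) (Finset.mem_univ i)
      omega
    refine ⟨k * b, Nat.mul_pos hk0 hb, fun hs => hn ?_⟩
    refine GSep.mono (fun F hF => ⟨hF.1.1, hF.2.1⟩) (fun F _ h => h) (fun F _ h => h)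
      (fun F _ => ?_) hs
    refine (Nat.div_le_div_right (TH_nvC hark F)).trans ?_
    rw [Nat.mul_div_mul_left _ _ hk0]

end Pool.Agent.Lib.MP_87d05f_lc.TH
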