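import Pool.Agent.Lib.MP_87d05f_lc.SP.Asm
import Pool.Agent.Lib.MP_87d05f_lc.HG.Main
import Pool.Agent.Lib.MP_87d05f_lc.TH.P_AVG
import Pool.Agent.Lib.MP_87d05f_lc.TH.P_LNV
import Pool.Agent.Lib.MP_87d05f_lc.TH.P_LYV
import Pool.Agent.Lib.MP_87d05f_lc.TH.P_T3
import Pool.Agent.Lib.MP_87d05f_lc.TH.P_BL
import Pool.Agent.Lib.MP_87d05f_lc.TH.P_BS
import Pool.Agent.Lib.MP_87d05f_lc.TH.P_BO
import Pool.Agent.Lib.MP_87d05f_lc.TH.P_BP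
import Pool.Agent.Lib.MP_87d05f_lc.TH.P_HAT
import Pool.Agent.Lib.MP_87d05f_lc.TH.P_FIL
import Pool.Agent.Lib.MP_87d05f_lc.TH.P_SMP
import Pool.Agent.Lib.MP_87d05f_lc.TH.P_T2
import Pool.Agent.Lib.MP_87d05f_lc.TH.P_T1
import Pool.Agent.Lib.MP_87d05f_lc.TH.P_TH
import Pool.Agent.Lib.MP_87d05f_lc.TH.P_QA
import Pool.Agent.Lib.MP_87d05f_lc.TH.P_QB
import Pool.Agent.Lib.MP_87d05f_lc.TH.P_QC
import Pool.Agent.Lib.MP_87d05f_lc.TH.P_QD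
import Pool.Agent.Lib.MP_87d05f_lc.TH.P_Q

set_option autoImplicit false

/-!
# MP_87d05f_lc, THRESHOLDS: assembly
-/

namespace Pool.Agent.Lib.MP_87d05f_lc.TH

open Pool.Agent.Lib.MP_87d05f_lc Pool.Agent.Lib.MP_87d05f_lc.HG

theorem m_SMP : S_SMP := p_SMP p_BL (p_BS p_AVG) p_BO p_HAT p_FIL p_INJ

theorem m_T2 : S_T2 := p_T2 SP.spmThm p_BL p_BP p_FIL m_SMP p_INJ

theorem m_T3 : S_T3 :=
  p_T3 m_PAT m_RNC p_INJ p_LY p_LO m_LG p_LTR (p_LNV p_AVG) p_LYV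

theorem m_TH : S_TH := p_TH (p_T1 SP.spmThm) m_T2 m_T3

theorem m_Q : S_Q := p_Q m_TH p_QA p_QB p_QC p_QD

end Pool.Agent.Lib.MP_87d05f_lc.TH
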