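import Pool.Agent.Lib.MP_87d05f_lc.TH.Stm

set_option autoImplicit false

/-!
# MP_87d05f_lc, thresholds: the regular instance is computed in polynomial time
-/

namespace Pool.Agent.Lib.MP_87d05f_lc.TH

open Pool.Agent.Lib.MP_87d05f_lc Pool.Agent.Lib.MP_87d05f_lc.HG Pool.Agent.PolyTime Turing

private theorem BP_count_ptime {α : Type} [SCode α] {w : α → List Bool}
    {l : α → List (List Bool)} (hw : PTime w) (hl : PTime l) :
    PTime (fun a => (l a).count (w a)) := by
  have h : PTime (fun a => ((l a).filter (fun u => decide (u = w a))).length) :=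
    PTime.length (PTime.filter (p := fun a (u : List Bool) => decide (u = w a)) hl
      (PTime.eq PTime.snd (hw.comp PTime.fst)))
  refine h.of_eq fun a => ?_
  rw [List.count_eq_length_filter]
  congr 1
  refine List.filter_congr fun u _ => ?_
  by_cases hu : u = w a <;> simp [hu]

private theorem BP_tup_ptime {α : Type} [SCode α] {L : α → ℕ} (hL : PTime L) :
    ∀ k : ℕ, PTime (fun a => tup (L a) k)
  | 0 => PTime.const [[]]
  | k + 1 => by
    have ih := BP_tup_ptime hL k
    change PTime (fun a => (List.range (L a)).flatMap (fun i => (tup (L a) k).map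
      (fun t => i :: t)))
    refine PTime.flatMap (l := fun a => List.range (L a)) (f := fun a (i : ℕ) =>
      (tup (L a) k).map (fun t => i :: t)) (PTime.range hL) ?_
    refine PTime.map (l := fun p : α × ℕ => tup (L p.1) k) (f := fun (p : α × ℕ) (t : List ℕ) =>
      p.2 :: t) (ih.comp PTime.fst) ?_
    exact PTime.cons (PTime.snd.comp PTime.fst) PTime.snd

/-- the remainder, computed from `mydiv` -/
def BP_mod (i D : ℕ) : ℕ := i - D * mydiv i D

private theorem BP_mod_eq {i D : ℕ} (h : 1 ≤ D) : BP_mod i D = i % D := by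
  unfold BP_mod
  rw [mydiv_eq h]
  have := Nat.div_add_mod i D
  omega

private theorem BP_mod_ptime {α : Type} [SCode α] {i D : α → ℕ} (hi : PTime i) (hD : PTime D) :
    PTime (fun a => BP_mod (i a) (D a)) := by
  unfold BP_mod
  exact PTime.sub hi (PTime.mul hD (mydiv_ptime hi hD))

/-- the words of a copy of a constraint -/
def BP_con (P : List (List Bool)) (c : List (List Bool)) (t : List ℕ) : List (List Bool) :=
  c.headD [] :: c.tail.zipIdx.map (fun wa => nb wa.1 (BP_mod (t.getD wa.2 0) (P.count wa.1)))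

/-- the words of the regular instance -/
def BP_W (h k : ℕ) (G : List (List (List Bool))) : List (List (List Bool)) :=
  G.flatMap (fun c => (tup (h * (k * G.length + 1)) k).map (fun t =>
    BP_con (G.flatMap List.tail) c t))

private theorem BP_W_ptime (h k : ℕ) {α : Type} [SCode α] {G : α → List (List (List Bool))}
    (hG : PTime G) : PTime (fun a => BP_W h k (G a)) := by
  unfold BP_W
  have hL : PTime (fun a => h * (k * (G a).length + 1)) :=
    PTime.mul (PTime.const h) (PTime.succ (PTime.mul (PTime.const k) (PTime.length hG)))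
  have hP : PTime (fun a => (G a).flatMap List.tail) :=
    PTime.flatMap (f := fun (_ : α) (u : List (List Bool)) => u.tail) hG (PTime.tail PTime.snd)
  refine PTime.flatMap (l := G) (f := fun a (c : List (List Bool)) =>
    (tup (h * (k * (G a).length + 1)) k).map (fun t => BP_con ((G a).flatMap List.tail) c t))
    hG ?_
  refine PTime.map (l := fun p : α × List (List Bool) => tup (h * (k * (G p.1).length + 1)) k)
    (f := fun (p : α × List (List Bool)) (t : List ℕ) =>
      BP_con ((G p.1).flatMap List.tail) p.2 t) ((BP_tup_ptime hL k).comp PTime.fst) ?_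
  unfold BP_con
  have hc : PTime (fun p : (α × List (List Bool)) × List ℕ => p.1.2) :=
    PTime.snd.comp PTime.fst
  refine PTime.cons (PTime.headD hc (PTime.const [])) ?_
  refine PTime.map (f := fun (p : (α × List (List Bool)) × List ℕ) (wa : List Bool × ℕ) =>
    nb wa.1 (BP_mod (p.2.getD wa.2 0) (((G p.1.1).flatMap List.tail).count wa.1)))
    (PTime.zipIdx (PTime.tail hc)) ?_
  refine nb_ptime (PTime.fst.comp PTime.snd) (BP_mod_ptime ?_ ?_)
  · exact PTime.getD (PTime.snd.comp PTime.snd) (PTime.snd.comp PTime.fst) (PTime.const 0)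
  · exact BP_count_ptime (PTime.fst.comp PTime.snd)
      (hP.comp ((PTime.fst.comp PTime.fst).comp PTime.fst))

section words

variable {l : ℕ} {ar : Fin l → ℕ}

private theorem BP_rank (F : List (Con ar)) (v : ℕ) :
    (((F.map wordC).flatMap List.tail).count (Nat.bits v)) = dgV F v := by
  rw [vars_wordC]
  unfold dgV vsC
  exact List.count_map_of_injective _ _ bits_injective _

private theorem BP_word (F : List (Con ar)) {c : Con ar} (hc : c ∈ F) (t : List ℕ) :
    wordC (mapC nu3 (⟨c.1, fun a => (c.2 a, t.getD (a : ℕ) 0 % dgV F (c.2 a))⟩ :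
      CV ar (ℕ × ℕ))) = BP_con ((F.map wordC).flatMap List.tail) (wordC c) t := by
  unfold BP_con
  have h1 : (wordC c).headD [] = Nat.bits (c.1 : ℕ) := rfl
  have h2 : (wordC c).tail = (List.ofFn c.2).map Nat.bits := rfl
  rw [h1, h2]
  have h3 : wordC (mapC nu3 (⟨c.1, fun a => (c.2 a, t.getD (a : ℕ) 0 % dgV F (c.2 a))⟩ :
      CV ar (ℕ × ℕ))) = Nat.bits (c.1 : ℕ) :: (List.ofFn (fun a =>
        nu3 (c.2 a, t.getD (a : ℕ) 0 % dgV F (c.2 a)))).map Nat.bits := rfl
  rw [h3]
  congr 1
  apply List.ext_getElem
  · simp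
  · intro n hn1 hn2
    simp only [List.getElem_map, List.getElem_ofFn, List.getElem_zipIdx, List.length_map,
      List.length_ofFn, Nat.zero_add] at hn1 hn2 ⊢
    unfold nu3
    obtain ⟨u, hu⟩ := nb_end (Nat.bits (c.2 ⟨n, hn1⟩)) (t.getD n 0 % dgV F (c.2 ⟨n, hn1⟩))
    simp only
    rw [hu, bits_unbits, ← hu, BP_rank]
    congr 1
    refine (BP_mod_eq ?_).symm
    unfold dgV
    rw [Nat.one_le_iff_ne_zero, ← Nat.pos_iff_ne_zero, List.count_pos_iff, List.mem_flatMap]
    refine ⟨c, hc, ?_⟩
    unfold vsC
    rw [List.mem_ofFn]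
    exact ⟨⟨n, hn1⟩, rfl⟩

private theorem BP_eq (h k : ℕ) (F : List (Con ar)) :
    BP_W h k (F.map wordC) = (bloN (h * (k * F.length + 1)) k F).map wordC := by
  unfold BP_W bloN blo
  rw [List.map_map, List.map_flatMap, List.flatMap_map, List.length_map]
  refine List.flatMap_congr fun c hc => ?_
  rw [List.map_map]
  refine List.map_congr_left fun t _ => ?_
  exact (BP_word F hc t).symm

end words

theorem p_BP : S_BP := by
  intro l k h ar _
  refine ⟨fun x => BP_W h k (parseW x), BP_W_ptime h k parseW_ptime, fun F => ?_⟩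
  have hx : parseW (codeC F) = F.map wordC := by
    rw [codeC_eq, parseW_encW]
  simp only [hx]
  exact BP_eq h k F

end Pool.Agent.Lib.MP_87d05f_lc.TH
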