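import Pool.Agent.Lib.MP_87d05f_lc.TH.StmQ

set_option autoImplicit false

/-!
# MP_87d05f_lc, THRESHOLDS: the formula of an instance is computed in polynomial time
-/

namespace Pool.Agent.Lib.MP_87d05f_lc.TH

open Pool.Agent.Lib.MP_87d05f_lc Pool.Agent.Lib.MP_87d05f_lc.HG Pool.Agent.PolyTime Turing

/-- the clauses of an instance, in words -/
def QD_cl (G : List (List (List Bool))) : List (List (Lit (List Bool))) :=
  G.map (fun c => c.tail.zipIdx.map (fun p => ((c.headD []).getD p.2 false, p.1)))

private theorem QD_cl_ptime {α : Type} [SCode α] {G : α → List (List (List Bool))}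
    (hG : PTime G) : PTime (fun a => QD_cl (G a)) := by
  unfold QD_cl
  refine PTime.map (f := fun (_ : α) (c : List (List Bool)) =>
    (c.tail.zipIdx.map (fun p => ((c.headD []).getD p.2 false, p.1)) :
      List (Lit (List Bool)))) hG ?_
  refine PTime.map (l := fun q : α × List (List Bool) => q.2.tail.zipIdx)
    (f := fun (q : α × List (List Bool)) (p : List Bool × ℕ) =>
      (((q.2.headD []).getD p.2 false, p.1) : Lit (List Bool)))
    (PTime.zipIdx (PTime.tail PTime.snd)) ?_
  exact (PTime.getD (PTime.snd.comp PTime.snd)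
    (PTime.headD (PTime.snd.comp PTime.fst) (PTime.const [])) (PTime.const false)).pair
    (PTime.fst.comp PTime.snd)

private theorem QD_testBit (n a : ℕ) : (Nat.bits n).getD a false = Nat.testBit n a := by
  rw [Nat.testBit_eq_inth]
  rfl

private theorem QD_cl_eq (F : List (Con arQ)) :
    QD_cl (F.map wordC) = (F.map clQ).map (fun c => c.map (fun l => (l.1, Nat.bits l.2))) := by
  unfold QD_cl
  rw [List.map_map, List.map_map]
  refine List.map_congr_left fun q _ => ?_
  simp only [Function.comp]
  unfold wordC clQ
  rw [List.tail_cons, List.headD_cons]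
  refine List.ext_getElem (by simp) fun i h1 h2 => ?_
  simp only [List.getElem_map, List.getElem_zipIdx, List.getElem_ofFn, Nat.zero_add, QD_testBit]

private theorem QD_encF (F : List (List (Bool × ℕ))) :
    encG (F.map (fun c => c.map (fun l => (l.1, Nat.bits l.2)))) = encF F := by
  unfold encG encF
  rw [List.flatMap_map]
  refine List.flatMap_congr fun c _ => ?_
  rw [List.flatMap_map]

theorem p_QD : S_QD := by
  intro V₁ Y₁ N₁ V₂ Y₂ N₂ b hb hred hsep
  have hf : PTime (fun x : List Bool => encG (QD_cl (parseW x))) :=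
    encG_ptime (QD_cl_ptime parseW_ptime)
  have hh : PTime (fun x => mydiv (parseW x).length b) :=
    mydiv_ptime (PTime.length parseW_ptime) (PTime.const b)
  refine transfer hf hh (fun F _ => length_le_code F) ?_ hsep
  intro F hF
  obtain ⟨h1, h2, h3⟩ := hred F hF
  have hx : parseW (codeC F) = F.map wordC := by
    rw [codeC_eq, parseW_encW]
  refine ⟨F.map clQ, h1, ?_, h2, h3, ?_, ?_⟩
  · rw [hx, QD_cl_eq, QD_encF]
  · simp only [hx, List.length_map]
    rw [mydiv_eq hb]
  · simp only [hx, List.length_map]
    rw [mydiv_eq hb]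

end Pool.Agent.Lib.MP_87d05f_lc.TH
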